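import Mathlib

/-!
# The rank in Freiman's theorem over the integers is best possible
-/

set_option autoImplicit false

namespace Pool.Agent.Run7.h127.SP

open Finset
open scoped Pointwise

/-- digits in base `M` are unique -/
lemma digits_unique {M : ℕ} (hM : 0 < M) : ∀ (d : ℕ) (c c' : Fin d → ℕ), (∀ i, c i < M) →
    (∀ i, c' i < M) → ∑ i : Fin d, c i * M ^ (i : ℕ) = ∑ i : Fin d, c' i * M ^ (i : ℕ) → c = c' := by
  intro d
  induction d with
  | zero => intro c c' _ _ _; exact Subsingleton.elim _ _
  | succ d ih =>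
    intro c c' hc hc' h
    have key : ∀ b : Fin (d + 1) → ℕ, ∑ i : Fin (d + 1), b i * M ^ (i : ℕ) =
        b 0 + M * ∑ i : Fin d, b i.succ * M ^ (i : ℕ) := by
      intro b
      rw [Fin.sum_univ_succ, Finset.mul_sum]
      simp only [Fin.val_zero, pow_zero, mul_one, Fin.val_succ, pow_succ]
      congr 1
      exact Finset.sum_congr rfl fun i _ => by ring
    rw [key, key] at h
    have h0 : c 0 = c' 0 := by
      have h1 := congrArg (· % M) h
      simp only [Nat.add_mul_mod_self_left] at h1
      rwa [Nat.mod_eq_of_lt (hc 0), Nat.mod_eq_of_lt (hc' 0)] at h1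
    rw [h0] at h
    have h2 := Nat.eq_of_mul_eq_mul_left hM (Nat.add_left_cancel h)
    have h3 := ih (fun i => c i.succ) (fun i => c' i.succ) (fun i => hc _) (fun i => hc' _) h2
    funext i
    refine Fin.cases h0 (fun i => ?_) i
    exact congrFun h3 i

/-- **Sets of integers which need progressions of rank `d`.** -/
theorem int_low (d C : ℕ) (hd : 1 ≤ d) :
    ∃ A : Finset ℤ, A.Nonempty ∧ (A + A).card ≤ 2 ^ d * A.card ∧
      ∀ (r : ℕ) (v : Fin r → ℤ) (L : Fin r → ℕ) (T : Finset ℤ), r < d → T.card ≤ C →
        ∏ i, (2 * L i + 1) ≤ A.card →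
        ¬ ∀ a ∈ A, ∃ t ∈ T, ∃ c : Fin r → ℤ, (∀ i, |c i| ≤ L i) ∧ a = t + ∑ i, c i • v i := by
  classical
  obtain ⟨x, hx⟩ : ∃ x, x = C + 1 := ⟨_, rfl⟩
  obtain ⟨k, hk⟩ : ∃ k, k = d ^ (d - 1) * x ^ d := ⟨_, rfl⟩
  obtain ⟨M, hM⟩ : ∃ M, M = d * k * x + x + 1 := ⟨_, rfl⟩
  have hx1 : 1 ≤ x := by omega
  have hM0 : 0 < M := by omega
  have hk1 : 1 ≤ k := by
    rw [hk]
    exact Nat.mul_pos (by positivity) (by positivity)
  obtain ⟨φ, hφ⟩ : ∃ φ : (Fin d → ℕ) → ℤ, φ = fun c => ((∑ i : Fin d, c i * M ^ (i : ℕ) : ℕ) : ℤ) :=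
    ⟨_, rfl⟩
  have hφadd : ∀ c c', φ (c + c') = φ c + φ c' := by
    intro c c'
    rw [hφ]
    simp only [Pi.add_apply, add_mul, Finset.sum_add_distrib]
    push_cast
    ring
  have hφsmul : ∀ (n : ℕ) c, φ (n • c) = n * φ c := by
    intro n c
    rw [hφ]
    simp only [Pi.smul_apply, smul_eq_mul, mul_assoc, ← Finset.mul_sum]
    push_cast
    ring
  have hφsum : ∀ (s : Finset (Fin d)) (f : Fin d → Fin d → ℕ), φ (∑ i ∈ s, f i) =
      ∑ i ∈ s, φ (f i) := by
    intro s f
    induction s using Finset.induction_on with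
    | empty => rw [hφ]; simp
    | insert i s hi ih => rw [Finset.sum_insert hi, Finset.sum_insert hi, hφadd, ih]
  have hφinj : ∀ c c' : Fin d → ℕ, (∀ i, c i < M) → (∀ i, c' i < M) → φ c = φ c' → c = c' := by
    intro c c' hc hc' h
    rw [hφ] at h
    have h' : ((∑ i : Fin d, c i * M ^ (i : ℕ) : ℕ) : ℤ) =
        ((∑ i : Fin d, c' i * M ^ (i : ℕ) : ℕ) : ℤ) := h
    exact digits_unique hM0 d c c' hc hc' (Nat.cast_injective h')
  obtain ⟨D, hD⟩ : ∃ D : Finset (Fin d → ℕ), D = Fintype.piFinset fun _ => range x := ⟨_, rfl⟩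
  have hDc : D.card = x ^ d := by
    rw [hD, Fintype.card_piFinset, Finset.prod_const, Finset.card_univ, Fintype.card_fin,
      card_range]
  have hDm : ∀ c, c ∈ D ↔ ∀ i, c i < x := by
    intro c
    rw [hD, Fintype.mem_piFinset]
    simp
  obtain ⟨A, hA⟩ : ∃ A, A = D.image φ := ⟨_, rfl⟩
  have hAc : A.card = x ^ d := by
    rw [hA, card_image_of_injOn, hDc]
    intro c hc c' hc' h
    have h1 := (hDm c).1 hc
    have h2 := (hDm c').1 hc'
    exact hφinj c c' (fun i => by have := h1 i; omega) (fun i => by have := h2 i; omega) h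
  refine ⟨A, ?_, ?_, ?_⟩
  · rw [← Finset.card_pos, hAc]
    positivity
  · have h1 : A + A ⊆ (Fintype.piFinset fun _ : Fin d => range (2 * x)).image φ := by
      intro z hz
      obtain ⟨a, ha, b, hb, rfl⟩ := Finset.mem_add.1 hz
      rw [hA] at ha hb
      obtain ⟨c, hc, rfl⟩ := mem_image.1 ha
      obtain ⟨c', hc', rfl⟩ := mem_image.1 hb
      have h1 := (hDm c).1 hc
      have h2 := (hDm c').1 hc'
      refine mem_image.2 ⟨c + c', ?_, hφadd _ _⟩
      rw [Fintype.mem_piFinset]
      intro i
      rw [mem_range, Pi.add_apply]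
      have := h1 i
      have := h2 i
      omega
    refine (card_le_card h1).trans (card_image_le.trans ?_)
    rw [Fintype.card_piFinset, Finset.prod_const, Finset.card_univ, Fintype.card_fin,
      card_range, mul_pow, hAc]
  · intro r v L T hrd hT hvol hcov
    -- a translate with many points
    obtain ⟨P, hP⟩ : ∃ P : ℤ → Prop, P = fun z => ∃ c : Fin r → ℤ, (∀ i, |c i| ≤ L i) ∧
      z = ∑ i, c i • v i := ⟨_, rfl⟩
    have hex : ∃ t ∈ T, x ^ (d - 1) < (D.filter fun c => P (φ c - t)).card := by
      by_contra hcon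
      have hall : ∀ t ∈ T, (D.filter fun c => P (φ c - t)).card ≤ x ^ (d - 1) := fun t ht =>
        not_lt.1 fun h => hcon ⟨t, ht, h⟩
      have h1 : D ⊆ T.biUnion fun t => D.filter fun c => P (φ c - t) := by
        intro c hc
        obtain ⟨t, ht, c', hc', e⟩ := hcov (φ c) (by rw [hA]; exact mem_image_of_mem φ hc)
        refine mem_biUnion.2 ⟨t, ht, mem_filter.2 ⟨hc, ?_⟩⟩
        rw [hP]
        exact ⟨c', hc', by rw [e]; ring⟩
      have h2 : x ^ d ≤ T.card * x ^ (d - 1) := by
        rw [← hDc]
        refine (card_le_card h1).trans (card_biUnion_le.trans ?_)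
        rw [← smul_eq_mul, ← Finset.sum_const]
        exact Finset.sum_le_sum hall
      have h3 : x * x ^ (d - 1) = x ^ d := by
        rw [← pow_succ']
        congr 1
        omega
      rw [← h3] at h2
      have h4 := Nat.le_of_mul_le_mul_right h2 (by positivity)
      omega
    obtain ⟨t, -, ht⟩ := hex
    obtain ⟨S, hS⟩ : ∃ S, S = D.filter fun c => P (φ c - t) := ⟨_, rfl⟩
    rw [← hS] at ht
    -- pairs on the coordinate lines
    have hpair : ∀ i : Fin d, ∃ a b : Fin d → ℕ, a ∈ S ∧ b ∈ S ∧ a i < b i ∧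
        ∀ j, j ≠ i → a j = b j := by
      intro i
      have h1 : (D.filter fun c => c i = 0).card ≤ x ^ (d - 1) := by
        have h2 : (D.filter fun c => c i = 0) ⊆ Fintype.piFinset fun j =>
            if j = i then {0} else range x := by
          intro c hc
          obtain ⟨hc1, hc2⟩ := mem_filter.1 hc
          rw [Fintype.mem_piFinset]
          intro j
          by_cases hj : j = i
          · rw [if_pos hj, hj, hc2]
            exact mem_singleton_self _
          · rw [if_neg hj, mem_range]
            exact (hDm c).1 hc1 j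
        refine (card_le_card h2).trans ?_
        rw [Fintype.card_piFinset, ← Finset.mul_prod_erase univ _ (mem_univ i), if_pos rfl,
          card_singleton, one_mul]
        have h3 : ∏ j ∈ univ.erase i, (if j = i then ({0} : Finset ℕ) else range x).card =
            ∏ _j ∈ univ.erase i, x := Finset.prod_congr rfl fun j hj => by
          rw [if_neg (ne_of_mem_erase hj), card_range]
        rw [h3, Finset.prod_const, card_erase_of_mem (mem_univ i), Finset.card_univ,
          Fintype.card_fin]
      obtain ⟨a, ha, b, hb, hab, heq⟩ := Finset.exists_ne_map_eq_of_card_lt_of_maps_to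
        (s := S) (t := D.filter fun c => c i = 0) (f := fun c => Function.update c i 0)
        (lt_of_le_of_lt h1 ht) (by
          intro c hc
          have hc' : c ∈ S := hc
          rw [hS] at hc'
          have hc1 := (hDm c).1 (mem_filter.1 hc').1
          refine mem_coe.2 (mem_filter.2 ⟨(hDm _).2 fun j => ?_, Function.update_self _ _ _⟩)
          show Function.update c i 0 j < x
          by_cases hj : j = i
          · rw [hj, Function.update_self]
            omega
          · rw [Function.update_of_ne hj]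
            exact hc1 j)
      have hrest : ∀ j, j ≠ i → a j = b j := by
        intro j hj
        have := congrFun heq j
        rwa [Function.update_of_ne hj, Function.update_of_ne hj] at this
      have hne : a i ≠ b i := by
        intro h
        apply hab
        funext j
        by_cases hj : j = i
        · rw [hj, h]
        · exact hrest j hj
      rcases lt_or_gt_of_ne hne with h | h
      · exact ⟨a, b, ha, hb, h, hrest⟩
      · exact ⟨b, a, hb, ha, h, fun j hj => (hrest j hj).symm⟩
    choose a b ha hb hlt hrest using hpair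
    have hSm : ∀ c ∈ S, (∀ i, c i < x) ∧ ∃ n : Fin r → ℤ, (∀ j, |n j| ≤ L j) ∧
        φ c = t + ∑ j, n j • v j := by
      intro c hc
      rw [hS] at hc
      obtain ⟨h1, h2⟩ := mem_filter.1 hc
      rw [hP] at h2
      obtain ⟨n, hn, e⟩ := h2
      exact ⟨(hDm c).1 h1, n, hn, by rw [← e]; ring⟩
    choose α hα hαe using fun i => (hSm (a i) (ha i)).2
    choose β hβ hβe using fun i => (hSm (b i) (hb i)).2
    -- the long sums
    obtain ⟨w, hw⟩ : ∃ w : (Fin d → ℕ) → (Fin d → ℕ), w = fun κ =>
        ∑ i, ((k - κ i) • a i + κ i • b i) := ⟨_, rfl⟩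
    obtain ⟨Q, hQ⟩ : ∃ Q : Finset (Fin d → ℕ), Q = Fintype.piFinset fun _ => range (k + 1) :=
      ⟨_, rfl⟩
    have hQm : ∀ κ, κ ∈ Q → ∀ i, κ i ≤ k := by
      intro κ hκ i
      rw [hQ, Fintype.mem_piFinset] at hκ
      have := hκ i
      rw [mem_range] at this
      omega
    have hwlt : ∀ κ ∈ Q, ∀ j, w κ j < M := by
      intro κ hκ j
      have h1 : w κ j = ∑ i, ((k - κ i) * a i j + κ i * b i j) := by
        rw [hw]
        simp only [Finset.sum_apply, Pi.add_apply, Pi.smul_apply, smul_eq_mul]
      have h2 : w κ j ≤ ∑ _i : Fin d, k * x := by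
        rw [h1]
        refine Finset.sum_le_sum fun i _ => ?_
        have h3 := (hSm _ (ha i)).1 j
        have h4 := (hSm _ (hb i)).1 j
        have h5 := hQm κ hκ i
        calc (k - κ i) * a i j + κ i * b i j ≤ (k - κ i) * x + κ i * x :=
              Nat.add_le_add (Nat.mul_le_mul_left _ h3.le) (Nat.mul_le_mul_left _ h4.le)
          _ = k * x := by rw [← add_mul, Nat.sub_add_cancel h5]
      rw [Finset.sum_const, Finset.card_univ, Fintype.card_fin, smul_eq_mul, ← mul_assoc] at h2
      omega
    have hwinj : ∀ κ ∈ Q, ∀ κ' ∈ Q, w κ = w κ' → κ = κ' := by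
      intro κ hκ κ' hκ' h
      have hform : ∀ κ ∈ Q, ∀ j, (w κ j : ℤ) = (∑ i, (k : ℤ) * a i j) +
          κ j * ((b j j : ℤ) - a j j) := by
        intro κ hκ j
        have h1 : (w κ j : ℤ) = ∑ i, ((k : ℤ) * a i j + κ i * ((b i j : ℤ) - a i j)) := by
          rw [hw]
          simp only [Finset.sum_apply, Pi.add_apply, Pi.smul_apply, smul_eq_mul]
          push_cast
          refine Finset.sum_congr rfl fun i _ => ?_
          rw [Nat.cast_sub (hQm κ hκ i)]
          ring
        rw [h1, Finset.sum_add_distrib]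
        congr 1
        rw [Finset.sum_eq_single j]
        · intro i _ hij
          rw [hrest i j hij.symm]
          ring
        · intro h
          exact absurd (mem_univ j) h
      funext j
      have h1 := hform κ hκ j
      have h2 := hform κ' hκ' j
      rw [h] at h1
      have h3 : (κ j : ℤ) * ((b j j : ℤ) - a j j) = κ' j * ((b j j : ℤ) - a j j) := by
        linarith
      have h4 : ((b j j : ℤ) - a j j) ≠ 0 := by
        have := hlt j
        omega
      exact_mod_cast mul_right_cancel₀ h4 h3
    -- all of them lie in a multiple of the progression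
    obtain ⟨Z, hZ⟩ : ∃ Z : Finset (Fin r → ℤ), Z = Fintype.piFinset fun j =>
        Finset.Icc (-((d * k * L j : ℕ) : ℤ)) (d * k * L j : ℕ) := ⟨_, rfl⟩
    have hmem : ∀ κ ∈ Q, φ (w κ) ∈ Z.image fun n : Fin r → ℤ =>
        (d * k : ℤ) * t + ∑ j, n j • v j := by
      intro κ hκ
      rw [mem_image]
      refine ⟨fun j => ∑ i, (((k : ℤ) - κ i) * α i j + κ i * β i j), ?_, ?_⟩
      · rw [hZ, Fintype.mem_piFinset]
        intro j
        rw [mem_Icc, ← abs_le]
        have h1 : |∑ i, (((k : ℤ) - κ i) * α i j + κ i * β i j)| ≤ ∑ _i : Fin d, (k : ℤ) * L j := by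
          refine (Finset.abs_sum_le_sum_abs _ _).trans (Finset.sum_le_sum fun i _ => ?_)
          have h2 : (0 : ℤ) ≤ (k : ℤ) - κ i := by
            have := hQm κ hκ i
            omega
          have h3 : (0 : ℤ) ≤ κ i := by positivity
          calc |((k : ℤ) - κ i) * α i j + κ i * β i j|
              ≤ |((k : ℤ) - κ i) * α i j| + |(κ i : ℤ) * β i j| := abs_add_le _ _
            _ = ((k : ℤ) - κ i) * |α i j| + κ i * |β i j| := by
              rw [abs_mul, abs_mul, abs_of_nonneg h2, abs_of_nonneg h3]
            _ ≤ ((k : ℤ) - κ i) * L j + κ i * L j :=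
              add_le_add (mul_le_mul_of_nonneg_left (hα i j) h2)
                (mul_le_mul_of_nonneg_left (hβ i j) h3)
            _ = (k : ℤ) * L j := by ring
        rw [Finset.sum_const, Finset.card_univ, Fintype.card_fin, nsmul_eq_mul] at h1
        push_cast
        rw [mul_assoc]
        exact h1
      · have h1 : φ (w κ) = ∑ i, (((k : ℤ) - κ i) * φ (a i) + κ i * φ (b i)) := by
          rw [hw]
          simp only
          rw [hφsum]
          refine Finset.sum_congr rfl fun i _ => ?_
          rw [hφadd, hφsmul, hφsmul, Nat.cast_sub (hQm κ hκ i)]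
        rw [h1]
        have h2 : ∀ i, ((k : ℤ) - κ i) * φ (a i) + κ i * φ (b i) =
            k * t + ∑ j, (((k : ℤ) - κ i) * α i j + κ i * β i j) • v j := by
          intro i
          rw [hαe i, hβe i]
          simp only [smul_eq_mul, mul_add, add_mul, Finset.mul_sum, Finset.sum_add_distrib,
            mul_assoc]
          ring
        rw [Finset.sum_congr rfl fun i _ => h2 i, Finset.sum_add_distrib, Finset.sum_comm,
          Finset.sum_const, Finset.card_univ, Fintype.card_fin, nsmul_eq_mul]
        simp only [Finset.sum_smul]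
        ring
    have hcount : (k + 1) ^ d ≤ (d * k) ^ (d - 1) * x ^ d := by
      have h1 : Q.card = (k + 1) ^ d := by
        rw [hQ, Fintype.card_piFinset, Finset.prod_const, Finset.card_univ, Fintype.card_fin,
          card_range]
      have h2 : Q.card ≤ Z.card := by
        have h3 : (Q.image fun κ => φ (w κ)).card = Q.card := by
          refine card_image_of_injOn fun κ hκ κ' hκ' h => ?_
          exact hwinj κ hκ κ' hκ' (hφinj _ _ (hwlt κ hκ) (hwlt κ' hκ') h)
        rw [← h3]
        have h5 : (Q.image fun κ => φ (w κ)) ⊆ Z.image fun n : Fin r → ℤ =>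
            (d * k : ℤ) * t + ∑ j, n j • v j := by
          intro z hz
          obtain ⟨κ, hκ, rfl⟩ := mem_image.1 hz
          exact hmem κ hκ
        exact (card_le_card h5).trans card_image_le
      have hdk : 1 ≤ d * k := Nat.mul_pos hd hk1
      have h4 : Z.card ≤ (d * k) ^ r * ∏ j, (2 * L j + 1) := by
        have h5 : (d * k) ^ r * ∏ j, (2 * L j + 1) = ∏ j : Fin r, ((d * k) * (2 * L j + 1)) := by
          rw [Finset.prod_mul_distrib, Finset.prod_const, Finset.card_univ, Fintype.card_fin]
        rw [hZ, Fintype.card_piFinset, h5]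
        refine Finset.prod_le_prod' fun j _ => ?_
        rw [Int.card_Icc]
        have h6 : (d * k) * (2 * L j + 1) = 2 * (d * k * L j) + d * k := by ring
        rw [h6]
        omega
      calc (k + 1) ^ d = Q.card := h1.symm
        _ ≤ Z.card := h2
        _ ≤ (d * k) ^ r * ∏ j, (2 * L j + 1) := h4
        _ ≤ (d * k) ^ (d - 1) * x ^ d :=
          Nat.mul_le_mul (Nat.pow_le_pow_right hdk (by omega)) (hvol.trans hAc.le)
    have hfinal : (d * k) ^ (d - 1) * x ^ d = k ^ d := by
      calc (d * k) ^ (d - 1) * x ^ d = k ^ (d - 1) * (d ^ (d - 1) * x ^ d) := by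
            rw [mul_pow]
            ring
        _ = k ^ (d - 1) * k := by rw [← hk]
        _ = k ^ d := by
          rw [← pow_succ]
          congr 1
          omega
    rw [hfinal] at hcount
    have : k ^ d < (k + 1) ^ d := Nat.pow_lt_pow_left (Nat.lt_succ_self k) (by omega)
    omega

end Pool.Agent.Run7.h127.SP
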