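import Pool.Agent.Run7.h127.SP.TradeLow

/-!
# Groups of exponent `m`: dimension against the number of translates, lower bounds for every modulus
-/

set_option autoImplicit false

namespace Pool.Agent.Run7.h127.SP

open Finset
open scoped Pointwise

/-- an interval in `ℤ/m` has few points in a coset of a subgroup -/
lemma interval_coset {m x : ℕ} [NeZero m] (hx1 : 1 ≤ x) (H : AddSubgroup (ZMod m))
    (y : ZMod m) (U : Finset (ZMod m)) (hU : ∀ u ∈ U, u ∈ (range x).image (Nat.cast : ℕ → ZMod m))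
    (hy : ∀ u ∈ U, u - y ∈ H) :
    (U.card : ℝ) ≤ max 1 (2 * (x : ℝ) * (Nat.card H : ℝ) / (m : ℝ)) := by
  classical
  have hm0 : 0 < m := Nat.pos_of_ne_zero (NeZero.ne m)
  obtain ⟨h, hh⟩ : ∃ h, h = Nat.card H := ⟨_, rfl⟩
  have hh0 : 0 < h := by rw [hh]; exact Nat.card_pos
  have hdvd : h ∣ m := by
    have := AddSubgroup.card_addSubgroup_dvd_card H
    rwa [Nat.card_zmod, ← hh] at this
  obtain ⟨g, hg⟩ := hdvd
  have hg0 : 0 < g := Nat.pos_of_ne_zero (by rintro rfl; rw [mul_zero] at hg; omega)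
  -- two elements of `U` are congruent modulo `g`
  have hann : ∀ z ∈ H, h • z = 0 := by
    intro z hz
    have h1 : Nat.card H • (⟨z, hz⟩ : H) = 0 := card_nsmul_eq_zero'
    have h2 := congrArg H.subtype h1
    rw [map_nsmul, map_zero, ← hh] at h2
    exact h2
  choose! c hc using fun u hu => mem_image.1 (hU u hu)
  have hcong : ∀ u ∈ U, ∀ w ∈ U, c u % g = c w % g := by
    intro u hu w hw
    have h1 : u - w ∈ H := by
      have := sub_mem (hy u hu) (hy w hw)
      rwa [sub_sub_sub_cancel_right] at this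
    have h2 := hann _ h1
    rw [smul_sub, sub_eq_zero, nsmul_eq_mul, nsmul_eq_mul] at h2
    have h3 : ((h * c u : ℕ) : ZMod m) = ((h * c w : ℕ) : ZMod m) := by
      rw [Nat.cast_mul, Nat.cast_mul, (hc u hu).2, (hc w hw).2]
      exact h2
    rw [ZMod.natCast_eq_natCast_iff, hg] at h3
    exact Nat.ModEq.mul_left_cancel' hh0.ne' h3
  have hcard : U.card ≤ (x - 1) / g + 1 := by
    have h1 : (U.image fun u => c u / g) ⊆ range ((x - 1) / g + 1) := by
      intro a ha
      obtain ⟨u, hu, rfl⟩ := mem_image.1 ha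
      have h2 := mem_range.1 (hc u hu).1
      exact mem_range.2 (Nat.lt_succ_of_le (Nat.div_le_div_right (by omega)))
    have h2 : Set.InjOn (fun u => c u / g) (U : Set (ZMod m)) := by
      intro u hu w hw huw
      have h3 := hcong u hu w hw
      have h4 : c u / g = c w / g := huw
      have h5 : c u = c w := by
        rw [← Nat.div_add_mod (c u) g, ← Nat.div_add_mod (c w) g, h3, h4]
      rw [← (hc u hu).2, ← (hc w hw).2, h5]
    rw [← Finset.card_image_of_injOn h2]
    exact (card_le_card h1).trans (by rw [card_range])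
  have hg0' : (0 : ℝ) < g := by exact_mod_cast hg0
  have hh0' : (0 : ℝ) < h := by exact_mod_cast hh0
  have he : 2 * (x : ℝ) * (Nat.card H : ℝ) / (m : ℝ) = 2 * (x : ℝ) / (g : ℝ) := by
    rw [← hh, hg]
    push_cast
    field_simp
  rw [he]
  rcases Nat.lt_or_ge (x - 1) g with h1 | h1
  · rw [Nat.div_eq_of_lt h1] at hcard
    refine le_trans ?_ (le_max_left _ _)
    exact_mod_cast hcard
  · refine le_trans ?_ (le_max_right _ _)
    rw [le_div_iff₀ hg0']
    have h2 : ((x - 1) / g + 1) * g ≤ 2 * x := by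
      have h3 := Nat.div_mul_le_self (x - 1) g
      rw [add_mul, one_mul]
      omega
    have h4 := (Nat.mul_le_mul_right g hcard).trans h2
    exact_mod_cast h4

/-- a set in a coset has at most as many elements as the subgroup -/
lemma coset_card {G : Type} [AddCommGroup G] (H : AddSubgroup G) [Finite H] (y : G)
    (F : Finset G) (hy : ∀ a ∈ F, a - y ∈ H) : F.card ≤ Nat.card H := by
  have h1 := Nat.card_le_card_of_injective (fun a : F => (⟨a.1 - y, hy a.1 a.2⟩ : H)) (by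
    intro a b hab
    have h2 : a.1 - y = b.1 - y := congrArg Subtype.val hab
    exact Subtype.ext (sub_left_injective h2))
  rwa [Nat.card_eq_fintype_card, Fintype.card_coe] at h1

/-- **Boxes in `(ℤ/m) ^ d` have few points in a coset.** -/
lemma gen_box {m x : ℕ} [NeZero m] (hx1 : 1 ≤ x) (d : ℕ) :
    ∀ (H : AddSubgroup (Fin d → ZMod m)) (s : ℕ) (y : Fin d → ZMod m)
      (F : Finset (Fin d → ZMod m)),
      (∀ a ∈ F, ∀ i, a i ∈ (range x).image (Nat.cast : ℕ → ZMod m)) → (∀ a ∈ F, a - y ∈ H) →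
      (F.card : ℝ) ≤ 2 ^ d * (x : ℝ) ^ s * max 1 ((x : ℝ) * (Nat.card H : ℝ) / (m : ℝ) ^ (s + 1)) := by
  classical
  have hm0 : (0 : ℝ) < m := by exact_mod_cast Nat.pos_of_ne_zero (NeZero.ne m)
  have hxR : (1 : ℝ) ≤ x := by exact_mod_cast hx1
  induction d with
  | zero =>
    intro H s y F _ _
    have h1 : F.card ≤ 1 := by
      rw [Finset.card_le_one]
      intro a _ b _
      exact Subsingleton.elim _ _
    have h2 : (1 : ℝ) ≤ 2 ^ 0 * (x : ℝ) ^ s *
        max 1 ((x : ℝ) * (Nat.card H : ℝ) / (m : ℝ) ^ (s + 1)) := by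
      rw [pow_zero, one_mul]
      exact one_le_mul_of_one_le_of_one_le (one_le_pow₀ hxR) (le_max_left _ _)
    refine le_trans ?_ h2
    exact_mod_cast h1
  | succ d ih =>
    intro H s y F hF1 hF2
    obtain ⟨ι, hι⟩ : ∃ ι : (Fin d → ZMod m) →+ (Fin (d + 1) → ZMod m),
        ∀ c, ι c = Fin.cons 0 c := by
      refine ⟨{ toFun := fun c => Fin.cons 0 c, map_zero' := ?_, map_add' := ?_ }, fun c => rfl⟩
      · funext i
        refine Fin.cases ?_ (fun i => ?_) i <;> simp
      · intro a b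
        funext i
        refine Fin.cases ?_ (fun i => ?_) i <;> simp
    obtain ⟨f, hf⟩ : ∃ f : H →+ ZMod m, ∀ h : H, f h = h.1 0 :=
      ⟨(Pi.evalAddMonoidHom (fun _ : Fin (d + 1) => ZMod m) 0).comp H.subtype, fun h => rfl⟩
    have hcard : Nat.card H = Nat.card f.ker * Nat.card f.range := by
      rw [← AddSubgroup.index_ker f, AddSubgroup.card_mul_index]
    have htail : ∀ h : Fin (d + 1) → ZMod m, h 0 = 0 → ι (Fin.tail h) = h := by
      intro h h0
      rw [hι]
      conv_rhs => rw [← Fin.cons_self_tail h, h0]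
    have hker : Nat.card f.ker = Nat.card (H.comap ι) := by
      refine Nat.card_congr
        ⟨fun h => ⟨Fin.tail h.1.1, ?_⟩, fun c => ⟨⟨ι c.1, c.2⟩, ?_⟩, ?_, ?_⟩
      · have h0 : h.1.1 0 = 0 := by
          rw [← hf]
          exact h.2
        rw [AddSubgroup.mem_comap, htail _ h0]
        exact h.1.2
      · rw [AddMonoidHom.mem_ker, hf]
        simp [hι]
      · intro h
        have h0 : h.1.1 0 = 0 := by
          rw [← hf]
          exact h.2
        refine Subtype.ext (Subtype.ext ?_)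
        exact htail _ h0
      · intro c
        refine Subtype.ext ?_
        simp only [hι]
        exact Fin.tail_cons _ _
    rw [hker] at hcard
    obtain ⟨H₀, hH₀⟩ : ∃ H₀, H₀ = H.comap ι := ⟨_, rfl⟩
    rw [← hH₀] at hcard
    obtain ⟨h₀, hh₀⟩ : ∃ h₀, h₀ = Nat.card H₀ := ⟨_, rfl⟩
    obtain ⟨h₁, hh₁⟩ : ∃ h₁, h₁ = Nat.card f.range := ⟨_, rfl⟩
    rw [← hh₀, ← hh₁] at hcard
    rw [hcard]
    have h1pos : 0 < h₁ := by rw [hh₁]; exact Nat.card_pos
    have h1m : h₁ ≤ m := by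
      have := AddSubgroup.card_addSubgroup_dvd_card f.range
      rw [Nat.card_zmod, ← hh₁] at this
      exact Nat.le_of_dvd (Nat.pos_of_ne_zero (NeZero.ne m)) this
    have h1R : (1 : ℝ) ≤ h₁ := by exact_mod_cast h1pos
    have h1mR : (h₁ : ℝ) ≤ m := by exact_mod_cast h1m
    have h0R : (0 : ℝ) ≤ h₀ := by positivity
    -- the first coordinates
    obtain ⟨U, hU⟩ : ∃ U, U = F.image fun a => a 0 := ⟨_, rfl⟩
    have hUc : (U.card : ℝ) ≤ max 1 (2 * (x : ℝ) * (h₁ : ℝ) / (m : ℝ)) := by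
      rw [hh₁]
      refine interval_coset hx1 f.range (y 0) U ?_ ?_
      · intro u hu
        rw [hU] at hu
        obtain ⟨a, ha, rfl⟩ := mem_image.1 hu
        exact hF1 a ha 0
      · intro u hu
        rw [hU] at hu
        obtain ⟨a, ha, rfl⟩ := mem_image.1 hu
        exact ⟨⟨a - y, hF2 a ha⟩, hf _⟩
    -- the fibres
    have hfib : ∀ u ∈ U, ∃ (y' : Fin d → ZMod m) (F' : Finset (Fin d → ZMod m)),
        F'.card = (F.filter fun a => a 0 = u).card ∧
        (∀ a ∈ F', ∀ i, a i ∈ (range x).image (Nat.cast : ℕ → ZMod m)) ∧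
        (∀ a ∈ F', a - y' ∈ H₀) := by
      intro u hu
      rw [hU] at hu
      obtain ⟨a₀, ha₀, rfl⟩ := mem_image.1 hu
      have hinj : Set.InjOn (fun a : Fin (d + 1) → ZMod m => Fin.tail a)
          (F.filter fun a => a 0 = a₀ 0 : Finset _) := by
        intro a ha b hb hab
        have ha' := (mem_filter.1 (mem_coe.1 ha)).2
        have hb' := (mem_filter.1 (mem_coe.1 hb)).2
        rw [← Fin.cons_self_tail a, ← Fin.cons_self_tail b, ha', hb']
        exact congrArg _ hab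
      refine ⟨Fin.tail a₀, (F.filter fun a => a 0 = a₀ 0).image Fin.tail,
        Finset.card_image_of_injOn hinj, ?_, ?_⟩
      · intro c hc i
        obtain ⟨a, ha, rfl⟩ := mem_image.1 hc
        exact hF1 a (mem_filter.1 ha).1 i.succ
      · intro c hc
        obtain ⟨a, ha, rfl⟩ := mem_image.1 hc
        obtain ⟨ha1, ha2⟩ := mem_filter.1 ha
        have h3 : a - a₀ ∈ H := by
          have := sub_mem (hF2 a ha1) (hF2 a₀ ha₀)
          rwa [sub_sub_sub_cancel_right] at this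
        have h4 : Fin.tail a - Fin.tail a₀ = Fin.tail (a - a₀) := rfl
        rw [hH₀, AddSubgroup.mem_comap, h4, htail _ (by rw [Pi.sub_apply, ha2, sub_self])]
        exact h3
    have hsum : ∀ q : ℝ, (∀ u ∈ U, ((F.filter fun a => a 0 = u).card : ℝ) ≤ q) →
        (F.card : ℝ) ≤ U.card * q := by
      intro q hq
      have h3 : F.card = ∑ u ∈ U, (F.filter fun a => a 0 = u).card := by
        rw [hU]
        exact Finset.card_eq_sum_card_image _ _
      rw [h3, Nat.cast_sum, ← nsmul_eq_mul]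
      exact Finset.sum_le_card_nsmul _ _ _ hq
    have hfibs : ∀ s' : ℕ, ∀ u ∈ U, ((F.filter fun a => a 0 = u).card : ℝ) ≤
        2 ^ d * (x : ℝ) ^ s' * max 1 ((x : ℝ) * (h₀ : ℝ) / (m : ℝ) ^ (s' + 1)) := by
      intro s' u hu
      obtain ⟨y', F', g1, g2, g3⟩ := hfib u hu
      rw [← g1, hh₀]
      exact ih H₀ s' y' F' g2 g3
    have hfib0 : ∀ u ∈ U, ((F.filter fun a => a 0 = u).card : ℝ) ≤ h₀ := by
      intro u hu
      obtain ⟨y', F', g1, g2, g3⟩ := hfib u hu
      rw [← g1, hh₀]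
      exact_mod_cast coset_card H₀ y' F' g3
    have hpow1 : (1 : ℝ) ≤ 2 ^ d := one_le_pow₀ (by norm_num)
    push_cast
    rcases le_or_gt (2 * (x : ℝ) * h₁ / m) 1 with hcase | hcase
    · rw [max_eq_left hcase] at hUc
      have h3 := hsum _ (hfibs s)
      have h4 : max 1 ((x : ℝ) * h₀ / m ^ (s + 1)) ≤ max 1 ((x : ℝ) * (h₀ * h₁) / m ^ (s + 1)) := by
        refine max_le_max le_rfl ?_
        refine div_le_div_of_nonneg_right ?_ (by positivity)
        refine mul_le_mul_of_nonneg_left ?_ (by positivity)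
        nlinarith
      calc (F.card : ℝ) ≤ U.card * (2 ^ d * x ^ s * max 1 ((x : ℝ) * (h₀ : ℝ) / (m : ℝ) ^ (s + 1))) := h3
        _ ≤ 1 * (2 ^ d * x ^ s * max 1 ((x : ℝ) * (h₀ : ℝ) / (m : ℝ) ^ (s + 1))) :=
          mul_le_mul_of_nonneg_right hUc (by positivity)
        _ ≤ 2 * (2 ^ d * x ^ s * max 1 ((x : ℝ) * ((h₀ : ℝ) * (h₁ : ℝ)) / (m : ℝ) ^ (s + 1))) := by
          have h5 : (2 : ℝ) ^ d * x ^ s * max 1 ((x : ℝ) * (h₀ : ℝ) / (m : ℝ) ^ (s + 1)) ≤
            2 ^ d * x ^ s * max 1 ((x : ℝ) * ((h₀ : ℝ) * (h₁ : ℝ)) / (m : ℝ) ^ (s + 1)) :=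
            mul_le_mul_of_nonneg_left h4 (by positivity)
          have h6 : 0 ≤ (2 : ℝ) ^ d * x ^ s * max 1 ((x : ℝ) * ((h₀ : ℝ) * (h₁ : ℝ)) / (m : ℝ) ^ (s + 1)) := by positivity
          linarith
        _ = _ := by ring
    · rw [max_eq_right hcase.le] at hUc
      rcases Nat.eq_zero_or_pos s with hs | hs
      · subst hs
        have h3 := hsum _ hfib0
        calc (F.card : ℝ) ≤ U.card * h₀ := h3
          _ ≤ 2 * x * h₁ / m * h₀ := mul_le_mul_of_nonneg_right hUc h0R
          _ = 2 * (x * (h₀ * h₁) / m) := by ring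
          _ ≤ (2 * 2 ^ d) * max 1 ((x : ℝ) * ((h₀ : ℝ) * (h₁ : ℝ)) / (m : ℝ)) := by
            refine mul_le_mul (by linarith) (le_max_right _ _) (by positivity) (by positivity)
          _ = _ := by
            rw [pow_zero, zero_add, pow_one, pow_succ]
            ring
      · obtain ⟨s', rfl⟩ : ∃ s', s = s' + 1 := ⟨s - 1, by omega⟩
        have h3 := hsum _ (hfibs s')
        have h4 : (h₁ : ℝ) / m * max 1 ((x : ℝ) * (h₀ : ℝ) / (m : ℝ) ^ (s' + 1)) ≤
            max 1 ((x : ℝ) * ((h₀ : ℝ) * (h₁ : ℝ)) / (m : ℝ) ^ (s' + 1 + 1)) := by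
          rw [mul_max_of_nonneg _ _ (by positivity), mul_one]
          refine max_le_max ?_ (le_of_eq ?_)
          · rw [div_le_one hm0]
            exact h1mR
          · rw [pow_succ (m : ℝ) (s' + 1)]
            field_simp
        calc (F.card : ℝ) ≤ U.card * (2 ^ d * x ^ s' * max 1 ((x : ℝ) * (h₀ : ℝ) / (m : ℝ) ^ (s' + 1))) := h3
          _ ≤ 2 * x * h₁ / m * (2 ^ d * x ^ s' * max 1 ((x : ℝ) * (h₀ : ℝ) / (m : ℝ) ^ (s' + 1))) :=
            mul_le_mul_of_nonneg_right hUc (by positivity)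
          _ = 2 ^ (d + 1) * x ^ (s' + 1) * (h₁ / m * max 1 ((x : ℝ) * (h₀ : ℝ) / (m : ℝ) ^ (s' + 1))) := by
            rw [pow_succ, pow_succ]
            ring
          _ ≤ _ := mul_le_mul_of_nonneg_left h4 (by positivity)

/-- counting a covered set, real bounds -/
lemma count_cover_real {G : Type} [AddCommGroup G] [DecidableEq G] {A : Finset G} {T : Finset G}
    {ι : Type} [DecidableEq ι] (B : Finset ι) (f : ι → G) (H : AddSubgroup G) (q : ℝ)
    (hq : ∀ y : G, ∀ F : Finset G, F ⊆ A → (∀ a ∈ F, a - y ∈ H) → (F.card : ℝ) ≤ q)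
    (hcov : ∀ a ∈ A, ∃ t ∈ T, ∃ b ∈ B, a - (t + f b) ∈ H) :
    (A.card : ℝ) ≤ T.card * B.card * q := by
  classical
  have h2 : A ⊆ (T ×ˢ B).biUnion fun t => A.filter fun a => a - (t.1 + f t.2) ∈ H := by
    intro a ha
    obtain ⟨t, ht, b, hb, hat⟩ := hcov a ha
    exact mem_biUnion.2 ⟨(t, b), mem_product.2 ⟨ht, hb⟩, mem_filter.2 ⟨ha, hat⟩⟩
  have h3 : (A.card : ℝ) ≤
      ((∑ t ∈ T ×ˢ B, (A.filter fun a => a - (t.1 + f t.2) ∈ H).card : ℕ) : ℝ) := by
    exact_mod_cast (card_le_card h2).trans card_biUnion_le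
  rw [Nat.cast_sum] at h3
  refine h3.trans ?_
  have h4 : ((T.card : ℝ) * B.card) = (((T ×ˢ B).card : ℕ) : ℝ) := by
    rw [card_product, Nat.cast_mul]
  rw [h4, ← nsmul_eq_mul]
  exact Finset.sum_le_card_nsmul _ _ _ fun t _ => hq _ _ (filter_subset _ _)
    fun a ha => (mem_filter.1 ha).2

/-- **Boxes in `(ℤ/m) ^ d` and coset progressions of dimension `r`.** -/
theorem low_gen {m : ℕ} (hm : 2 ≤ m) (d r : ℕ) :
    ∃ A : Finset (Fin d → ZMod m), A.Nonempty ∧ (A + A).card ≤ 2 ^ d * A.card ∧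
      ∀ (H : AddSubgroup (Fin d → ZMod m)) (ψ : (Fin r → ℤ) →+ (Fin d → ZMod m))
        (B : Finset (Fin r → ℤ)) (T : Finset (Fin d → ZMod m)),
        B.card * Nat.card H ≤ A.card → (∀ a ∈ A, ∃ t ∈ T, ∃ b ∈ B, a - (t + ψ b) ∈ H) →
          (m : ℝ) ^ ((((d - r + 1) ^ 2 / 4 : ℕ) : ℝ) / ((d - r + 1 : ℕ) : ℝ)) ≤
            2 ^ (d + ((d - r) / 2 + 1)) * T.card := by
  classical
  have : NeZero m := ⟨by omega⟩
  obtain ⟨n, hn⟩ : ∃ n, n = d - r := ⟨_, rfl⟩
  rw [← hn]
  rcases Nat.eq_zero_or_pos n with hn0 | hn0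
  · -- the trivial case
    refine ⟨{0}, singleton_nonempty _, ?_, fun H ψ B T hH hcov => ?_⟩
    · rw [Finset.singleton_add_singleton, card_singleton, card_singleton, mul_one]
      exact Nat.one_le_two_pow
    · obtain ⟨t, ht, -⟩ := hcov 0 (mem_singleton_self _)
      have h1 : (1 : ℝ) ≤ T.card := by exact_mod_cast card_pos.2 ⟨t, ht⟩
      have h2 : (1 : ℝ) ≤ 2 ^ (d + (n / 2 + 1)) := one_le_pow₀ (by norm_num)
      rw [hn0]
      norm_num
      rw [hn0] at h2
      norm_num at h2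
      nlinarith
  obtain ⟨q, hq⟩ : ∃ q, q = (n + 1) / 2 := ⟨_, rfl⟩
  obtain ⟨x, hx1, hxm, hx2, hx3⟩ := side (p := m) (d := n + 1) (r := q) hm (by omega) (by omega)
    (by omega)
  obtain ⟨I, hI⟩ : ∃ I : Finset (ZMod m), I = (range x).image (Nat.cast : ℕ → ZMod m) := ⟨_, rfl⟩
  obtain ⟨hIc, A, hAne, hAA, hAc, hmemA⟩ := box hx1 hxm d I hI
  refine ⟨A, hAne, hAA, ?_⟩
  intro H ψ B T hH hcov
  have hm0 : (0 : ℝ) < m := by exact_mod_cast (show 0 < m by omega)
  have hx0 : (0 : ℝ) < x := by exact_mod_cast hx1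
  have hT0 : (0 : ℝ) ≤ T.card := by positivity
  have htor : ∀ y : Fin d → ZMod m, m • y = 0 := by
    intro y
    funext i
    rw [Pi.smul_apply, nsmul_eq_mul, ZMod.natCast_self, zero_mul, Pi.zero_apply]
  obtain ⟨H', g1, g2, g3, g4⟩ := span_image (by omega) htor H inferInstance ψ
  obtain ⟨h, hh⟩ : ∃ h, h = Nat.card H := ⟨_, rfl⟩
  have hh0 : (0 : ℝ) < h := by
    have : 0 < h := by rw [hh]; exact Nat.card_pos
    exact_mod_cast this
  have g4' : (Nat.card H' : ℝ) ≤ h * (m : ℝ) ^ r := by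
    rw [hh]
    exact_mod_cast g4
  have hHR : (B.card : ℝ) * h ≤ A.card := by
    rw [hh]
    exact_mod_cast hH
  have hmem : ∀ F : Finset (Fin d → ZMod m), F ⊆ A → ∀ a ∈ F, ∀ i,
      a i ∈ (range x).image (Nat.cast : ℕ → ZMod m) := by
    intro F hF a ha i
    rw [← hI]
    exact hmemA a (hF ha) i
  obtain ⟨e, he⟩ : ∃ e, e = n / 2 + 1 := ⟨_, rfl⟩
  rw [← he]
  have h3 : q * e = (n + 1) ^ 2 / 4 := by rw [hq, he]; exact half_mul n
  have hAR : (A.card : ℝ) = (x : ℝ) ^ d := by rw [hAc]; push_cast; rfl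
  have hx2R : (x : ℝ) ^ (n + 1) ≤ (m : ℝ) ^ q := by exact_mod_cast hx2.le
  have hx3R : (m : ℝ) ^ q ≤ (2 * (x : ℝ)) ^ (n + 1) := by exact_mod_cast hx3
  have h4 : (m : ℝ) ^ (q * e) ≤ (2 ^ (d + e) * (T.card : ℝ)) ^ (n + 1) := by
    rcases le_or_gt ((x : ℝ) * h) ((m : ℝ) ^ q) with hcase | hcase
    · have c1 : (A.card : ℝ) ≤ T.card * 1 * (2 ^ d * (x : ℝ) ^ (q - 1 + r)) := by
        have := count_cover_real (A := A) (T := T) ({0} : Finset (Fin r → ℤ)) (fun b => ψ b) H'
          (2 ^ d * (x : ℝ) ^ (q - 1 + r)) (fun y F hF hy => by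
            have h5 := gen_box hx1 d H' (q - 1 + r) y F (hmem F hF) hy
            have h6 : max 1 ((x : ℝ) * (Nat.card H' : ℝ) / (m : ℝ) ^ (q - 1 + r + 1)) = 1 := by
              refine max_eq_left ?_
              rw [div_le_one (by positivity)]
              calc (x : ℝ) * (Nat.card H' : ℝ) ≤ x * (h * (m : ℝ) ^ r) :=
                    mul_le_mul_of_nonneg_left g4' hx0.le
                _ = (x * h) * (m : ℝ) ^ r := by ring
                _ ≤ (m : ℝ) ^ q * (m : ℝ) ^ r := mul_le_mul_of_nonneg_right hcase (by positivity)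
                _ = (m : ℝ) ^ (q - 1 + r + 1) := by
                  rw [← pow_add]
                  congr 1
                  omega
            rw [h6, mul_one] at h5
            exact h5) (fun a ha => by
              obtain ⟨t, ht, b, hb, hat⟩ := hcov a ha
              refine ⟨t, ht, 0, mem_singleton_self _, ?_⟩
              have h1 : a - (t + ψ 0) = (a - (t + ψ b)) + ψ b := by
                rw [map_zero]
                abel
              rw [h1]
              exact add_mem (g1 hat) (g2 b))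
        rwa [card_singleton, Nat.cast_one] at this
      have h5 : (x : ℝ) ^ e ≤ 2 ^ d * T.card := by
        have h6 : (x : ℝ) ^ e * x ^ (q - 1 + r) ≤ (2 ^ d * T.card) * x ^ (q - 1 + r) := by
          calc (x : ℝ) ^ e * x ^ (q - 1 + r) = x ^ d := by rw [← pow_add]; congr 1; omega
            _ = A.card := hAR.symm
            _ ≤ T.card * 1 * (2 ^ d * (x : ℝ) ^ (q - 1 + r)) := c1
            _ = (2 ^ d * T.card) * x ^ (q - 1 + r) := by ring
        exact le_of_mul_le_mul_right h6 (by positivity)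
      calc (m : ℝ) ^ (q * e) = ((m : ℝ) ^ q) ^ e := pow_mul _ _ _
        _ ≤ ((2 * (x : ℝ)) ^ (n + 1)) ^ e := pow_le_pow_left₀ (by positivity) hx3R e
        _ = (2 ^ e * (x : ℝ) ^ e) ^ (n + 1) := by
          rw [← mul_pow, ← pow_mul, ← pow_mul, mul_comm (n + 1) e]
        _ ≤ (2 ^ e * (2 ^ d * T.card)) ^ (n + 1) :=
          pow_le_pow_left₀ (by positivity) (mul_le_mul_of_nonneg_left h5 (by positivity)) _
        _ = (2 ^ (d + e) * (T.card : ℝ)) ^ (n + 1) := by
          rw [pow_add]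
          ring
    · have c2 : (A.card : ℝ) ≤ T.card * B.card *
          (2 ^ d * (x : ℝ) ^ (q - 1) * (x * h / (m : ℝ) ^ q)) := by
        refine count_cover_real (A := A) (T := T) B (fun b => ψ b) H _ (fun y F hF hy => ?_) hcov
        have h5 := gen_box hx1 d H (q - 1) y F (hmem F hF) hy
        have h6 : max 1 ((x : ℝ) * (Nat.card H : ℝ) / (m : ℝ) ^ (q - 1 + 1)) =
            x * h / (m : ℝ) ^ q := by
          have h7 : q - 1 + 1 = q := by omega
          rw [h7, ← hh]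
          refine max_eq_right ?_
          rw [le_div_iff₀ (by positivity), one_mul]
          exact hcase.le
        rw [h6] at h5
        exact h5
      have hAp : (0 : ℝ) < A.card := by exact_mod_cast card_pos.2 hAne
      have h5 : (m : ℝ) ^ q ≤ (2 ^ d * T.card) * (x : ℝ) ^ q := by
        have hxq : (x : ℝ) ^ (q - 1) * x = x ^ q := by
          rw [← pow_succ]
          congr 1
          omega
        have h6 : (m : ℝ) ^ q * A.card ≤ ((2 ^ d * T.card) * (x : ℝ) ^ q) * A.card := by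
          calc (m : ℝ) ^ q * A.card ≤ (m : ℝ) ^ q * (T.card * B.card *
                (2 ^ d * (x : ℝ) ^ (q - 1) * (x * h / (m : ℝ) ^ q))) :=
                mul_le_mul_of_nonneg_left c2 (by positivity)
            _ = (2 ^ d * T.card) * ((x : ℝ) ^ (q - 1) * x) * (B.card * h) := by
              field_simp
            _ ≤ (2 ^ d * T.card) * ((x : ℝ) ^ (q - 1) * x) * A.card :=
              mul_le_mul_of_nonneg_left hHR (by positivity)
            _ = _ := by rw [hxq]
        exact le_of_mul_le_mul_right h6 hAp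
      have h9 : (m : ℝ) ^ (q * e) * (m : ℝ) ^ (q * q) ≤
          (2 ^ (d + e) * (T.card : ℝ)) ^ (n + 1) * (m : ℝ) ^ (q * q) := by
        calc (m : ℝ) ^ (q * e) * (m : ℝ) ^ (q * q) = ((m : ℝ) ^ q) ^ (n + 1) := by
              rw [← pow_add, ← pow_mul, ← mul_add]
              congr 2
              omega
          _ ≤ ((2 ^ d * T.card) * (x : ℝ) ^ q) ^ (n + 1) :=
            pow_le_pow_left₀ (by positivity) h5 _
          _ = (2 ^ d * T.card) ^ (n + 1) * ((x : ℝ) ^ (n + 1)) ^ q := by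
            rw [mul_pow, ← pow_mul, ← pow_mul, mul_comm q (n + 1)]
          _ ≤ (2 ^ (d + e) * (T.card : ℝ)) ^ (n + 1) * ((m : ℝ) ^ q) ^ q := by
            refine mul_le_mul (pow_le_pow_left₀ (by positivity) ?_ _)
              (pow_le_pow_left₀ (by positivity) hx2R _) (by positivity) (by positivity)
            refine mul_le_mul_of_nonneg_right ?_ hT0
            exact pow_le_pow_right₀ (by norm_num) (by omega)
          _ = _ := by rw [← pow_mul]
      exact le_of_mul_le_mul_right h9 (by positivity)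
  rw [h3] at h4
  have hd0 : (0 : ℝ) < ((n + 1 : ℕ) : ℝ) := by positivity
  have h5 : (m : ℝ) ^ (((n + 1) ^ 2 / 4 : ℕ) : ℝ) ≤
      ((2 : ℝ) ^ (d + e) * T.card) ^ (((n + 1 : ℕ) : ℝ)) := by
    rw [Real.rpow_natCast, Real.rpow_natCast]
    exact h4
  have h6 := Real.rpow_le_rpow (by positivity) h5 (z := 1 / (((n + 1 : ℕ) : ℝ))) (by positivity)
  rw [← Real.rpow_mul (by positivity), ← Real.rpow_mul (by positivity),
    mul_one_div_cancel hd0.ne', Real.rpow_one, mul_one_div] at h6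
  exact h6

/-- **The lower bound for every modulus, every doubling constant `K ≥ 2` and every dimension.** -/
theorem low_K_gen {m : ℕ} {K : ℝ} (hm : 2 ≤ m) (hK : 2 ≤ K) {d : ℕ}
    (hd : d = ⌊Real.logb 2 K⌋₊) (r : ℕ) :
    ∃ A : Finset (Fin d → ZMod m), A.Nonempty ∧ ((A + A).card : ℝ) ≤ K * A.card ∧
      ∀ (H : AddSubgroup (Fin d → ZMod m)) (ψ : (Fin r → ℤ) →+ (Fin d → ZMod m))
        (B : Finset (Fin r → ℤ)) (T : Finset (Fin d → ZMod m)),
        B.card * Nat.card H ≤ A.card → (∀ a ∈ A, ∃ t ∈ T, ∃ b ∈ B, a - (t + ψ b) ∈ H) →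
          1 / (2 * K ^ 2) * (m : ℝ) ^ ((((d - r + 1) ^ 2 / 4 : ℕ) : ℝ) / ((d - r + 1 : ℕ) : ℝ)) ≤
            T.card := by
  classical
  have hK0 : 0 < K := by linarith
  obtain ⟨A, hAne, hAA, hA⟩ := low_gen hm d r
  have hdK : (2 : ℝ) ^ d ≤ K := by
    have h3 : (d : ℝ) ≤ Real.logb 2 K := by
      rw [hd]
      refine Nat.floor_le ?_
      exact Real.logb_nonneg (by norm_num) (by linarith)
    rw [Real.le_logb_iff_rpow_le (by norm_num) hK0, Real.rpow_natCast] at h3
    exact h3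
  refine ⟨A, hAne, ?_, fun H ψ B T hH hcov => ?_⟩
  · calc ((A + A).card : ℝ) ≤ ((2 ^ d * A.card : ℕ) : ℝ) := by exact_mod_cast hAA
      _ = (2 : ℝ) ^ d * A.card := by push_cast; ring
      _ ≤ K * A.card := mul_le_mul_of_nonneg_right hdK (by positivity)
  · have h1 := hA H ψ B T hH hcov
    have h2 : (2 : ℝ) ^ (d + ((d - r) / 2 + 1)) ≤ 2 * K ^ 2 := by
      have h3 : (2 : ℝ) ^ ((d - r) / 2) ≤ 2 ^ d := pow_le_pow_right₀ (by norm_num) (by omega)
      have h4 : (2 : ℝ) ^ (d + ((d - r) / 2 + 1)) = 2 ^ d * (2 ^ ((d - r) / 2)) * 2 := by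
        rw [pow_add, pow_succ]
        ring
      rw [h4]
      have h5 : (2 : ℝ) ^ d * (2 ^ ((d - r) / 2)) ≤ K * K :=
        mul_le_mul hdK (h3.trans hdK) (by positivity) hK0.le
      nlinarith
    have h6 : (m : ℝ) ^ ((((d - r + 1) ^ 2 / 4 : ℕ) : ℝ) / ((d - r + 1 : ℕ) : ℝ)) ≤
        2 * K ^ 2 * T.card := h1.trans (mul_le_mul_of_nonneg_right h2 (by positivity))
    rw [one_div, inv_mul_le_iff₀ (by positivity)]
    exact h6

end Pool.Agent.Run7.h127.SP
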