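import Pool.Agent.Run7.h127.SP.Trade

/-!
# Groups of exponent `m`, `m` with many divisors: covering by cosets of a subgroup
-/

set_option autoImplicit false
set_option linter.unusedSectionVars false

namespace Pool.Agent.Run7.h127.SP

open Finset
open scoped Pointwise

universe u

/-- the choice of the completed directions -/
lemma zero_choice {d D m : ℕ} (hm : 2 ≤ m) (hdD : d ≤ D) (x : Fin d → ℕ) (hx1 : ∀ i, 1 ≤ x i)
    (hxm : ∀ i, x i ≤ m) :
    ∃ S : Finset (Fin d), m ^ S.card ≤ ∏ i, x i ∧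
      ((((∏ i ∈ Sᶜ, x i : ℕ) : ℝ) ≤
          (m : ℝ) ^ ((((D + 1) ^ 2 / 4 : ℕ) : ℝ) / ((D + 1 : ℕ) : ℝ))) ∨
        (∏ i, x i < m ^ (S.card + 1) ∧ ∃ i₀, i₀ ∉ S ∧
          (m : ℝ) ^ (S.card + 1) / ((∏ i ∈ insert i₀ S, x i : ℕ) : ℝ) ≤
            (m : ℝ) ^ ((((D + 1) ^ 2 / 4 : ℕ) : ℝ) / ((D + 1 : ℕ) : ℝ)))) := by
  classical
  obtain ⟨S, hSc, htop, hmono⟩ := exists_chain x
  obtain ⟨X, hX⟩ : ∃ X, X = ∏ i, x i := ⟨_, rfl⟩
  have hX1 : 1 ≤ X := by
    rw [hX]
    exact Nat.succ_le_of_lt (Finset.prod_pos fun i _ => Nat.lt_of_lt_of_le Nat.zero_lt_one (hx1 i))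
  have hXm : X ≤ m ^ d := by
    rw [hX]
    calc ∏ i, x i ≤ ∏ _i : Fin d, m := Finset.prod_le_prod' fun i _ => hxm i
      _ = m ^ d := by rw [Finset.prod_const, Finset.card_univ, Fintype.card_fin]
  obtain ⟨s, hs⟩ : ∃ s, s = Nat.log m X := ⟨_, rfl⟩
  have hlow : m ^ s ≤ X := by rw [hs]; exact Nat.pow_log_le_self m (by omega)
  have hup : X < m ^ (s + 1) := by rw [hs]; exact Nat.lt_pow_succ_log_self (by omega) X
  have hsd : s ≤ d := (Nat.pow_le_pow_iff_right (by omega)).1 (hlow.trans hXm)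
  have hmR : (1 : ℝ) ≤ m := by
    have : 1 ≤ m := by omega
    exact_mod_cast this
  refine ⟨S s, by rw [hSc s hsd, ← hX]; exact hlow, ?_⟩
  rcases Nat.eq_or_lt_of_le hsd with hsd' | hsd'
  · left
    have h1 : (S s)ᶜ = ∅ := by
      rw [← Finset.card_eq_zero, card_compl, Fintype.card_fin, hSc _ hsd]
      omega
    rw [h1, Finset.prod_empty, Nat.cast_one]
    exact Real.one_le_rpow hmR (by positivity)
  · have h1 : (S (s + 1) \ S s).card = 1 := by
      rw [card_sdiff_of_subset (hmono s (s + 1) (by omega)), hSc _ (by omega), hSc _ hsd]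
      omega
    obtain ⟨i₀, hi₀⟩ := card_eq_one.1 h1
    have hi₀' : i₀ ∈ S (s + 1) ∧ i₀ ∉ S s := by
      have : i₀ ∈ S (s + 1) \ S s := by rw [hi₀]; exact mem_singleton_self _
      exact mem_sdiff.1 this
    have hins : insert i₀ (S s) = S (s + 1) := by
      refine Finset.eq_of_subset_of_card_le ?_ ?_
      · intro j hj
        rcases mem_insert.1 hj with rfl | hj
        · exact hi₀'.1
        · exact hmono s (s + 1) (by omega) hj
      · rw [card_insert_of_notMem hi₀'.2, hSc _ (by omega), hSc _ hsd]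
    obtain ⟨b, hb⟩ : ∃ b, b = x i₀ := ⟨_, rfl⟩
    have hb1 : 1 ≤ b := by rw [hb]; exact hx1 i₀
    have hb0 : (0 : ℝ) < b := by exact_mod_cast hb1
    obtain ⟨F, hF⟩ : ∃ F, F = ∏ i ∈ (S s)ᶜ, x i := ⟨_, rfl⟩
    obtain ⟨P, hP⟩ : ∃ P, P = ∏ i ∈ S (s + 1), x i := ⟨_, rfl⟩
    have hcardF : ((S s)ᶜ).card = d - s := by
      rw [card_compl, Fintype.card_fin, hSc _ hsd]
    have hFb : F ≤ b ^ (d - s) := by
      rw [hF, ← hcardF, ← Finset.prod_const]
      refine Finset.prod_le_prod' fun j hj => ?_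
      rw [hb]
      by_cases hj' : j ∈ S (s + 1)
      · have : j = i₀ := by
          rw [← hins] at hj'
          rcases mem_insert.1 hj' with h | h
          · exact h
          · exact absurd h (mem_compl.1 hj)
        rw [this]
      · exact htop (s + 1) i₀ hi₀'.1 j hj'
    have hPb : b ^ (s + 1) ≤ P := by
      have h2 : b ^ (s + 1) = ∏ _i ∈ S (s + 1), b := by
        rw [Finset.prod_const, hSc _ (by omega)]
      rw [h2, hP]
      refine Finset.prod_le_prod' fun i hi => ?_
      rw [hb]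
      rw [← hins] at hi
      rcases mem_insert.1 hi with h | h
      · rw [h]
      · exact htop s i h i₀ hi₀'.2
    have hPpos : (0 : ℝ) < P := by
      have : 0 < P := lt_of_lt_of_le (by positivity) hPb
      exact_mod_cast this
    obtain ⟨G, hG⟩ : ∃ G : ℝ, G = (m : ℝ) ^ (s + 1) / P := ⟨_, rfl⟩
    have hG0 : 0 ≤ G := by rw [hG]; positivity
    have hFbR : (F : ℝ) ≤ (b : ℝ) ^ (d - s) := by exact_mod_cast hFb
    have hGb : G ≤ ((m : ℝ) / b) ^ (s + 1) := by
      rw [hG, div_pow]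
      refine div_le_div_of_nonneg_left (by positivity) (by positivity) ?_
      exact_mod_cast hPb
    have hkey : (F : ℝ) ^ (s + 1) * G ^ (d - s) ≤ (m : ℝ) ^ ((s + 1) * (d - s)) := by
      calc (F : ℝ) ^ (s + 1) * G ^ (d - s)
          ≤ ((b : ℝ) ^ (d - s)) ^ (s + 1) * (((m : ℝ) / b) ^ (s + 1)) ^ (d - s) :=
            mul_le_mul (pow_le_pow_left₀ (by positivity) hFbR _)
              (pow_le_pow_left₀ hG0 hGb _) (by positivity) (by positivity)
        _ = (m : ℝ) ^ ((s + 1) * (d - s)) := by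
          rw [← pow_mul, ← pow_mul, mul_comm (d - s) (s + 1), ← mul_pow,
            mul_div_cancel₀ _ hb0.ne']
    rcases le_total (F : ℝ) G with hFG | hFG
    · left
      rw [← hF]
      exact trade_exp (by omega) hsd' hdD (by positivity)
        (weigh (w := d + 1) (by positivity) hFG hkey rfl (by omega))
    · right
      refine ⟨by rw [hSc s hsd, ← hX]; exact hup, i₀, hi₀'.2, ?_⟩
      rw [hins, ← hP, hSc s hsd, ← hG]
      rw [mul_comm] at hkey
      exact trade_exp (by omega) hsd' hdD hG0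
        (weigh (w := d + 1) hG0 hFG hkey rfl (by omega))

variable {Γ : Type u} [AddCommGroup Γ] [DecidableEq Γ]

/-- adjoining one element -/
lemma adjoin_one {g : ℕ} (hg : 0 < g) (w : Γ) (hw : g • w = 0) (H : AddSubgroup Γ)
    (hfin : Finite H) :
    ∃ H' : AddSubgroup Γ, H ≤ H' ∧ w ∈ H' ∧ Finite H' ∧ Nat.card H' ≤ Nat.card H * g := by
  classical
  obtain ⟨Z, hZ⟩ : ∃ Z, Z = AddSubgroup.zmultiples w := ⟨_, rfl⟩
  have hord : addOrderOf w ≤ g := addOrderOf_le_of_nsmul_eq_zero hg hw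
  have hord0 : 0 < addOrderOf w := (isOfFinAddOrder_iff_nsmul_eq_zero.2 ⟨g, hg, hw⟩).addOrderOf_pos
  have hZc : Nat.card Z = addOrderOf w := by rw [hZ]; exact Nat.card_zmultiples _
  have hZf : Finite Z := Nat.finite_of_card_ne_zero (by rw [hZc]; exact hord0.ne')
  obtain ⟨f, hf⟩ : ∃ f : H × Z → (H ⊔ Z : AddSubgroup Γ),
      f = fun p => ⟨p.1.1 + p.2.1, add_mem (AddSubgroup.mem_sup_left p.1.2)
        (AddSubgroup.mem_sup_right p.2.2)⟩ := ⟨_, rfl⟩
  have hsurj : Function.Surjective f := by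
    rintro ⟨x, hx⟩
    obtain ⟨y, hy, z, hz, hyz⟩ := AddSubgroup.mem_sup.1 hx
    refine ⟨(⟨y, hy⟩, ⟨z, hz⟩), ?_⟩
    rw [hf]
    exact Subtype.ext hyz
  have hfin' : Finite (H ⊔ Z : AddSubgroup Γ) := Finite.of_surjective f hsurj
  refine ⟨H ⊔ Z, le_sup_left, ?_, hfin', ?_⟩
  · refine AddSubgroup.mem_sup_right ?_
    rw [hZ]
    exact AddSubgroup.mem_zmultiples _
  · calc Nat.card (H ⊔ Z : AddSubgroup Γ) ≤ Nat.card (H × Z) :=
          Nat.card_le_card_of_surjective f hsurj
      _ = Nat.card H * Nat.card Z := Nat.card_prod _ _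
      _ ≤ Nat.card H * g := Nat.mul_le_mul_left _ (hZc ▸ hord)

/-- **From a proper coset progression to a subgroup, exponents `m` with many divisors.** -/
theorem to_subgroup_div {A : Finset Γ} {m ρ : ℕ} (hm : 2 ≤ m) (htor : ∀ x : Γ, m • x = 0)
    (hρ : 1 ≤ ρ) (hdiv : ∀ y, 1 ≤ y → y ≤ m → ∃ g, g ∣ m ∧ g ≤ y ∧ y ≤ ρ * g)
    {d D : ℕ} (hdD : d ≤ D) {v : Fin d → Γ} {L : Fin d → ℕ} {H : AddSubgroup Γ}
    {T : Finset Γ} (hfin : Finite H)
    (hprop : ∀ c c' : Fin d → ℤ, (∀ i, |c i| ≤ L i) → (∀ i, |c' i| ≤ L i) →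
        ∑ i, c i • v i - ∑ i, c' i • v i ∈ H → c = c')
    (hsize : (∏ i, (2 * L i + 1)) * Nat.card H ≤ A.card)
    (hcov : ∀ a ∈ A, ∃ t ∈ T, ∃ c : Fin d → ℤ, (∀ i, |c i| ≤ L i) ∧
        ∃ h ∈ H, a = t + ∑ i, c i • v i + h) :
    ∃ (H' : AddSubgroup Γ) (T' : Finset Γ), Finite H' ∧ Nat.card H' ≤ A.card ∧
      (T'.card : ℝ) ≤ 2 * ρ *
        (m : ℝ) ^ ((((D + 1) ^ 2 / 4 : ℕ) : ℝ) / ((D + 1 : ℕ) : ℝ)) * T.card ∧
      ∀ a ∈ A, ∃ t ∈ T', a - t ∈ H' := by
  classical
  have hρR : (1 : ℝ) ≤ ρ := by exact_mod_cast hρ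
  have hxm : ∀ i, 2 * L i + 1 ≤ m := by
    intro i
    by_contra hcon
    rw [not_le] at hcon
    have h1 := hprop (Pi.single i (L i : ℤ)) (Pi.single i ((L i : ℤ) - m)) ?_ ?_ ?_
    · have h2 := congrFun h1 i
      rw [Pi.single_eq_same, Pi.single_eq_same] at h2
      omega
    · intro j
      rcases eq_or_ne j i with rfl | hj
      · rw [Pi.single_eq_same, abs_of_nonneg (by positivity)]
      · rw [Pi.single_eq_of_ne hj, abs_zero]
        positivity
    · intro j
      rcases eq_or_ne j i with rfl | hj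
      · rw [Pi.single_eq_same, abs_le]
        constructor <;> omega
      · rw [Pi.single_eq_of_ne hj, abs_zero]
        positivity
    · have h3 : ∀ z : ℤ, ∑ j, (Pi.single i z : Fin d → ℤ) j • v j = z • v i := by
        intro z
        rw [Finset.sum_eq_single i]
        · rw [Pi.single_eq_same]
        · intro j _ hj
          rw [Pi.single_eq_of_ne hj, zero_smul]
        · intro h
          exact absurd (mem_univ i) h
      rw [h3, h3, ← sub_smul]
      have h4 : ((L i : ℤ) - ((L i : ℤ) - m)) = (m : ℤ) := by ring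
      rw [h4, natCast_zsmul, htor]
      exact H.zero_mem
  obtain ⟨e, he⟩ : ∃ e : ℝ, e = (m : ℝ) ^ ((((D + 1) ^ 2 / 4 : ℕ) : ℝ) / ((D + 1 : ℕ) : ℝ)) :=
    ⟨_, rfl⟩
  have he0 : 0 ≤ e := by rw [he]; positivity
  rw [← he]
  obtain ⟨S, hS, hP⟩ := zero_choice hm hdD (fun i => 2 * L i + 1) (fun i => by omega) hxm
  rw [← he] at hP
  obtain ⟨H', hHH', hv, hfin', hcard'⟩ := adjoin (by omega) htor v H hfin S
  obtain ⟨φ, hφ⟩ : ∃ φ : (Fin d → ℤ) → Γ, φ = fun c => ∑ i, c i • v i := ⟨_, rfl⟩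
  rcases hP with hP | ⟨hX, i₀, hi₀, hP⟩
  · obtain ⟨B, hB⟩ : ∃ B : Finset (Fin d → ℤ), B = Fintype.piFinset fun i =>
        if i ∈ S then {0} else Finset.Icc (-(L i : ℤ)) (L i) := ⟨_, rfl⟩
    have hBc : B.card = ∏ j ∈ Sᶜ, (2 * L j + 1) := by
      rw [hB, Fintype.card_piFinset, ← Finset.prod_mul_prod_compl S]
      have h1 : ∏ i ∈ S, (if i ∈ S then ({0} : Finset ℤ) else Finset.Icc (-(L i : ℤ)) (L i)).card
          = 1 := by
        refine Finset.prod_eq_one fun i hi => ?_
        rw [if_pos hi, card_singleton]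
      rw [h1, one_mul]
      refine Finset.prod_congr rfl fun i hi => ?_
      rw [if_neg (mem_compl.1 hi), Int.card_Icc]
      omega
    refine ⟨H', T + B.image φ, hfin', ?_, ?_, ?_⟩
    · calc Nat.card H' ≤ Nat.card H * m ^ S.card := hcard'
        _ ≤ Nat.card H * ∏ i, (2 * L i + 1) := Nat.mul_le_mul_left _ hS
        _ = (∏ i, (2 * L i + 1)) * Nat.card H := Nat.mul_comm _ _
        _ ≤ A.card := hsize
    · have h1 : ((T + B.image φ).card : ℝ) ≤ T.card * B.card := by
        exact_mod_cast card_add_le.trans (Nat.mul_le_mul_left _ card_image_le)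
      have h2 : (B.card : ℝ) ≤ e := by rw [hBc]; exact hP
      have hT0 : (0 : ℝ) ≤ T.card := by positivity
      calc ((T + B.image φ).card : ℝ) ≤ T.card * B.card := h1
        _ ≤ T.card * e := mul_le_mul_of_nonneg_left h2 hT0
        _ = 1 * (e * T.card) := by ring
        _ ≤ (2 * ρ) * (e * T.card) :=
          mul_le_mul_of_nonneg_right (by linarith) (mul_nonneg he0 hT0)
        _ = _ := by ring
    · intro a ha
      obtain ⟨t, ht, c, hc, h, hh, rfl⟩ := hcov a ha
      obtain ⟨c', hc'⟩ : ∃ c' : Fin d → ℤ, c' = fun i => if i ∈ S then 0 else c i := ⟨_, rfl⟩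
      refine ⟨t + φ c', add_mem_add ht (mem_image.2 ⟨c', ?_, rfl⟩), ?_⟩
      · rw [hB, Fintype.mem_piFinset]
        intro i
        rw [hc']
        by_cases hi : i ∈ S
        · simp [hi]
        · have := abs_le.1 (hc i)
          simp only [hi, if_false, mem_Icc]
          exact this
      · have h1 : t + ∑ i, c i • v i + h - (t + φ c') = ∑ i, (c i - c' i) • v i + h := by
          rw [hφ]
          simp only [sub_smul, Finset.sum_sub_distrib]
          abel
        rw [h1]
        refine add_mem (sum_mem fun i _ => ?_) (hHH' hh)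
        by_cases hi : i ∈ S
        · exact zsmul_mem (hv i hi) _
        · rw [hc']
          simp only [hi, if_false, sub_self, zero_smul]
          exact zero_mem _
  · -- a further direction is completed in part
    obtain ⟨X, hXd⟩ : ∃ X, X = ∏ i, (2 * L i + 1) := ⟨_, rfl⟩
    rw [← hXd] at hX hS hsize
    have hms : 0 < m ^ S.card := by positivity
    obtain ⟨y, hy⟩ : ∃ y, y = X / m ^ S.card := ⟨_, rfl⟩
    have hy1 : 1 ≤ y := by rw [hy]; exact Nat.div_pos hS hms
    have hym : y ≤ m := by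
      rw [hy]
      refine Nat.div_le_of_le_mul ?_
      rw [← pow_succ]
      exact hX.le
    have hyX : y * m ^ S.card ≤ X := by rw [hy]; exact Nat.div_mul_le_self _ _
    have hXy : X ≤ 2 * y * m ^ S.card := by
      have h1 : X < (y + 1) * m ^ S.card := by
        have h2 := Nat.lt_div_mul_add hms (a := X)
        rw [← hy] at h2
        linarith [add_mul y 1 (m ^ S.card)]
      nlinarith
    obtain ⟨g, hgm, hgy, hyg⟩ := hdiv y hy1 hym
    obtain ⟨k, hk⟩ := hgm
    have hg0 : 0 < g := Nat.pos_of_ne_zero (by rintro rfl; rw [zero_mul] at hk; omega)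
    have hk0 : 0 < k := Nat.pos_of_ne_zero (by rintro rfl; rw [mul_zero] at hk; omega)
    obtain ⟨H₂, q1, q2, q3, q4⟩ := adjoin_one hg0 (k • v i₀)
      (by rw [← mul_smul, ← hk]; exact htor _) H' hfin'
    obtain ⟨B, hB⟩ : ∃ B : Finset (Fin d → ℤ), B = Fintype.piFinset fun i =>
        if i ∈ S then {0} else if i = i₀ then (range k).image (fun a : ℕ => (a : ℤ))
          else Finset.Icc (-(L i : ℤ)) (L i) := ⟨_, rfl⟩
    obtain ⟨F, hF⟩ : ∃ F, F = ∏ j ∈ (insert i₀ S)ᶜ, (2 * L j + 1) := ⟨_, rfl⟩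
    obtain ⟨P, hPd⟩ : ∃ P, P = ∏ j ∈ insert i₀ S, (2 * L j + 1) := ⟨_, rfl⟩
    have hXPF : X = P * F := by
      rw [hXd, hPd, hF]
      exact (Finset.prod_mul_prod_compl _ _).symm
    have hPpos : 0 < P := by rw [hPd]; exact Finset.prod_pos fun i _ => by omega
    have hFpos : 0 < F := by rw [hF]; exact Finset.prod_pos fun i _ => by omega
    have hBc : B.card ≤ k * F := by
      rw [hB, Fintype.card_piFinset, ← Finset.prod_mul_prod_compl (insert i₀ S),
        Finset.prod_insert hi₀]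
      have h1 : ∏ i ∈ S, (if i ∈ S then ({0} : Finset ℤ) else if i = i₀ then
          (range k).image (fun a : ℕ => (a : ℤ)) else Finset.Icc (-(L i : ℤ)) (L i)).card = 1 := by
        refine Finset.prod_eq_one fun i hi => ?_
        rw [if_pos hi, card_singleton]
      rw [h1, mul_one, if_neg hi₀, if_pos rfl]
      refine Nat.mul_le_mul (card_image_le.trans (by rw [card_range])) (le_of_eq ?_)
      rw [hF]
      refine Finset.prod_congr rfl fun i hi => ?_
      have hi' := mem_compl.1 hi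
      rw [mem_insert, not_or] at hi'
      rw [if_neg hi'.2, if_neg hi'.1, Int.card_Icc]
      omega
    refine ⟨H₂, T + B.image φ, q3, ?_, ?_, ?_⟩
    · calc Nat.card H₂ ≤ Nat.card H' * g := q4
        _ ≤ (Nat.card H * m ^ S.card) * y := Nat.mul_le_mul hcard' hgy
        _ = (y * m ^ S.card) * Nat.card H := by ring
        _ ≤ X * Nat.card H := Nat.mul_le_mul_right _ hyX
        _ ≤ A.card := hsize
    · have h1 : ((T + B.image φ).card : ℝ) ≤ T.card * B.card := by
        exact_mod_cast card_add_le.trans (Nat.mul_le_mul_left _ card_image_le)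
      have hT0 : (0 : ℝ) ≤ T.card := by positivity
      have hPR : (0 : ℝ) < P := by exact_mod_cast hPpos
      have hFR : (0 : ℝ) < F := by exact_mod_cast hFpos
      have hgR : (0 : ℝ) < g := by exact_mod_cast hg0
      have h2 : (B.card : ℝ) ≤ 2 * ρ * e := by
        have h3 : (k : ℝ) * F ≤ 2 * ρ * ((m : ℝ) ^ (S.card + 1) / P) := by
          rw [← mul_div_assoc, le_div_iff₀ hPR]
          have h4 : (X : ℝ) ≤ 2 * ρ * g * (m : ℝ) ^ S.card := by
            have h5 : X ≤ 2 * (ρ * g) * m ^ S.card :=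
              hXy.trans (Nat.mul_le_mul_right _ (Nat.mul_le_mul_left _ hyg))
            have h6 : (X : ℝ) ≤ 2 * (ρ * g) * (m : ℝ) ^ S.card := by exact_mod_cast h5
            linarith
          have h7 : (m : ℝ) = g * k := by rw [hk]; push_cast; ring
          have h8 : (X : ℝ) = P * F := by rw [hXPF]; push_cast; ring
          calc (k : ℝ) * F * P = k * X := by rw [h8]; ring
            _ ≤ k * (2 * ρ * g * (m : ℝ) ^ S.card) :=
              mul_le_mul_of_nonneg_left h4 (by positivity)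
            _ = 2 * ρ * ((m : ℝ) ^ S.card * (g * k)) := by ring
            _ = 2 * ρ * (m : ℝ) ^ (S.card + 1) := by rw [← h7, pow_succ]
        have h9 : (B.card : ℝ) ≤ k * F := by exact_mod_cast hBc
        refine h9.trans (h3.trans ?_)
        exact mul_le_mul_of_nonneg_left (by rw [hPd]; exact hP) (by positivity)
      calc ((T + B.image φ).card : ℝ) ≤ T.card * B.card := h1
        _ ≤ T.card * (2 * ρ * e) := mul_le_mul_of_nonneg_left h2 hT0
        _ = _ := by ring
    · intro a ha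
      obtain ⟨t, ht, c, hc, h, hh, rfl⟩ := hcov a ha
      have hkZ : (0 : ℤ) < k := by exact_mod_cast hk0
      obtain ⟨c', hc'⟩ : ∃ c' : Fin d → ℤ, c' = fun i => if i ∈ S then 0 else
        if i = i₀ then c i % k else c i := ⟨_, rfl⟩
      refine ⟨t + φ c', add_mem_add ht (mem_image.2 ⟨c', ?_, rfl⟩), ?_⟩
      · rw [hB, Fintype.mem_piFinset]
        intro i
        rw [hc']
        by_cases hi : i ∈ S
        · simp [hi]
        · by_cases hi' : i = i₀
          · simp only [if_neg hi, if_pos hi', mem_image, mem_range]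
            refine ⟨(c i % k).toNat, ?_, Int.toNat_of_nonneg (Int.emod_nonneg _ hkZ.ne')⟩
            have h1 := Int.emod_lt_of_pos (c i) hkZ
            have h2 := Int.emod_nonneg (c i) hkZ.ne'
            omega
          · have := abs_le.1 (hc i)
            simp only [if_neg hi, if_neg hi', mem_Icc]
            exact this
      · have h1 : t + ∑ i, c i • v i + h - (t + φ c') = ∑ i, (c i - c' i) • v i + h := by
          rw [hφ]
          simp only [sub_smul, Finset.sum_sub_distrib]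
          abel
        rw [h1]
        refine add_mem (sum_mem fun i _ => ?_) (q1 (hHH' hh))
        by_cases hi : i ∈ S
        · exact zsmul_mem (q1 (hv i hi)) _
        · by_cases hi' : i = i₀
          · rw [hc']
            simp only [if_neg hi, if_pos hi']
            have h2 : c i - c i % k = (c i / k) * k := by
              have := Int.mul_ediv_add_emod (c i) k
              linarith
            rw [h2, mul_smul, hi', natCast_zsmul]
            exact zsmul_mem q2 _
          · rw [hc']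
            simp only [if_neg hi, if_neg hi', sub_self, zero_smul]
            exact zero_mem _

/-- powers of a prime have many divisors -/
lemma pow_divisors {q k : ℕ} (hq : 2 ≤ q) :
    ∀ y, 1 ≤ y → y ≤ q ^ k → ∃ g, g ∣ q ^ k ∧ g ≤ y ∧ y ≤ q * g := by
  intro y hy1 hyk
  have h1 : q ^ Nat.log q y ≤ y := Nat.pow_log_le_self q (by omega)
  have h2 : y < q ^ (Nat.log q y + 1) := Nat.lt_pow_succ_log_self (by omega) y
  have h3 : Nat.log q y ≤ k := (Nat.pow_le_pow_iff_right (by omega)).1 (h1.trans hyk)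
  refine ⟨q ^ Nat.log q y, pow_dvd_pow q h3, h1, ?_⟩
  rw [pow_succ, mul_comm] at h2
  exact h2.le

end Pool.Agent.Run7.h127.SP
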