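import Pool.Agent.Run7.h127.SN.GenFinal

/-!
# Freiman–Ruzsa with sharp dimension and proper progressions: the cell
-/

set_option autoImplicit false
set_option linter.unusedSectionVars false

namespace Pool.Agent.Run7.h127.SP

open H112 Finset Pool.Agent.Run7.h127.SN
open scoped Pointwise

universe u

/-- **The lattice points in a subspace.** -/
theorem sub_body2 {m : ℕ} {N : Seminorm ℝ (Fin m → ℝ)} (hN : ∀ x, N x = 0 → x = 0)
    {D : Set (Fin m → ℤ)} (hD : D ⊆ LL N 2) :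
    ∃ (N₁ : Seminorm ℝ (Fin (Module.finrank ℤ (Submodule.span ℤ D)) → ℝ))
      (j : (Fin (Module.finrank ℤ (Submodule.span ℤ D)) → ℤ) →+ (Fin m → ℤ)),
      (∀ x, N₁ x = 0 → x = 0) ∧ Function.Injective j ∧ (∀ v ∈ D, ∃ c ∈ LL N₁ 1, j c = v) ∧
      (LL N₁ 1).ncard ≤ (LL N 3).ncard ∧ ∀ c, N (cR (j c)) ≤ 3 * N₁ (cR c) := by
  obtain ⟨L, hL⟩ : ∃ L, L = Submodule.span ℤ D := ⟨_, rfl⟩
  rw [← hL]
  have hfin : Module.Finite ℤ L := by
    rw [hL]
    exact Module.Finite.span_of_finite ℤ ((LL_finite hN 2).subset hD)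
  obtain ⟨n, hn⟩ : ∃ n, n = Module.finrank ℤ L := ⟨_, rfl⟩
  rw [← hn]
  let b : Module.Basis (Fin n) ℤ L := Module.finBasisOfFinrankEq ℤ L hn.symm
  let jl : (Fin n → ℤ) →ₗ[ℤ] (Fin m → ℤ) := L.subtype.comp b.equivFun.symm.toLinearMap
  have hjl : Function.Injective jl := Subtype.val_injective.comp b.equivFun.symm.injective
  let J : (Fin n → ℝ) →ₗ[ℝ] (Fin m → ℝ) :=
    Fintype.linearCombination ℝ fun i => cR (jl (Pi.single i 1))
  have hJ : ∀ x, J (cR x) = cR (jl x) := by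
    intro x
    have h1 : x = ∑ j, x j • (Pi.single j 1 : Fin n → ℤ) := by
      funext k
      simp [Finset.sum_apply, Pi.single_apply]
    have h2 : jl x = ∑ j, x j • jl (Pi.single j 1) := by
      conv_lhs => rw [h1]
      rw [map_sum]
      exact Finset.sum_congr rfl fun j _ => map_smul _ _ _
    rw [h2]
    show ∑ j, (cR x j) • cR (jl (Pi.single j 1)) = _
    funext k
    simp [cR, Finset.sum_apply]
  have hSfin : {c : Fin n → ℤ | jl c ∈ LL N 2}.Finite :=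
    (LL_finite hN 2).preimage hjl.injOn
  obtain ⟨R, hR⟩ := (hSfin.image fun c => ‖cR c‖).bddAbove
  obtain ⟨R', hR'⟩ : ∃ R', R' = max R 1 := ⟨_, rfl⟩
  have hR0 : 0 < R' := by rw [hR']; positivity
  let η : NNReal := ⟨1 / R', by positivity⟩
  let th : NNReal := ⟨1 / 3, by positivity⟩
  let N₁ : Seminorm ℝ (Fin n → ℝ) := th • (N.comp J + η • normSeminorm ℝ (Fin n → ℝ))
  have hN₁ : ∀ x, N₁ x = 1 / 3 * (N (J x) + 1 / R' * ‖x‖) := fun x => rfl
  refine ⟨N₁, jl.toAddMonoidHom, ?_, hjl, ?_, ?_, ?_⟩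
  · intro x hx
    rw [hN₁] at hx
    have h1 : 0 ≤ N (J x) := apply_nonneg N _
    have h2 : 0 ≤ 1 / R' * ‖x‖ := by positivity
    have h3 : 1 / R' * ‖x‖ = 0 := by linarith
    rcases mul_eq_zero.1 h3 with h | h
    · exact absurd h (by positivity)
    · exact norm_eq_zero.1 h
  · intro v hv
    have hvL : v ∈ L := by
      rw [hL]
      exact Submodule.subset_span hv
    have h1 : jl (b.equivFun ⟨v, hvL⟩) = v := by
      show ((b.equivFun.symm (b.equivFun ⟨v, hvL⟩) : L) : Fin m → ℤ) = v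
      rw [LinearEquiv.symm_apply_apply]
    refine ⟨b.equivFun ⟨v, hvL⟩, ?_, h1⟩
    rw [mem_LL, hN₁, hJ, h1]
    have h2 : N (cR v) ≤ 2 := hD hv
    have h3 : ‖cR (b.equivFun ⟨v, hvL⟩)‖ ≤ R' := by
      rw [hR']
      refine le_trans (hR ⟨b.equivFun ⟨v, hvL⟩, ?_, rfl⟩) (le_max_left _ _)
      show jl _ ∈ LL N 2
      rw [h1]
      exact hD hv
    have h4 : 1 / R' * ‖cR (b.equivFun ⟨v, hvL⟩)‖ ≤ 1 := by
      rw [one_div, inv_mul_le_iff₀ hR0, mul_one]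
      exact h3
    linarith
  · refine Set.ncard_le_ncard_of_injOn jl ?_ hjl.injOn (LL_finite hN 3)
    intro c hc
    rw [mem_LL, hN₁, hJ] at hc
    rw [mem_LL]
    have h2 : 0 ≤ 1 / R' * ‖cR c‖ := by positivity
    linarith
  · intro c
    show N (cR (jl c)) ≤ 3 * N₁ (cR c)
    rw [hN₁, hJ]
    have h2 : 0 ≤ 1 / R' * ‖cR c‖ := by positivity
    linarith

variable {Γ : Type u} [AddCommGroup Γ] [DecidableEq Γ]

/-- **The class.** -/
theorem exists_cell_p {A : Finset Γ}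
    (hA : A.Nonempty) {K : ℝ} (hK : ((A + A).card : ℝ) ≤ K * A.card) (hK1 : 1 ≤ K) (k : ℕ) :
    ∃ (D : ℕ) (d : ℕ) (N : Seminorm ℝ (Fin d → ℝ)) (ψ : (Fin d → ℤ) →+ Γ) (H : AddSubgroup Γ)
      (z : Γ) (A₁ : Finset Γ) (g : Γ → (Fin d → ℤ)),
      (D : ℝ) ≤ 300 * Real.log (2 * K) ∧ (∀ x, N x = 0 → x = 0) ∧ Finite H ∧
      (LL N 3).ncard * Nat.card H ≤ (4 * D + 1) ^ (D * (k + 3 + Nat.log 2 (D + 1))) * A.card ∧
      A₁ ⊆ A ∧ A₁.Nonempty ∧
      (A.card : ℝ) ≤ (2 * K) ^ (13000 * (1 + Real.log (1 + Real.log (2 * K)))) * A₁.card ∧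
      ((A₁ + A₁.image fun a => 2 ^ k • a).card : ℝ) ≤
        K ^ (k + 2) * (2 * K) ^ (13000 * (1 + Real.log (1 + Real.log (2 * K)))) * A₁.card ∧
      IsAddFreimanHom (2 ^ k + 1) (A₁ : Set Γ) Set.univ g ∧
      (∀ a ∈ A₁, g a ∈ LL N 1 ∧ a - z - ψ (g a) ∈ H) ∧
      ∀ c : Fin d → ℤ, c ≠ 0 → N (cR c) ≤ 2 * (2 ^ k + 1) → ψ c ∉ H := by
  classical
  obtain ⟨D, B, ψ₀, H₀, T, hD, hB, hH₀, hvol, hT, hcov⟩ := near_pfr hA hK
  obtain ⟨N₀, hN₀, hNB⟩ := exists_norm hB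
  obtain ⟨t, ht⟩ : ∃ t : ℝ, t = 2 * (2 ^ k + 1) := ⟨_, rfl⟩
  have ht0 : 0 ≤ t := by rw [ht]; positivity
  obtain ⟨d, N, ψ, H, hd, hN, hH, hp, hc, hn⟩ := proper ht0 D N₀ hN₀ ψ₀ H₀ hH₀
  have hcovA : ∀ a ∈ A, ∃ z ∈ T, ∃ c ∈ LL N 1, ∃ h ∈ H, a = z + ψ c + h := by
    intro a ha
    obtain ⟨z, hz, c, hcB, h, hh, e⟩ := hcov a ha
    obtain ⟨c', hc', h', hh', e'⟩ := hc 1 zero_le_one c ((hNB _).2 hcB) h hh
    refine ⟨z, hz, c', hc', h', hh', ?_⟩
    rw [e, add_assoc, e', ← add_assoc]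
  choose! τ hτT hτ using hcovA
  obtain ⟨z, hz, hzX⟩ := exists_class hA (T := T) (τ := τ) hτT
  obtain ⟨A₁, hA₁⟩ : ∃ A₁, A₁ = A.filter fun x => τ x = z := ⟨_, rfl⟩
  rw [← hA₁] at hzX
  have hA₁X : A₁ ⊆ A := by rw [hA₁]; exact filter_subset _ _
  have hA₁0 : A₁.Nonempty := by
    rw [nonempty_iff_ne_empty]
    intro h0
    rw [h0, card_empty, mul_zero] at hzX
    have := card_pos.2 hA
    omega
  obtain ⟨Q, hQ⟩ : ∃ Q : ℝ, Q = (2 * K) ^ (13000 * (1 + Real.log (1 + Real.log (2 * K)))) :=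
    ⟨_, rfl⟩
  rw [← hQ] at hT ⊢
  have hQ0 : 0 ≤ Q := by rw [hQ]; positivity
  have hzX' : (A.card : ℝ) ≤ Q * A₁.card := by
    calc (A.card : ℝ) ≤ T.card * A₁.card := by exact_mod_cast hzX
      _ ≤ Q * A₁.card := mul_le_mul_of_nonneg_right hT (by positivity)
  obtain ⟨g, hg1, hg2⟩ := lift (N := N) (ψ := ψ) (H := H) (n := 2 ^ k + 1) (S := (A₁ : Set Γ))
    (z := z) (by
      intro c hc0 hct
      refine hp c hc0 ?_
      rw [ht]
      push_cast at hct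
      exact hct) (by
      intro a ha
      have h1 : a ∈ A ∧ τ a = z := by
        rw [mem_coe, hA₁, mem_filter] at ha
        exact ha
      have h2 := hτ a h1.1
      rw [h1.2] at h2
      exact h2)
  refine ⟨D, d, N, ψ, H, z, A₁, g, hD, hN, hH, ?_, hA₁X, hA₁0, hzX', ?_, hg1,
    fun a ha => hg2 a (mem_coe.2 ha), by rwa [ht] at hp⟩
  · have h1 := hn 3 (by norm_num)
    have h2 : (3 : ℝ) + D * t ≤ 2 ^ (k + 3 + Nat.log 2 (D + 1)) * 1 := by
      have h3 : D + 1 < 2 ^ (Nat.log 2 (D + 1) + 1) := Nat.lt_pow_succ_log_self (by norm_num) _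
      have h4 : 3 + D * (2 * (2 ^ k + 1)) ≤ 2 ^ (k + 3 + Nat.log 2 (D + 1)) := by
        have h5 : 2 ^ (k + 3 + Nat.log 2 (D + 1)) = 2 ^ k * 4 * 2 ^ (Nat.log 2 (D + 1) + 1) := by
          rw [show k + 3 + Nat.log 2 (D + 1) = k + 2 + (Nat.log 2 (D + 1) + 1) by ring, pow_add,
            pow_add]
          norm_num
        rw [h5]
        have h6 : 1 ≤ 2 ^ k := Nat.one_le_two_pow
        have h7 : 2 ^ k * 4 * (D + 1) ≤ 2 ^ k * 4 * 2 ^ (Nat.log 2 (D + 1) + 1) :=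
          Nat.mul_le_mul_left _ h3.le
        nlinarith
      rw [ht, mul_one]
      exact_mod_cast h4
    have h5 : (LL N₀ (3 + D * t)).ncard ≤
        (4 * D + 1) ^ (D * (k + 3 + Nat.log 2 (D + 1))) * (LL N₀ 1).ncard :=
      (Set.ncard_le_ncard (LL_mono h2) (LL_finite hN₀ _)).trans (LL_dbl hN₀ zero_le_one _)
    have h6 : (LL N₀ 1).ncard * Nat.card H₀ ≤ A.card := by
      have h7 : LL N₀ 1 = {c : Fin D → ℤ | (fun i => (c i : ℝ)) ∈ B} := by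
        ext c
        exact hNB _
      rw [h7]
      exact hvol
    calc (LL N 3).ncard * Nat.card H ≤ (LL N₀ (3 + D * t)).ncard * Nat.card H₀ := h1
      _ ≤ ((4 * D + 1) ^ (D * (k + 3 + Nat.log 2 (D + 1))) * (LL N₀ 1).ncard) * Nat.card H₀ :=
        Nat.mul_le_mul_right _ h5
      _ = (4 * D + 1) ^ (D * (k + 3 + Nat.log 2 (D + 1))) * ((LL N₀ 1).ncard * Nat.card H₀) := by
        ring
      _ ≤ _ := Nat.mul_le_mul_left _ h6
  · have h1 : ((A₁ + A₁.image fun a => 2 ^ k • a).card : ℝ) ≤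
        (A + A.image fun a => 2 ^ k • a).card := by
      exact_mod_cast card_le_card (add_subset_add hA₁X (image_subset_image hA₁X))
    calc ((A₁ + A₁.image fun a => 2 ^ k • a).card : ℝ) ≤ K ^ (k + 2) * A.card :=
          h1.trans (dil_le hA hK k)
      _ ≤ K ^ (k + 2) * (Q * A₁.card) := mul_le_mul_of_nonneg_left hzX' (by positivity)
      _ = _ := by ring

end Pool.Agent.Run7.h127.SP
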