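import Pool.Agent.Run7.h127.SP.Core

/-!
# Freiman–Ruzsa with sharp dimension and proper progressions: the theorem
-/

set_option autoImplicit false
set_option linter.unusedSectionVars false

namespace Pool.Agent.Run7.h127.SP

open H112 Finset Pool.Agent.Run7.h127.SN
open scoped Pointwise

universe u

variable {Γ : Type u} [AddCommGroup Γ] [DecidableEq Γ]

/-- **Freiman–Ruzsa with sharp dimension in arbitrary abelian groups.** -/
theorem core_p {A : Finset Γ}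
    (hA : A.Nonempty) {K : ℝ} (hK : ((A + A).card : ℝ) ≤ K * A.card)
    {ε : ℝ} (hε : 0 < ε) (hε1 : ε ≤ 1) :
    ∃ (d : ℕ) (N : Seminorm ℝ (Fin d → ℝ)) (ψ : (Fin d → ℤ) →+ Γ) (H : AddSubgroup Γ)
      (F : Finset Γ), (∀ x, N x = 0 → x = 0) ∧ Finite H ∧
      (d : ℝ) * Real.log 2 ≤ (1 + ε) * Real.log K + ε * Real.log 2 ∧
      (((LL N 1).ncard * Nat.card H : ℕ) : ℝ) ≤ (2 * K) ^ (ex K ε) * A.card ∧
      F ⊆ A ∧ (F.card : ℝ) ≤ (2 * K) ^ (ex K ε) ∧
      (∀ a ∈ A, ∃ f ∈ F, ∃ c ∈ LL N 1, ∃ h ∈ H, a = f + ψ c + h) ∧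
      ∀ c : Fin d → ℤ, c ≠ 0 → N (cR c) ≤ 2 → ψ c ∉ H := by
  classical
  have hN : (0 : ℝ) < A.card := by exact_mod_cast card_pos.2 hA
  have hK1 : 1 ≤ K := by
    have h1 : (A.card : ℝ) ≤ (A + A).card := by exact_mod_cast card_le_card_add_left hA
    have h2 : 1 * (A.card : ℝ) ≤ K * A.card := by linarith
    exact le_of_mul_le_mul_right h2 hN
  have hK0 : 0 < K := by linarith
  obtain ⟨k, hk1, hk2, hk3, hk4, hk5⟩ := nums2 hK1 hε hε1
  obtain ⟨κ, hκ⟩ : ∃ κ, κ = Real.log (2 * K) := ⟨_, rfl⟩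
  obtain ⟨lam, hlam⟩ : ∃ lam, lam = 1 + Real.log (1 + Real.log (2 * K)) := ⟨_, rfl⟩
  have hlam' : lam = 1 + Real.log (1 + κ) := by rw [hlam, hκ]
  have hlogK : 0 ≤ Real.log K := Real.log_nonneg hK1
  have hlog2 : 0 < Real.log 2 := Real.log_pos (by norm_num)
  have hκ' : κ = Real.log 2 + Real.log K := by
    rw [hκ, Real.log_mul (by norm_num) hK0.ne']
  have hκ69 : (0.69 : ℝ) < κ := by
    have := log_two_gt
    linarith
  have hκ0 : 0 < κ := by linarith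
  have hlam1 : 1 ≤ lam := by
    rw [hlam']
    have : 0 ≤ Real.log (1 + κ) := Real.log_nonneg (by linarith)
    linarith
  have hkR : (1 : ℝ) ≤ k := by exact_mod_cast hk1
  obtain ⟨D, m, N, ψ, H, z, A₁, g, hD, hNd, hH, hcount, hA₁A, hA₁0, hA₁c, hA₁K, hg, hgA,
    hpr⟩ := exists_cell_p hA hK hK1 k
  rw [← hlam] at hk2 hk4 hk5 hA₁c hA₁K
  obtain ⟨Q, hQ⟩ : ∃ Q : ℝ, Q = (2 * K) ^ (13000 * lam) := ⟨_, rfl⟩
  rw [← hQ] at hA₁c hA₁K
  have hQ0 : 0 < Q := by rw [hQ]; positivity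
  have hlogQ : Real.log Q = 13000 * lam * κ := by
    rw [hQ, Real.log_rpow (by positivity), ← hκ]
  obtain ⟨t, L, hL0, hLg, hLK, hLt, hLfib⟩ := exists_fib (Nat.one_le_two_pow (n := k)) hA₁0 hg hA₁K
  obtain ⟨K₁, hK₁⟩ : ∃ K₁ : ℝ, K₁ = 2 * (K ^ (k + 2) * Q) := ⟨_, rfl⟩
  rw [← hK₁] at hLK
  have hLt' : (A₁.card : ℝ) ≤ 2 * K₁ * (t * L.card) := by
    rw [hK₁]
    linarith
  have hK₁0 : 0 < K₁ := by rw [hK₁]; positivity
  have hlogK₁ : Real.log K₁ = (k + 1) * Real.log K + (κ + 13000 * lam * κ) := by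
    rw [hK₁, Real.log_mul (by norm_num) (by positivity), Real.log_mul (by positivity) hQ0.ne',
      Real.log_pow, hlogQ, hκ']
    push_cast
    ring
  have hc13 : κ + 13000 * lam * κ ≤ (k * (ε / 8)) * κ := by
    have h1 : κ ≤ lam * κ := by
      calc κ = 1 * κ := (one_mul κ).symm
        _ ≤ lam * κ := mul_le_mul_of_nonneg_right hlam1 hκ0.le
    have h2 : 13001 * lam * κ ≤ (k * (ε / 8)) * κ := mul_le_mul_of_nonneg_right hk2 hκ0.le
    linarith
  have hq2 : 2 ≤ 2 ^ k := by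
    calc 2 = 2 ^ 1 := by norm_num
      _ ≤ 2 ^ k := Nat.pow_le_pow_right (by norm_num) hk1
  have hK₁1 : 1 ≤ K₁ := by
    have h2 : (0 : ℝ) < L.card := by exact_mod_cast card_pos.2 hL0
    have h3 : (L.card : ℝ) ≤ (L + L.image fun a => 2 ^ k • a).card := by
      exact_mod_cast card_le_card_add_right (hL0.image _)
    have h4 : 1 * (L.card : ℝ) ≤ K₁ * L.card := by linarith
    exact le_of_mul_le_mul_right h4 h2
  obtain ⟨L', L'', hL'L'', hL''L, hL'0, hL'c, hrk, -⟩ := SD.single.{0, 0} (q := 2 ^ k) hq2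
    (SD.inj_dil (fun a b hab => nsmul_right_injective (M := Fin m → ℤ) two_ne_zero hab) k) hL0 hLK
    (ε := ε / 8) (by positivity) (by linarith)
  have hL'L : L' ⊆ L := hL'L''.trans hL''L
  have hr := (hrk (Fin m → ℤ) id (by
    refine ⟨fun _ _ => Set.mem_univ _, ?_⟩
    intro s t _ _ _ _ hst
    rw [Multiset.map_id, Multiset.map_id]
    exact hst)).1
  obtain ⟨A', hA'⟩ : ∃ A', A' = A₁.filter fun a => g a ∈ L' := ⟨_, rfl⟩
  have hA'A₁ : A' ⊆ A₁ := by rw [hA']; exact filter_subset _ _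
  have hA'L : ∀ a ∈ A', g a ∈ L' := by
    intro a ha
    rw [hA', mem_filter] at ha
    exact ha.2
  have hA't : t * L'.card ≤ A'.card := by
    rw [hA']
    exact hLfib L' hL'L
  obtain ⟨Df, hDf⟩ : ∃ Df : Set (Fin m → ℤ), Df = id '' (L' : Set (Fin m → ℤ)) -
    id '' (L' : Set (Fin m → ℤ)) := ⟨_, rfl⟩
  rw [← hDf] at hr
  have hLLL : ∀ b ∈ L', N (cR b) ≤ 1 := by
    intro b hb
    obtain ⟨a, ha, rfl⟩ := mem_image.1 (hLg (hL'L hb))
    exact (hgA a ha).1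
  have hDfLL : Df ⊆ LL N 2 := by
    rw [hDf]
    rintro _ ⟨_, ⟨a, ha, rfl⟩, _, ⟨b, hb, rfl⟩, rfl⟩
    have h1 := hLLL a (mem_coe.1 ha)
    have h2 := hLLL b (mem_coe.1 hb)
    show N (cR (a - b)) ≤ 2
    rw [cR_sub]
    linarith [map_sub_le_add N (cR a) (cR b)]
  obtain ⟨N₁, j, hN₁, hj, hjD, hjc, hj3⟩ := sub_body2 hNd hDfLL
  obtain ⟨d, hd⟩ : ∃ d, d = Module.finrank ℤ (Submodule.span ℤ Df) := ⟨_, rfl⟩
  -- the exponents
  obtain ⟨E, hE⟩ : ∃ E, E = ex K ε := ⟨_, rfl⟩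
  have hE' : E = 10 ^ 20 * lam ^ 2 / ε ^ 4 := by rw [hE, ex, ← hlam]
  have hE0 : 0 ≤ E := by rw [hE']; positivity
  have hEκ : (2 * K) ^ E = Real.exp (κ * E) := by
    rw [Real.rpow_def_of_pos (by positivity), ← hκ]
  have hke : (k + 1 : ℝ) ≤ 110002 * lam / ε := by
    rw [le_div_iff₀ hε]
    exact hk4
  have hcst : SD.cst (2 ^ k) (ε / 8) = 128 * 10 ^ 7 * (k + 1) / ε ^ 2 := by
    unfold SD.cst
    rw [Nat.log_pow (by norm_num)]
    field_simp
    ring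
  have hlogK₁' : Real.log K₁ ≤ 2 * (110002 * lam / ε) * κ := by
    rw [hlogK₁]
    have h2 : (k * (ε / 8)) * κ ≤ (k + 1) * κ := mul_le_mul_of_nonneg_right (by nlinarith) hκ0.le
    have h3 : (k + 1 : ℝ) * Real.log K ≤ (k + 1) * κ :=
      mul_le_mul_of_nonneg_left (by linarith) (by linarith)
    have h4 : (k + 1 : ℝ) * κ ≤ (110002 * lam / ε) * κ := mul_le_mul_of_nonneg_right hke hκ0.le
    linarith
  have hmain : κ + 13000 * lam * κ + Real.log K₁ + SD.cst (2 ^ k) (ε / 8) * Real.log K₁ ≤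
      κ * E := by
    rw [hE']
    refine main_num2 hlam1 hκ0 hε hε1 hlogK₁' ?_
    refine mul_le_mul ?_ hlogK₁' (Real.log_nonneg hK₁1) (by positivity)
    rw [hcst]
    refine div_le_div_of_nonneg_right ?_ (by positivity)
    exact mul_le_mul_of_nonneg_left hke (by norm_num)
  have hK₁e : K₁ ^ (SD.cst (2 ^ k) (ε / 8)) = Real.exp (SD.cst (2 ^ k) (ε / 8) * Real.log K₁) := by
    rw [Real.rpow_def_of_pos hK₁0, mul_comm]
  have hA'c' : K * (A.card : ℝ) ≤ (2 * K) ^ E * A'.card := by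
    have h1 : 2 * K * (Q * (K₁ * K₁ ^ (SD.cst (2 ^ k) (ε / 8)))) ≤ (2 * K) ^ E := by
      have e1 : 2 * K * (Q * (K₁ * K₁ ^ (SD.cst (2 ^ k) (ε / 8)))) =
          Real.exp (κ + 13000 * lam * κ + Real.log K₁ +
            SD.cst (2 ^ k) (ε / 8) * Real.log K₁) := by
        rw [Real.exp_add, Real.exp_add, Real.exp_add, Real.exp_log hK₁0, ← hlogQ,
          Real.exp_log hQ0, ← hK₁e, hκ, Real.exp_log (by positivity)]
        ring
      rw [e1, hEκ]
      exact Real.exp_le_exp.2 hmain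
    have h2 : (t : ℝ) * L'.card ≤ A'.card := by exact_mod_cast hA't
    calc K * (A.card : ℝ) ≤ K * (Q * A₁.card) := mul_le_mul_of_nonneg_left hA₁c hK0.le
      _ ≤ K * (Q * (2 * K₁ * (t * L.card))) := by
        refine mul_le_mul_of_nonneg_left (mul_le_mul_of_nonneg_left hLt' hQ0.le) hK0.le
      _ ≤ K * (Q * (2 * K₁ * (t * (K₁ ^ (SD.cst (2 ^ k) (ε / 8)) * L'.card)))) := by
        refine mul_le_mul_of_nonneg_left (mul_le_mul_of_nonneg_left
          (mul_le_mul_of_nonneg_left (mul_le_mul_of_nonneg_left hL'c (by positivity))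
            (by positivity)) hQ0.le) hK0.le
      _ = (2 * K * (Q * (K₁ * K₁ ^ (SD.cst (2 ^ k) (ε / 8))))) * (t * L'.card) := by ring
      _ ≤ (2 * K) ^ E * A'.card := mul_le_mul h1 h2 (by positivity) (by positivity)
  have hA'0 : A'.Nonempty := by
    rw [nonempty_iff_ne_empty]
    intro h0
    rw [h0, card_empty, Nat.cast_zero, mul_zero] at hA'c'
    have : 0 < K * (A.card : ℝ) := by positivity
    linarith
  have hruzsa : ((A + A').card : ℝ) ≤ (2 * K) ^ E * A'.card := by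
    have h1 : ((A + A').card : ℝ) ≤ (A + A).card := by
      exact_mod_cast card_le_card (add_subset_add_left (hA'A₁.trans hA₁A))
    linarith
  obtain ⟨F, hFA, hF, hcov⟩ := ruzsa_covering_add hA'0 hruzsa
  refine ⟨_, N₁, ψ.comp j, H, F, hN₁, hH, ?_, ?_, hFA, ?_, ?_, ?_⟩
  · -- dimension
    rw [← hd] at hr ⊢
    have h1 : Real.log ((2 ^ k : ℕ) : ℝ) = k * Real.log 2 := by
      push_cast
      rw [Real.log_pow]
    rw [h1, hlogK₁] at hr
    exact dim_num hkR hε hε1 hlogK hlog2 hκ' hk3 hc13 hr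
  · -- size
    rw [← hE]
    have h1 : (LL N₁ 1).ncard * Nat.card H ≤
        (4 * D + 1) ^ (D * (k + 3 + Nat.log 2 (D + 1))) * A.card :=
      (Nat.mul_le_mul_right _ hjc).trans hcount
    have h2 : (((LL N₁ 1).ncard * Nat.card H : ℕ) : ℝ) ≤
        (4 * (D : ℝ) + 1) ^ (D * (k + 3 + Nat.log 2 (D + 1))) * A.card := by exact_mod_cast h1
    refine h2.trans (mul_le_mul_of_nonneg_right ?_ (by positivity))
    rw [← hκ] at hD
    have h3 : Real.log (4 * D + 1) ≤ 8 * lam := by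
      rw [hlam']
      exact log_4m_le hκ69 hD
    have h4 : (Nat.log 2 (D + 1) : ℝ) ≤ 12 * lam := by
      have h5 : ((2 ^ Nat.log 2 (D + 1) : ℕ) : ℝ) ≤ ((D + 1 : ℕ) : ℝ) := by
        exact_mod_cast Nat.pow_log_le_self 2 (by omega)
      push_cast at h5
      have h6 := Real.log_le_log (by positivity) h5
      rw [Real.log_pow] at h6
      have h7 : Real.log ((D : ℝ) + 1) ≤ Real.log (4 * D + 1) :=
        Real.log_le_log (by positivity) (by
          have : (0 : ℝ) ≤ D := by positivity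
          linarith)
      have h8 := log_two_gt
      have h9 : (Nat.log 2 (D + 1) : ℝ) * 0.69 ≤ Nat.log 2 (D + 1) * Real.log 2 :=
        mul_le_mul_of_nonneg_left h8.le (by positivity)
      linarith
    have h10 : ((D * (k + 3 + Nat.log 2 (D + 1)) : ℕ) : ℝ) ≤ (300 * κ) * (2 * k) := by
      push_cast
      refine mul_le_mul hD ?_ (by positivity) (by positivity)
      linarith
    have h11 := pow_le_exp (x := 4 * (D : ℝ) + 1) (by positivity) h3 h10 (by positivity)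
    refine h11.trans ?_
    rw [hEκ]
    refine Real.exp_le_exp.2 ?_
    have h12 : (k : ℝ) ≤ 110002 * lam / ε := by linarith
    rw [hE']
    exact size_num2 hlam1 hκ0 hε hε1 h12
  · rw [← hE]
    exact hF
  · intro a ha
    obtain ⟨f, hf, w, hw, rfl⟩ := mem_add.1 (hcov ha)
    obtain ⟨x, hx, y, hy, rfl⟩ := mem_sub.1 hw
    obtain ⟨c, hc, hjc⟩ := hjD (g x - g y) (by
      rw [hDf]
      exact ⟨g x, ⟨g x, hA'L x hx, rfl⟩, g y, ⟨g y, hA'L y hy, rfl⟩, rfl⟩)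
    refine ⟨f, hf, c, hc, (x - z - ψ (g x)) - (y - z - ψ (g y)),
      H.sub_mem (hgA x (hA'A₁ hx)).2 (hgA y (hA'A₁ hy)).2, ?_⟩
    rw [AddMonoidHom.comp_apply, hjc, map_sub]
    abel
  · intro c hc hc2
    rw [AddMonoidHom.comp_apply]
    refine hpr (j c) (fun h0 => hc (hj (h0.trans (map_zero j).symm))) ?_
    have h1 := hj3 c
    have h2 : (2 : ℝ) ≤ 2 ^ k := by exact_mod_cast hq2
    linarith

end Pool.Agent.Run7.h127.SP
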