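import Pool.Agent.Run7.h127.SP.Main

/-!
# Freiman–Ruzsa with sharp dimension: the rank `⌊log₂ K + δ⌋`
-/

set_option autoImplicit false
set_option linter.unusedSectionVars false

namespace Pool.Agent.Run7.h127.SP

open H112 Finset Pool.Agent.Run7.h127.SN
open scoped Pointwise

universe u

/-- the choice of `ε` -/
lemma eps_num {K δ : ℝ} (hK1 : 1 ≤ K) (hδ : 0 < δ) (hδ1 : δ ≤ 1) :
    ∃ ε : ℝ, 0 < ε ∧ ε ≤ 1 ∧ (1 + ε) * Real.log K ≤ Real.log K + δ * Real.log 2 ∧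
      (1 + ε) * Real.log K + ε * Real.log 2 ≤ Real.log K + δ * Real.log 2 ∧
      ∀ c lam : ℝ, 0 ≤ c →
        (2 * K) ^ (c * lam ^ 2 / ε ^ 4) ≤ Real.exp (10 * c * Real.log (2 * K) ^ 5 * lam ^ 2 / δ ^ 4) := by
  have hK0 : 0 < K := by linarith
  have hlog2 : 0 < Real.log 2 := Real.log_pos (by norm_num)
  have hlogK : 0 ≤ Real.log K := Real.log_nonneg hK1
  obtain ⟨κ, hκ⟩ : ∃ κ, κ = Real.log (2 * K) := ⟨_, rfl⟩
  have hκ' : κ = Real.log 2 + Real.log K := by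
    rw [hκ, Real.log_mul (by norm_num) hK0.ne']
  have hκ0 : 0 < κ := by linarith
  rw [← hκ]
  have h69 := log_two_gt
  refine ⟨δ * Real.log 2 / κ, by positivity, ?_, ?_, ?_, ?_⟩
  · rw [div_le_one hκ0]
    have h1 : δ * Real.log 2 ≤ 1 * Real.log 2 := mul_le_mul_of_nonneg_right hδ1 hlog2.le
    linarith
  · have h1 : δ * Real.log 2 / κ * Real.log K ≤ δ * Real.log 2 := by
      rw [div_mul_eq_mul_div, div_le_iff₀ hκ0]
      exact mul_le_mul_of_nonneg_left (by linarith) (by positivity)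
    linarith [add_mul 1 (δ * Real.log 2 / κ) (Real.log K)]
  · have h1 : δ * Real.log 2 / κ * (Real.log K + Real.log 2) = δ * Real.log 2 := by
      rw [add_comm (Real.log K), ← hκ']
      field_simp
    linarith [add_mul 1 (δ * Real.log 2 / κ) (Real.log K),
      mul_add (δ * Real.log 2 / κ) (Real.log K) (Real.log 2)]
  · intro c lam hc
    rw [Real.rpow_def_of_pos (by positivity), ← hκ]
    refine Real.exp_le_exp.2 ?_
    have h2 : κ * (c * lam ^ 2 / (δ * Real.log 2 / κ) ^ 4) =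
        (c * κ ^ 5 * lam ^ 2 / δ ^ 4) * (1 / Real.log 2 ^ 4) := by
      field_simp
    have h3 : 10 * c * κ ^ 5 * lam ^ 2 / δ ^ 4 = (c * κ ^ 5 * lam ^ 2 / δ ^ 4) * 10 := by ring
    rw [h2, h3]
    refine mul_le_mul_of_nonneg_left ?_ (by positivity)
    rw [div_le_iff₀ (by positivity)]
    have h4 : (0.69 : ℝ) ^ 4 ≤ Real.log 2 ^ 4 := pow_le_pow_left₀ (by norm_num) h69.le 4
    norm_num at h4
    linarith

variable {Γ : Type u} [AddCommGroup Γ] [DecidableEq Γ]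

/-- **Rank `⌊log₂ K + δ⌋`, arbitrary abelian groups.** -/
theorem floor_gen {A : Finset Γ}
    (hA : A.Nonempty) {K : ℝ} (hK : ((A + A).card : ℝ) ≤ K * A.card)
    {δ : ℝ} (hδ : 0 < δ) (hδ1 : δ ≤ 1) :
    ∃ (d : ℕ) (v : Fin d → Γ) (L : Fin d → ℕ) (H : AddSubgroup Γ) (T : Finset Γ),
      d ≤ max 1 ⌊Real.logb 2 K + δ⌋₊ ∧
      Finite H ∧
      (∀ c c' : Fin d → ℤ, (∀ i, |c i| ≤ L i) → (∀ i, |c' i| ≤ L i) →
        ∑ i, c i • v i - ∑ i, c' i • v i ∈ H → c = c') ∧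
      (∏ i, (2 * L i + 1)) * Nat.card H ≤ A.card ∧
      (T.card : ℝ) ≤
        Real.exp (10 ^ 22 * Real.log (2 * K) ^ 5 * (1 + Real.log (1 + Real.log (2 * K))) ^ 2 / δ ^ 4) ∧
      ∀ a ∈ A, ∃ t ∈ T, ∃ c : Fin d → ℤ, (∀ i, |c i| ≤ L i) ∧
        ∃ h ∈ H, a = t + ∑ i, c i • v i + h := by
  have hN : (0 : ℝ) < A.card := by exact_mod_cast card_pos.2 hA
  have hK1 : 1 ≤ K := by
    have h1 : (A.card : ℝ) ≤ (A + A).card := by exact_mod_cast card_le_card_add_left hA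
    have h2 : 1 * (A.card : ℝ) ≤ K * A.card := by linarith
    exact le_of_mul_le_mul_right h2 hN
  obtain ⟨ε, hε, hε1, -, he, hb⟩ := eps_num hK1 hδ hδ1
  obtain ⟨d, v, L, H, T, h1, h2, h3, h4, h5, h6⟩ := gap_gen hA hK hε hε1
  refine ⟨d, v, L, H, T, ?_, h2, h3, h4, ?_, h6⟩
  · rcases h1 with h1 | h1
    · exact (show d ≤ 1 by exact_mod_cast h1).trans (le_max_left _ _)
    · refine le_trans ?_ (le_max_right _ _)
      refine Nat.le_floor ?_
      have hlog : 0 < Real.log 2 := Real.log_pos (by norm_num)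
      rw [Real.logb, div_add' _ _ _ hlog.ne', le_div_iff₀ hlog]
      exact h1.trans he
  · refine h5.trans ((hb (10 ^ 21) _ (by positivity)).trans (le_of_eq ?_))
    norm_num

/-- **Rank `⌊log₂ K + δ⌋`, torsion-free groups.** -/
theorem floor_tf [IsAddTorsionFree Γ] {A : Finset Γ}
    (hA : A.Nonempty) {K : ℝ} (hK : ((A + A).card : ℝ) ≤ K * A.card)
    {δ : ℝ} (hδ : 0 < δ) (hδ1 : δ ≤ 1) :
    ∃ (d : ℕ) (v : Fin d → Γ) (L : Fin d → ℕ) (T : Finset Γ),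
      d ≤ ⌊Real.logb 2 K + δ⌋₊ ∧
      (∀ c c' : Fin d → ℤ, (∀ i, |c i| ≤ L i) → (∀ i, |c' i| ≤ L i) →
        ∑ i, c i • v i = ∑ i, c' i • v i → c = c') ∧
      ∏ i, (2 * L i + 1) ≤ A.card ∧
      (T.card : ℝ) ≤
        Real.exp (10 ^ 24 * Real.log (2 * K) ^ 5 * (1 + Real.log (1 + Real.log (2 * K))) ^ 2 / δ ^ 4) ∧
      ∀ a ∈ A, ∃ t ∈ T, ∃ c : Fin d → ℤ, (∀ i, |c i| ≤ L i) ∧ a = t + ∑ i, c i • v i := by
  have hN : (0 : ℝ) < A.card := by exact_mod_cast card_pos.2 hA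
  have hK1 : 1 ≤ K := by
    have h1 : (A.card : ℝ) ≤ (A + A).card := by exact_mod_cast card_le_card_add_left hA
    have h2 : 1 * (A.card : ℝ) ≤ K * A.card := by linarith
    exact le_of_mul_le_mul_right h2 hN
  obtain ⟨ε, hε, hε1, he, -, hb⟩ := eps_num hK1 hδ hδ1
  obtain ⟨d, v, L, T, h1, h3, h4, h5, h6⟩ := gap_tf hA hK hε hε1
  refine ⟨d, v, L, T, ?_, h3, h4, ?_, h6⟩
  · refine Nat.le_floor ?_
    have hlog : 0 < Real.log 2 := Real.log_pos (by norm_num)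
    rw [Real.logb, div_add' _ _ _ hlog.ne', le_div_iff₀ hlog]
    exact h1.trans he
  · refine h5.trans ((hb (10 ^ 23) _ (by positivity)).trans (le_of_eq ?_))
    norm_num

end Pool.Agent.Run7.h127.SP
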