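import Pool.Agent.Run7.h127.SP.Final
import Pool.Agent.H112R2.Gap

/-!
# From norm balls to proper progressions
-/

set_option autoImplicit false
set_option linter.unusedSectionVars false

namespace Pool.Agent.Run7.h127.SP

open H112 Finset Pool.Agent.Run7.h127.SN
open scoped Pointwise

/-- **Covering a ball by translates of a box in it.** -/
theorem cover_box {m : ℕ} {N : Seminorm ℝ (Fin m → ℝ)} (hN : ∀ x, N x = 0 → x = 0) {r : ℝ}
    (hr : 0 < r) :
    ∃ (k : ℕ) (v : Fin k → (Fin m → ℤ)) (L : Fin k → ℕ) (Y : Finset (Fin m → ℤ)), k ≤ m ∧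
      (∀ c : Fin k → ℤ, ∑ i, c i • v i = 0 → c = 0) ∧
      (∀ c : Fin k → ℤ, (∀ i, |c i| ≤ L i) → ∑ i, c i • v i ∈ LL N r) ∧
      ∏ i, (2 * L i + 1) ≤ (LL N r).ncard ∧
      (Y.card : ℝ) ≤ (4 * m + 1) ^ m * (12 * m ^ 3) ^ m ∧
      ∀ c ∈ LL N r, ∃ y ∈ Y, ∃ e : Fin k → ℤ, (∀ i, |e i| ≤ L i) ∧ c = y + ∑ i, e i • v i := by
  classical
  obtain ⟨k, v, L, hkm, hlin, hgap, hcard⟩ := discrete_john N hr.le (LL_finite hN r)
  have hli : ∀ c : Fin k → ℤ, ∑ i, c i • v i = 0 → c = 0 := by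
    intro c hc
    have := Fintype.linearIndependent_iff.1 hlin c hc
    funext i
    exact this i
  have hinj : Function.Injective fun c : Fin k → ℤ => ∑ i, c i • v i := by
    intro a b hab
    have h0 : ∑ i, (a - b) i • v i = 0 := by
      simp only [Pi.sub_apply, sub_smul, Finset.sum_sub_distrib]
      exact sub_eq_zero.2 hab
    exact sub_eq_zero.1 (hli _ h0)
  have hbox : ∀ L₀ : Fin k → ℕ, (∀ i, L₀ i ≤ L i) → ((gapBox L₀).image fun c : Fin k → ℤ =>
      ∑ i, c i • v i).card = ∏ i, (2 * L₀ i + 1) ∧ ∀ q ∈ (gapBox L₀).image fun c : Fin k → ℤ =>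
      ∑ i, c i • v i, q ∈ LL N r := by
    intro L₀ h0
    constructor
    · rw [card_image_of_injective _ hinj, gap_card_box]
    · intro q hq
      obtain ⟨c, hc, rfl⟩ := mem_image.1 hq
      exact hgap c fun i => (gap_mem_box.1 hc i).trans (by exact_mod_cast h0 i)
  have c0 : ∀ s : ℝ, (LL_finite hN s).toFinset.card = (LL N s).ncard := fun s =>
    (Set.ncard_eq_toFinset_card _ _).symm
  refine ⟨k, v, L, ?_⟩
  obtain ⟨L', hL'⟩ : ∃ L' : Fin k → ℕ, L' = fun i => L i / 2 := ⟨_, rfl⟩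
  have hL'i : ∀ i, L' i = L i / 2 := fun i => by rw [hL']
  obtain ⟨Q, hQ⟩ : ∃ Q, Q = (gapBox L').image fun c : Fin k → ℤ => ∑ i, c i • v i := ⟨_, rfl⟩
  obtain ⟨hQc, hQr⟩ := hbox L' fun i => by rw [hL'i]; exact Nat.div_le_self _ _
  rw [← hQ] at hQc hQr
  have hQpos : Q.Nonempty := by
    rw [← Finset.card_pos, hQc]
    exact Finset.prod_pos fun i _ => by omega
  have hQge : (∏ i, (2 * L i + 1) : ℕ) ≤ 3 ^ k * Q.card := by
    rw [hQc]
    calc (∏ i, (2 * L i + 1) : ℕ) ≤ ∏ i, (3 * (2 * L' i + 1)) :=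
          Finset.prod_le_prod' fun i _ => by
            have : L i / 2 = L' i := (hL'i i).symm
            omega
      _ = 3 ^ k * ∏ i, (2 * L' i + 1) := by
          rw [Finset.prod_mul_distrib, Finset.prod_const, Finset.card_univ, Fintype.card_fin]
  have hkey1 : ((LL N r).ncard : ℝ) ≤ (12 * (m : ℝ) ^ 3) ^ m * Q.card := by
    have hc1 : ((LL N r).ncard : ℝ) ≤ (4 * (k : ℝ) ^ 3) ^ k * (3 ^ k * Q.card) := by
      calc ((LL N r).ncard : ℝ) ≤ (((4 * k ^ 3) ^ k * ∏ i, (2 * L i + 1) : ℕ) : ℝ) := by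
            exact_mod_cast hcard
        _ ≤ (((4 * k ^ 3) ^ k * (3 ^ k * Q.card) : ℕ) : ℝ) := by
            exact_mod_cast Nat.mul_le_mul_left _ hQge
        _ = (4 * (k : ℝ) ^ 3) ^ k * (3 ^ k * Q.card) := by push_cast; ring
    calc ((LL N r).ncard : ℝ) ≤ (4 * (k : ℝ) ^ 3) ^ k * (3 ^ k * Q.card) := hc1
      _ = (12 * (k : ℝ) ^ 3) ^ k * Q.card := by
          rw [← mul_assoc, ← mul_pow]
          ring_nf
      _ ≤ (12 * (m : ℝ) ^ 3) ^ m * Q.card :=
          mul_le_mul_of_nonneg_right (gap_pow_le hkm) (by positivity)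
  have hadd : (((LL_finite hN r).toFinset + Q).card : ℝ) ≤
      ((4 * m + 1) ^ m * (12 * m ^ 3) ^ m) * Q.card := by
    have hsub : (LL_finite hN r).toFinset + Q ⊆ (LL_finite hN (2 * r)).toFinset := by
      intro x hx
      obtain ⟨u, hu, w, hw, rfl⟩ := Finset.mem_add.1 hx
      have hw' := hQr w hw
      rw [Set.Finite.mem_toFinset] at hu ⊢
      rw [mem_LL] at hu hw' ⊢
      rw [cR_add]
      linarith [map_add_le_add N (cR u) (cR w)]
    have h1 : (((LL_finite hN r).toFinset + Q).card : ℝ) ≤ (LL N (2 * r)).ncard := by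
      rw [← c0]
      exact_mod_cast card_le_card hsub
    have h2 := doubling N (r := 2 * r) (by positivity) (LL_finite hN _)
    rw [mul_div_cancel_left₀ r (two_ne_zero)] at h2
    have h3 : ((LL N (2 * r)).ncard : ℝ) ≤ (4 * (m : ℝ) + 1) ^ m * (LL N r).ncard := by
      exact_mod_cast h2
    calc (((LL_finite hN r).toFinset + Q).card : ℝ)
        ≤ (4 * (m : ℝ) + 1) ^ m * (LL N r).ncard := h1.trans h3
      _ ≤ (4 * (m : ℝ) + 1) ^ m * ((12 * (m : ℝ) ^ 3) ^ m * Q.card) :=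
        mul_le_mul_of_nonneg_left hkey1 (by positivity)
      _ = _ := by ring
  obtain ⟨Y, _, hYc, hcov⟩ := Finset.ruzsa_covering_add hQpos hadd
  refine ⟨Y, hkm, hli, hgap, ?_, hYc, ?_⟩
  · obtain ⟨hb1, hb2⟩ := hbox L fun i => le_rfl
    rw [← hb1, ← c0]
    refine card_le_card fun q hq => ?_
    rw [Set.Finite.mem_toFinset]
    exact hb2 q hq
  · intro c hc
    have hc' : c ∈ (LL_finite hN r).toFinset := by rw [Set.Finite.mem_toFinset]; exact hc
    obtain ⟨y, hy, w, hw, rfl⟩ := Finset.mem_add.1 (hcov hc')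
    obtain ⟨p, hp, p', hp', rfl⟩ := Finset.mem_sub.1 hw
    rw [hQ] at hp hp'
    obtain ⟨e, he, rfl⟩ := mem_image.1 hp
    obtain ⟨e', he', rfl⟩ := mem_image.1 hp'
    refine ⟨y, hy, e - e', fun i => ?_, ?_⟩
    · have h3 := gap_mem_box.1 he i
      have h4 := gap_mem_box.1 he' i
      have h5 : (L' i : ℤ) + L' i ≤ L i := by
        have : L i / 2 = L' i := (hL'i i).symm
        omega
      rw [Pi.sub_apply]
      calc |e i - e' i| ≤ |e i| + |e' i| := abs_sub _ _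
        _ ≤ L i := by linarith
    · simp only [Pi.sub_apply, sub_smul, Finset.sum_sub_distrib]

/-- **Covering the unit ball by translates of a box of few points.** -/
theorem to_gap {m : ℕ} {N : Seminorm ℝ (Fin m → ℝ)} (hN : ∀ x, N x = 0 → x = 0) {a : ℕ}
    (ha : 1 ≤ a) {R : ℝ} (hR1 : 1 ≤ R) (hR : ((LL N 1).ncard : ℝ) ≤ R * a) :
    ∃ (k : ℕ) (v : Fin k → (Fin m → ℤ)) (L : Fin k → ℕ) (Y : Finset (Fin m → ℤ)), k ≤ m ∧
      (∀ c : Fin k → ℤ, ∑ i, c i • v i = 0 → c = 0) ∧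
      (∀ c : Fin k → ℤ, (∀ i, |c i| ≤ L i) → ∑ i, c i • v i ∈ LL N 1) ∧
      ∏ i, (2 * L i + 1) ≤ a ∧
      (Y.card : ℝ) ≤ ((4 * m + 1) ^ (3 * m) * R) * ((4 * m + 1) ^ m * (12 * m ^ 3) ^ m) ∧
      ∀ c ∈ LL N 1, ∃ y ∈ Y, ∃ e : Fin k → ℤ, (∀ i, |e i| ≤ L i) ∧ c = y + ∑ i, e i • v i := by
  classical
  obtain ⟨r, Y, hr0, hr1, hrc, hYc, hY⟩ : ∃ (r : ℝ) (Y : Finset (Fin m → ℤ)), 0 < r ∧ r ≤ 1 ∧
      (LL N r).ncard ≤ a ∧ (Y.card : ℝ) ≤ (4 * m + 1) ^ (3 * m) * R ∧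
      ∀ c ∈ LL N 1, ∃ y ∈ Y, c - y ∈ LL N r := by
    obtain ⟨r, Y, hr0, hrc, hYc, hY⟩ := shrink hN ha hR1 hR
    rcases le_total r 1 with hr1 | hr1
    · exact ⟨r, Y, hr0, hr1, hrc, hYc, hY⟩
    · refine ⟨1, {0}, one_pos, le_rfl, ?_, ?_, ?_⟩
      · exact (Set.ncard_le_ncard (LL_mono hr1) (LL_finite hN _)).trans hrc
      · rw [card_singleton, Nat.cast_one]
        have hbase : (1 : ℝ) ≤ (4 * m + 1) ^ (3 * m) := one_le_pow₀ (by
          have : (0 : ℝ) ≤ m := by positivity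
          linarith)
        calc (1 : ℝ) = 1 * 1 := by norm_num
          _ ≤ _ := mul_le_mul hbase hR1 zero_le_one (by positivity)
      · intro c hc
        exact ⟨0, mem_singleton_self _, by rwa [sub_zero]⟩
  obtain ⟨k, v, L, Z, hkm, hli, hbox, hprod, hZ, hcov⟩ := cover_box hN hr0
  refine ⟨k, v, L, Y + Z, hkm, hli, fun c hc => LL_mono hr1 (hbox c hc), hprod.trans hrc, ?_, ?_⟩
  · calc ((Y + Z).card : ℝ) ≤ Y.card * Z.card := by exact_mod_cast card_add_le
      _ ≤ _ := mul_le_mul hYc hZ (by positivity) (by positivity)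
  · intro c hc
    obtain ⟨y, hy, hyc⟩ := hY c hc
    obtain ⟨z, hz, e, he, hec⟩ := hcov _ hyc
    refine ⟨y + z, add_mem_add hy hz, e, he, ?_⟩
    rw [add_assoc, ← hec]
    abel

variable {G : Type*} [AddCommGroup G] [DecidableEq G]

/-- **A large subgroup is covered by translates of a proper coset progression of rank at most one.** -/
theorem big_subgroup2 (H₀ : AddSubgroup G) (hfin : Finite H₀) {a : ℕ} (ha : 1 ≤ a)
    (hbig : a < Nat.card H₀) :
    ∃ (l : ℕ) (g : G) (H₁ : AddSubgroup G) (T : Finset G), Finite H₁ ∧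
      (2 * l + 1) * Nat.card H₁ ≤ a ∧ (T.card : ℝ) * a ≤ 6 * Nat.card H₀ ∧
      (∀ c c' : ℤ, |c| ≤ l → |c'| ≤ l → c • g - c' • g ∈ H₁ → c = c') ∧
      ∀ h ∈ H₀, ∃ t ∈ T, ∃ c : ℤ, |c| ≤ l ∧ ∃ h' ∈ H₁, h = t + c • g + h' := by
  classical
  obtain ⟨l, g, H₁, T, hfin1, hle, hvol, hT, hcov⟩ := big_subgroup H₀ hfin ha hbig
  by_cases hp : ∀ n : ℕ, 0 < n → n ≤ 2 * l → n • g ∉ H₁
  · refine ⟨l, g, H₁, T, hfin1, hvol, hT, ?_, hcov⟩
    intro c c' hc hc' hcc
    by_contra hne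
    have h1 : (c - c') • g ∈ H₁ := by rwa [sub_smul]
    have h2 : (c - c').natAbs • g ∈ H₁ := by
      rcases Int.natAbs_eq (c - c') with h | h
      · rw [h, natCast_zsmul] at h1
        exact h1
      · rw [h, neg_smul, natCast_zsmul] at h1
        exact (neg_mem_iff (H := H₁)).1 h1
    have h3 := abs_le.1 hc
    have h4 := abs_le.1 hc'
    exact hp _ (by omega) (by omega) h2
  · push Not at hp
    obtain ⟨n, hn0, hnl, hn⟩ := hp
    have hc := cover_sup_card H₁ g hn0 hn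
    have hfin2 : Finite (H₁ ⊔ AddSubgroup.zmultiples g : AddSubgroup G) := by
      by_contra hinf
      rw [not_finite_iff_infinite] at hinf
      -- every element of the sum is `j • g + h` with `j < n`
      have h0 : ((H₁ ⊔ AddSubgroup.zmultiples g : AddSubgroup G) : Set G) ⊆
          (fun p : ℤ × G => p.1 • g + p.2) '' ((Finset.Icc 0 (n : ℤ) : Set ℤ) ×ˢ (H₁ : Set G)) := by
        intro x hx
        obtain ⟨y, hy, z, hz, rfl⟩ := AddSubgroup.mem_sup.1 hx
        obtain ⟨j, rfl⟩ := AddSubgroup.mem_zmultiples_iff.1 hz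
        refine ⟨(j % n, y + (j / n) • (n • g)), ⟨?_, ?_⟩, ?_⟩
        · rw [Finset.coe_Icc, Set.mem_Icc]
          exact ⟨Int.emod_nonneg j (by omega), (Int.emod_lt_of_pos j (by omega)).le⟩
        · exact H₁.add_mem hy (H₁.zsmul_mem hn _)
        · have e1 : j • g = (j % n) • g + (j / n) • (n • g) := by
            rw [← natCast_zsmul, ← mul_smul, ← add_smul, mul_comm (j / n) (n : ℤ),
              Int.emod_add_mul_ediv]
          show (j % n) • g + (y + (j / n) • (n • g)) = y + j • g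
          rw [e1]
          abel
      have h1 : ((H₁ ⊔ AddSubgroup.zmultiples g : AddSubgroup G) : Set G).Finite :=
        Set.Finite.subset (Set.Finite.image _
          ((Finset.finite_toSet (Finset.Icc 0 (n : ℤ))).prod (Set.toFinite _))) h0
      exact hinf.not_finite h1.to_subtype
    refine ⟨0, g, H₁ ⊔ AddSubgroup.zmultiples g, T, hfin2, ?_, hT, ?_, ?_⟩
    · calc (2 * 0 + 1) * Nat.card (H₁ ⊔ AddSubgroup.zmultiples g : AddSubgroup G)
          = Nat.card (H₁ ⊔ AddSubgroup.zmultiples g : AddSubgroup G) := by ring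
        _ ≤ n * Nat.card H₁ := hc
        _ ≤ (2 * l + 1) * Nat.card H₁ := Nat.mul_le_mul_right _ (by omega)
        _ ≤ a := hvol
    · intro c c' hc hc' _
      have h1 := abs_le.1 hc
      have h2 := abs_le.1 hc'
      omega
    · intro h hh
      obtain ⟨t, ht, c, _, h', hh', e⟩ := hcov h hh
      refine ⟨t, ht, 0, by simp, c • g + h', ?_, ?_⟩
      · refine AddSubgroup.add_mem _ ?_ ?_
        · exact (le_sup_right : AddSubgroup.zmultiples g ≤ _)
            (AddSubgroup.zsmul_mem _ (AddSubgroup.mem_zmultiples _) _)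
        · exact (le_sup_left : H₁ ≤ _) hh'
      · rw [e, zero_smul, add_zero, add_assoc]

end Pool.Agent.Run7.h127.SP
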