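import Mathlib

/-!
# Marton's conjecture in groups of prime exponent: boxes
-/

set_option autoImplicit false

namespace Pool.Agent.Run7.h127.SP

open Finset
open scoped Pointwise

/-- a box in `𝔽_p ^ d` has at most `x ^ j` points in a coset of a subgroup of `p ^ j` elements -/
lemma sub_box {p : ℕ} [hp : Fact p.Prime] {x : ℕ} (I : Finset (ZMod p))
    (hI : I.card ≤ x) (d : ℕ) :
    ∀ H : AddSubgroup (Fin d → ZMod p), ∃ j, Nat.card H = p ^ j ∧
      ∀ (y : Fin d → ZMod p) (F : Finset (Fin d → ZMod p)), (∀ a ∈ F, ∀ i, a i ∈ I) →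
        (∀ a ∈ F, a - y ∈ H) → F.card ≤ x ^ j := by
  classical
  induction d with
  | zero =>
    intro H
    refine ⟨0, ?_, ?_⟩
    · rw [pow_zero, Nat.card_eq_one_iff_unique]
      exact ⟨inferInstance, ⟨0⟩⟩
    · intro y F _ _
      rw [pow_zero, Finset.card_le_one]
      intro a _ b _
      exact Subsingleton.elim _ _
  | succ d ih =>
    intro H
    obtain ⟨ι, hι⟩ : ∃ ι : (Fin d → ZMod p) →+ (Fin (d + 1) → ZMod p),
        ∀ c, ι c = Fin.cons 0 c := by
      refine ⟨{ toFun := fun c => Fin.cons 0 c, map_zero' := ?_, map_add' := ?_ }, fun c => rfl⟩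
      · funext i
        refine Fin.cases ?_ (fun i => ?_) i <;> simp
      · intro a b
        funext i
        refine Fin.cases ?_ (fun i => ?_) i <;> simp
    obtain ⟨f, hf⟩ : ∃ f : H →+ ZMod p, ∀ h : H, f h = h.1 0 :=
      ⟨(Pi.evalAddMonoidHom (fun _ : Fin (d + 1) => ZMod p) 0).comp H.subtype, fun h => rfl⟩
    obtain ⟨j, hj, hF⟩ := ih (H.comap ι)
    have hcard : Nat.card H = Nat.card f.ker * Nat.card f.range := by
      rw [← AddSubgroup.index_ker f, AddSubgroup.card_mul_index]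
    have htail : ∀ h : Fin (d + 1) → ZMod p, h 0 = 0 → ι (Fin.tail h) = h := by
      intro h h0
      rw [hι]
      conv_rhs => rw [← Fin.cons_self_tail h, h0]
    have hker : Nat.card f.ker = Nat.card (H.comap ι) := by
      refine Nat.card_congr
        ⟨fun h => ⟨Fin.tail h.1.1, ?_⟩, fun c => ⟨⟨ι c.1, c.2⟩, ?_⟩, ?_, ?_⟩
      · have h0 : h.1.1 0 = 0 := by
          rw [← hf]
          exact h.2
        rw [AddSubgroup.mem_comap, htail _ h0]
        exact h.1.2
      · rw [AddMonoidHom.mem_ker, hf]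
        simp [hι]
      · intro h
        have h0 : h.1.1 0 = 0 := by
          rw [← hf]
          exact h.2
        refine Subtype.ext (Subtype.ext ?_)
        exact htail _ h0
      · intro c
        refine Subtype.ext ?_
        simp only [hι]
        exact Fin.tail_cons _ _
    rw [hker, hj] at hcard
    -- the fibres of the first coordinate
    have hfib : ∀ (y : Fin (d + 1) → ZMod p) (F : Finset (Fin (d + 1) → ZMod p)),
        (∀ a ∈ F, ∀ i, a i ∈ I) → (∀ a ∈ F, a - y ∈ H) →
        F.card ≤ x ^ j * (F.image fun a => a 0).card := by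
      intro y F h1 h2
      refine Finset.card_le_mul_card_image F _ ?_
      intro u hu
      obtain ⟨a₀, ha₀, rfl⟩ := mem_image.1 hu
      have hinj : Set.InjOn (fun a : Fin (d + 1) → ZMod p => Fin.tail a)
          (F.filter fun a => a 0 = a₀ 0 : Finset _) := by
        intro a ha b hb hab
        have ha' := (mem_filter.1 (mem_coe.1 ha)).2
        have hb' := (mem_filter.1 (mem_coe.1 hb)).2
        rw [← Fin.cons_self_tail a, ← Fin.cons_self_tail b, ha', hb']
        exact congrArg _ hab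
      rw [← Finset.card_image_of_injOn hinj]
      refine hF (Fin.tail a₀) _ ?_ ?_
      · intro c hc i
        obtain ⟨a, ha, rfl⟩ := mem_image.1 hc
        exact h1 a (mem_filter.1 ha).1 i.succ
      · intro c hc
        obtain ⟨a, ha, rfl⟩ := mem_image.1 hc
        obtain ⟨ha1, ha2⟩ := mem_filter.1 ha
        have h3 : a - a₀ ∈ H := by
          have := sub_mem (h2 a ha1) (h2 a₀ ha₀)
          rwa [sub_sub_sub_cancel_right] at this
        have h4 : Fin.tail a - Fin.tail a₀ = Fin.tail (a - a₀) := rfl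
        rw [AddSubgroup.mem_comap, h4, htail _ (by rw [Pi.sub_apply, ha2, sub_self])]
        exact h3
    have hdvd : Nat.card f.range ∣ p := by
      have := AddSubgroup.card_addSubgroup_dvd_card f.range
      rwa [Nat.card_zmod] at this
    rcases (Nat.dvd_prime hp.out).1 hdvd with h1 | h1
    · refine ⟨j, by rw [hcard, h1, mul_one], ?_⟩
      intro y F hF1 hF2
      refine (hfib y F hF1 hF2).trans ?_
      have h5 : (F.image fun a => a 0).card ≤ 1 := by
        rw [Finset.card_le_one]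
        have h6 : ∀ a ∈ F, a 0 = y 0 := by
          intro a ha
          have h7 : f ⟨a - y, hF2 a ha⟩ ∈ f.range := ⟨_, rfl⟩
          have h8 : f.range = ⊥ := AddSubgroup.eq_bot_of_card_eq _ h1
          rw [h8, AddSubgroup.mem_bot, hf] at h7
          exact sub_eq_zero.1 h7
        intro u hu w hw
        obtain ⟨a, ha, rfl⟩ := mem_image.1 hu
        obtain ⟨b, hb, rfl⟩ := mem_image.1 hw
        rw [h6 a ha, h6 b hb]
      calc x ^ j * (F.image fun a => a 0).card ≤ x ^ j * 1 := Nat.mul_le_mul_left _ h5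
        _ = x ^ j := mul_one _
    · refine ⟨j + 1, by rw [hcard, h1, pow_succ], ?_⟩
      intro y F hF1 hF2
      refine (hfib y F hF1 hF2).trans ?_
      rw [pow_succ]
      refine Nat.mul_le_mul_left _ (le_trans (card_le_card ?_) hI)
      intro u hu
      obtain ⟨a, ha, rfl⟩ := mem_image.1 hu
      exact hF1 a ha 0

/-- the product of the halves -/
lemma half_mul (n : ℕ) : (n + 1) / 2 * (n / 2 + 1) = (n + 1) ^ 2 / 4 := by
  symm
  rcases Nat.even_or_odd' n with ⟨k, hk | hk⟩
  · have e1 : (n + 1) / 2 = k := by omega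
    have e2 : n / 2 + 1 = k + 1 := by omega
    rw [e1, e2, hk]
    apply Nat.div_eq_of_lt_le <;> nlinarith
  · have e1 : (n + 1) / 2 = k + 1 := by omega
    have e2 : n / 2 + 1 = k + 1 := by omega
    rw [e1, e2, hk]
    apply Nat.div_eq_of_lt_le <;> nlinarith

/-- the side of the box -/
lemma side {p d r : ℕ} (hp : 2 ≤ p) (hd : 1 ≤ d) (hr : 1 ≤ r) (hrd : r ≤ d) :
    ∃ x : ℕ, 1 ≤ x ∧ x ≤ p ∧ x ^ d < p ^ r ∧ p ^ r ≤ (2 * x) ^ d := by
  have hex : ∃ y : ℕ, p ^ r ≤ y ^ d :=
    ⟨p ^ r, by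
      calc p ^ r = (p ^ r) ^ 1 := (pow_one _).symm
        _ ≤ (p ^ r) ^ d := Nat.pow_le_pow_right (by positivity) hd⟩
  classical
  obtain ⟨y, hy⟩ : ∃ y, y = Nat.find hex := ⟨_, rfl⟩
  have h1 : p ^ r ≤ y ^ d := by rw [hy]; exact Nat.find_spec hex
  have h2 : ∀ z, z < y → z ^ d < p ^ r := by
    intro z hz
    rw [hy] at hz
    exact not_le.1 (Nat.find_min hex hz)
  have h3 : 2 ≤ p ^ r := by
    calc 2 ≤ p := hp
      _ = p ^ 1 := (pow_one _).symm
      _ ≤ p ^ r := Nat.pow_le_pow_right (by omega) hr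
  have h4 : 2 ≤ y := by
    by_contra hcon
    have h5 : y ≤ 1 := by omega
    have h6 : y ^ d ≤ 1 ^ d := Nat.pow_le_pow_left h5 d
    rw [one_pow] at h6
    omega
  refine ⟨y - 1, by omega, ?_, h2 _ (by omega), ?_⟩
  · have h5 : (y - 1) ^ d < p ^ d := (h2 _ (by omega)).trans_le (Nat.pow_le_pow_right (by omega) hrd)
    exact (lt_of_pow_lt_pow_left₀ d (by omega) h5).le
  · exact h1.trans (Nat.pow_le_pow_left (by omega) d)

/-- the box `[0, x) ^ d` in `(ℤ/m) ^ d` -/
lemma box {m x : ℕ} (hx1 : 1 ≤ x) (hxm : x ≤ m) (d : ℕ) (I : Finset (ZMod m))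
    (hI : I = (range x).image (Nat.cast : ℕ → ZMod m)) :
    I.card = x ∧ ∃ A : Finset (Fin d → ZMod m), A.Nonempty ∧ (A + A).card ≤ 2 ^ d * A.card ∧
      A.card = x ^ d ∧ ∀ a ∈ A, ∀ i, a i ∈ I := by
  classical
  have hIc : I.card = x := by
    rw [hI, card_image_of_injOn, card_range]
    intro a ha b hb hab
    rw [mem_coe, mem_range] at ha hb
    have h1 := congrArg ZMod.val hab
    rwa [ZMod.val_natCast_of_lt (by omega), ZMod.val_natCast_of_lt (by omega)] at h1
  have hII : (I + I).card ≤ 2 * x := by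
    have h1 : I + I ⊆ (range (2 * x)).image (Nat.cast : ℕ → ZMod m) := by
      intro z hz
      obtain ⟨u, hu, w, hw, rfl⟩ := Finset.mem_add.1 hz
      rw [hI] at hu hw
      obtain ⟨a, ha, rfl⟩ := mem_image.1 hu
      obtain ⟨b, hb, rfl⟩ := mem_image.1 hw
      have ha' := mem_range.1 ha
      have hb' := mem_range.1 hb
      exact mem_image.2 ⟨a + b, mem_range.2 (by omega), by push_cast; rfl⟩
    exact (card_le_card h1).trans (card_image_le.trans (by rw [card_range]))
  refine ⟨hIc, ?_⟩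
  obtain ⟨A, hA⟩ : ∃ A : Finset (Fin d → ZMod m), A = Fintype.piFinset fun _ => I := ⟨_, rfl⟩
  have hAc : A.card = x ^ d := by
    rw [hA, Fintype.card_piFinset, Finset.prod_const, Finset.card_univ, Fintype.card_fin, hIc]
  have hmemA : ∀ a ∈ A, ∀ i, a i ∈ I := by
    intro a ha i
    rw [hA, Fintype.mem_piFinset] at ha
    exact ha i
  refine ⟨A, ?_, ?_, hAc, hmemA⟩
  · rw [← Finset.card_pos, hAc]
    positivity
  · have h1 : A + A ⊆ Fintype.piFinset fun _ => I + I := by
      intro z hz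
      obtain ⟨a, ha, b, hb, rfl⟩ := Finset.mem_add.1 hz
      rw [Fintype.mem_piFinset]
      exact fun i => add_mem_add (hmemA a ha i) (hmemA b hb i)
    calc (A + A).card ≤ (Fintype.piFinset fun _ : Fin d => I + I).card := card_le_card h1
      _ = (I + I).card ^ d := by
        rw [Fintype.card_piFinset, Finset.prod_const, Finset.card_univ, Fintype.card_fin]
      _ ≤ (2 * x) ^ d := Nat.pow_le_pow_left hII d
      _ = 2 ^ d * A.card := by rw [hAc, mul_pow]

/-- a box of side at most `√m` in `(ℤ/m) ^ d` has at most `√|H|` points in a coset of `H` -/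
lemma sq_box {m x d : ℕ} [NeZero m] (hx : x * x ≤ m) (H : AddSubgroup (Fin d → ZMod m))
    (y : Fin d → ZMod m) (F : Finset (Fin d → ZMod m))
    (hF : ∀ a ∈ F, ∀ i, a i ∈ (range x).image (Nat.cast : ℕ → ZMod m))
    (hy : ∀ a ∈ F, a - y ∈ H) : F.card * F.card ≤ Nat.card H := by
  classical
  obtain ⟨f, hf⟩ : ∃ f : F × F → H, f = fun p => ⟨(p.1.1 - y) + x • (p.2.1 - y),
      add_mem (hy _ p.1.2) (nsmul_mem (hy _ p.2.2) x)⟩ := ⟨_, rfl⟩
  have hinj : Function.Injective f := by
    rintro ⟨a, b⟩ ⟨a', b'⟩ hab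
    rw [hf] at hab
    have h1 : (a.1 - y) + x • (b.1 - y) = (a'.1 - y) + x • (b'.1 - y) := congrArg Subtype.val hab
    have h2 : ∀ i, a.1 i = a'.1 i ∧ b.1 i = b'.1 i := by
      intro i
      have h3 : a.1 i + x * b.1 i = a'.1 i + x * b'.1 i := by
        have h4 := congrFun h1 i
        simp only [Pi.add_apply, Pi.sub_apply, Pi.smul_apply] at h4
        rw [nsmul_eq_mul, nsmul_eq_mul] at h4
        linear_combination h4
      obtain ⟨α, hα, hα'⟩ := mem_image.1 (hF _ a.2 i)
      obtain ⟨β, hβ, hβ'⟩ := mem_image.1 (hF _ b.2 i)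
      obtain ⟨γ, hγ, hγ'⟩ := mem_image.1 (hF _ a'.2 i)
      obtain ⟨δ, hδ, hδ'⟩ := mem_image.1 (hF _ b'.2 i)
      rw [mem_range] at hα hβ hγ hδ
      rw [← hα', ← hβ', ← hγ', ← hδ'] at h3
      have h5 : ((α + x * β : ℕ) : ZMod m) = ((γ + x * δ : ℕ) : ZMod m) := by
        push_cast
        exact h3
      have hlt : ∀ u w : ℕ, u < x → w < x → u + x * w < m := by
        intro u w hu hw
        calc u + x * w < x + x * w := by omega
          _ = x * (w + 1) := by ring
          _ ≤ x * x := Nat.mul_le_mul_left _ hw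
          _ ≤ m := hx
      have h6 := congrArg ZMod.val h5
      rw [ZMod.val_natCast_of_lt (hlt _ _ hα hβ), ZMod.val_natCast_of_lt (hlt _ _ hγ hδ)] at h6
      have h7 : α = γ := by
        have h8 := congrArg (· % x) h6
        simp only [Nat.add_mul_mod_self_left] at h8
        rwa [Nat.mod_eq_of_lt hα, Nat.mod_eq_of_lt hγ] at h8
      have h9 : β = δ := by
        rw [h7] at h6
        exact Nat.eq_of_mul_eq_mul_left (by omega) (Nat.add_left_cancel h6)
      exact ⟨by rw [← hα', ← hγ', h7], by rw [← hβ', ← hδ', h9]⟩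
    refine Prod.ext (Subtype.ext (funext fun i => (h2 i).1)) (Subtype.ext (funext fun i => (h2 i).2))
  have h1 := Nat.card_le_card_of_injective f hinj
  rwa [Nat.card_prod, Nat.card_eq_fintype_card, Fintype.card_coe] at h1

/-- **Every modulus.** -/
theorem low_all {m : ℕ} (hm : 0 < m) (d : ℕ) :
    ∃ A : Finset (Fin d → ZMod m), A.Nonempty ∧ (A + A).card ≤ 2 ^ d * A.card ∧
      ∀ (H : AddSubgroup (Fin d → ZMod m)) (T : Finset (Fin d → ZMod m)),
        Nat.card H ≤ A.card → (∀ a ∈ A, ∃ t ∈ T, a - t ∈ H) →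
          Nat.sqrt m ^ d ≤ T.card ^ 2 := by
  classical
  have : NeZero m := ⟨hm.ne'⟩
  obtain ⟨x, hx⟩ : ∃ x, x = Nat.sqrt m := ⟨_, rfl⟩
  have hx1 : 1 ≤ x := by rw [hx]; exact Nat.sqrt_pos.2 hm
  have hxx : x * x ≤ m := by rw [hx]; exact Nat.sqrt_le m
  have hxm : x ≤ m := by rw [hx]; exact Nat.sqrt_le_self m
  obtain ⟨I, hI⟩ : ∃ I : Finset (ZMod m), I = (range x).image (Nat.cast : ℕ → ZMod m) := ⟨_, rfl⟩
  obtain ⟨-, A, hAne, hAA, hAc, hmem⟩ := box hx1 hxm d I hI
  refine ⟨A, hAne, hAA, fun H T hH hcov => ?_⟩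
  rw [← hx]
  obtain ⟨r, hr⟩ : ∃ r, r = Nat.sqrt (x ^ d) := ⟨_, rfl⟩
  have h1 : A.card ≤ T.card * r := by
    have h2 : A ⊆ T.biUnion fun t => A.filter fun a => a - t ∈ H := by
      intro a ha
      obtain ⟨t, ht, hat⟩ := hcov a ha
      exact mem_biUnion.2 ⟨t, ht, mem_filter.2 ⟨ha, hat⟩⟩
    refine (card_le_card h2).trans (card_biUnion_le.trans ?_)
    rw [← smul_eq_mul, ← Finset.sum_const]
    refine Finset.sum_le_sum fun t _ => ?_
    have h3 := sq_box hxx H t (A.filter fun a => a - t ∈ H)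
      (fun a ha i => hI ▸ hmem a (mem_filter.1 ha).1 i) (fun a ha => (mem_filter.1 ha).2)
    rw [hr, Nat.le_sqrt]
    exact h3.trans (hH.trans hAc.le)
  rw [hAc] at h1
  have h4 : r * r ≤ x ^ d := by rw [hr]; exact Nat.sqrt_le _
  have h5 : 0 < x ^ d := by positivity
  have h6 : x ^ d * x ^ d ≤ T.card ^ 2 * x ^ d := by
    calc x ^ d * x ^ d ≤ (T.card * r) * (T.card * r) := Nat.mul_le_mul h1 h1
      _ = T.card ^ 2 * (r * r) := by ring
      _ ≤ T.card ^ 2 * x ^ d := Nat.mul_le_mul_left _ h4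
  exact Nat.le_of_mul_le_mul_right h6 h5

/-- **Boxes in `𝔽_p ^ d` need many cosets.** -/
theorem low {p d : ℕ} (hp : p.Prime) (hd : 1 ≤ d) :
    ∃ A : Finset (Fin d → ZMod p), A.Nonempty ∧ (A + A).card ≤ 2 ^ d * A.card ∧
      ∀ (H : AddSubgroup (Fin d → ZMod p)) (T : Finset (Fin d → ZMod p)),
        Nat.card H ≤ A.card → (∀ a ∈ A, ∃ t ∈ T, a - t ∈ H) →
          (p : ℝ) ^ ((((d + 1) ^ 2 / 4 : ℕ) : ℝ) / d) ≤ 2 ^ (d / 2 + 1) * T.card := by
  classical
  have : Fact p.Prime := ⟨hp⟩
  have hp2 := hp.two_le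
  obtain ⟨r, hr⟩ : ∃ r, r = (d + 1) / 2 := ⟨_, rfl⟩
  obtain ⟨x, hx1, hxp, hx2, hx3⟩ := side (r := r) hp2 hd (by omega) (by omega)
  obtain ⟨I, hI⟩ : ∃ I : Finset (ZMod p), I = (range x).image (Nat.cast : ℕ → ZMod p) := ⟨_, rfl⟩
  obtain ⟨hIc, A, hAne, hAA, hAc, hmemA⟩ := box hx1 hxp d I hI
  refine ⟨A, hAne, hAA, ?_⟩
  · intro H T hH hcov
    obtain ⟨j, hj, hbound⟩ := sub_box I hIc.le d H
    have hjr : j < r := by
      have h1 : p ^ j < p ^ r := by
        rw [← hj]
        exact hH.trans_lt (by rw [hAc]; exact hx2)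
      exact (Nat.pow_lt_pow_iff_right hp2).1 h1
    -- the covering
    have h1 : A.card ≤ T.card * x ^ (r - 1) := by
      have h2 : A ⊆ T.biUnion fun t => A.filter fun a => a - t ∈ H := by
        intro a ha
        obtain ⟨t, ht, hat⟩ := hcov a ha
        exact mem_biUnion.2 ⟨t, ht, mem_filter.2 ⟨ha, hat⟩⟩
      refine (card_le_card h2).trans (card_biUnion_le.trans ?_)
      rw [← smul_eq_mul, ← Finset.sum_const]
      refine Finset.sum_le_sum fun t _ => ?_
      refine (hbound t _ (fun a ha => hmemA a (mem_filter.1 ha).1)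
        (fun a ha => (mem_filter.1 ha).2)).trans ?_
      exact Nat.pow_le_pow_right hx1 (by omega)
    obtain ⟨e, he⟩ : ∃ e, e = d / 2 + 1 := ⟨_, rfl⟩
    have hde : x ^ d = x ^ e * x ^ (r - 1) := by
      rw [← pow_add]
      congr 1
      omega
    have h2 : x ^ e ≤ T.card := by
      rw [hAc, hde] at h1
      exact Nat.le_of_mul_le_mul_right h1 (by positivity)
    have h3 : r * e = (d + 1) ^ 2 / 4 := by rw [hr, he]; exact half_mul d
    have h4 : p ^ ((d + 1) ^ 2 / 4) ≤ (2 ^ e * T.card) ^ d := by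
      rw [← h3, pow_mul]
      calc (p ^ r) ^ e ≤ ((2 * x) ^ d) ^ e := Nat.pow_le_pow_left hx3 e
        _ = (2 ^ e * x ^ e) ^ d := by
          rw [← mul_pow, ← pow_mul, ← pow_mul, mul_comm d e]
        _ ≤ (2 ^ e * T.card) ^ d := Nat.pow_le_pow_left (Nat.mul_le_mul_left _ h2) d
    have hd0 : (0 : ℝ) < d := by exact_mod_cast hd
    have h5 : (p : ℝ) ^ (((d + 1) ^ 2 / 4 : ℕ) : ℝ) ≤ ((2 : ℝ) ^ e * T.card) ^ (d : ℝ) := by
      rw [Real.rpow_natCast, Real.rpow_natCast]
      exact_mod_cast h4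
    have h6 := Real.rpow_le_rpow (by positivity) h5 (z := 1 / (d : ℝ)) (by positivity)
    rw [← Real.rpow_mul (by positivity), ← Real.rpow_mul (by positivity),
      mul_one_div_cancel hd0.ne', Real.rpow_one, mul_one_div, he] at h6
    exact h6

/-- **The lower bound for every doubling constant.** -/
theorem low_K {p : ℕ} {K : ℝ} (hp : p.Prime) (hK : 1 < K) {d : ℕ}
    (hd : d = max 1 ⌊Real.logb 2 K⌋₊) :
    ∃ A : Finset (Fin d → ZMod p), A.Nonempty ∧ ((A + A).card : ℝ) ≤ K * A.card ∧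
      ∀ (H : AddSubgroup (Fin d → ZMod p)) (T : Finset (Fin d → ZMod p)),
        Nat.card H ≤ A.card → (∀ a ∈ A, ∃ t ∈ T, a - t ∈ H) →
          (K - 1) / (2 * K ^ 2) * (p : ℝ) ^ ((((d + 1) ^ 2 / 4 : ℕ) : ℝ) / d) ≤ T.card := by
  classical
  have hd1 : 1 ≤ d := by rw [hd]; exact le_max_left _ _
  have hK0 : 0 < K := by linarith
  have hp2 : (2 : ℝ) ≤ p := by exact_mod_cast hp.two_le
  rcases le_or_gt 2 K with hK2 | hK2
  · obtain ⟨A, hAne, hAA, hA⟩ := low hp hd1
    have hdK : (2 : ℝ) ^ d ≤ K := by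
      have h1 : (1 : ℝ) ≤ Real.logb 2 K := by
        rw [Real.le_logb_iff_rpow_le (by norm_num) hK0, Real.rpow_one]
        exact hK2
      have h2 : 1 ≤ ⌊Real.logb 2 K⌋₊ := Nat.le_floor (by exact_mod_cast h1)
      rw [max_eq_right h2] at hd
      have h3 : (d : ℝ) ≤ Real.logb 2 K := by
        rw [hd]
        exact Nat.floor_le (by linarith)
      rw [Real.le_logb_iff_rpow_le (by norm_num) hK0, Real.rpow_natCast] at h3
      exact h3
    refine ⟨A, hAne, ?_, fun H T hH hcov => ?_⟩
    · calc ((A + A).card : ℝ) ≤ ((2 ^ d * A.card : ℕ) : ℝ) := by exact_mod_cast hAA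
        _ = (2 : ℝ) ^ d * A.card := by push_cast; ring
        _ ≤ K * A.card := mul_le_mul_of_nonneg_right hdK (by positivity)
    · have h1 := hA H T hH hcov
      have h2 : (2 : ℝ) ^ (d / 2 + 1) ≤ 2 * K := by
        have h3 : (2 : ℝ) ^ (d / 2) ≤ 2 ^ d := pow_le_pow_right₀ (by norm_num) (Nat.div_le_self _ _)
        rw [pow_succ]
        linarith
      have h4 : (K - 1) / (2 * K ^ 2) ≤ 1 / (2 * K) := by
        rw [div_le_div_iff₀ (by positivity) (by positivity)]
        nlinarith
      calc (K - 1) / (2 * K ^ 2) * (p : ℝ) ^ ((((d + 1) ^ 2 / 4 : ℕ) : ℝ) / d)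
          ≤ 1 / (2 * K) * (2 ^ (d / 2 + 1) * T.card) :=
            mul_le_mul h4 h1 (by positivity) (by positivity)
        _ ≤ 1 / (2 * K) * (2 * K * T.card) := by
            refine mul_le_mul_of_nonneg_left ?_ (by positivity)
            exact mul_le_mul_of_nonneg_right h2 (by positivity)
        _ = T.card := by
            field_simp
  · have hdd : d = 1 := by
      rw [hd]
      refine max_eq_left ?_
      have h1 : Real.logb 2 K < 1 := by
        rw [Real.logb_lt_iff_lt_rpow (by norm_num) hK0, Real.rpow_one]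
        exact hK2
      have h2 : ⌊Real.logb 2 K⌋₊ = 0 := by
        rw [Nat.floor_eq_zero]
        exact h1
      omega
    subst hdd
    have hexp : ((((1 + 1) ^ 2 / 4 : ℕ) : ℝ) / (1 : ℕ)) = 1 := by norm_num
    rw [hexp, Real.rpow_one]
    rcases le_or_gt K ((K - 1) * p) with hbig | hsmall
    · -- all nonzero elements
      have : Fact p.Prime := ⟨hp⟩
      obtain ⟨A, hA⟩ : ∃ A : Finset (Fin 1 → ZMod p), A = univ.erase 0 := ⟨_, rfl⟩
      have hAc : A.card = p - 1 := by
        rw [hA, card_erase_of_mem (mem_univ _), Finset.card_univ, Fintype.card_fun, ZMod.card,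
          Fintype.card_fin, pow_one]
      have hp1 : 1 ≤ p - 1 := by
        have := hp.two_le
        omega
      have hAcR : (A.card : ℝ) = p - 1 := by
        rw [hAc, Nat.cast_sub hp.one_lt.le, Nat.cast_one]
      refine ⟨A, ?_, ?_, fun H T hH hcov => ?_⟩
      · rw [← Finset.card_pos, hAc]
        omega
      · have h1 : (A + A).card ≤ p := by
          calc (A + A).card ≤ (univ : Finset (Fin 1 → ZMod p)).card := card_le_card (subset_univ _)
            _ = p := by
              rw [Finset.card_univ, Fintype.card_fun, ZMod.card, Fintype.card_fin, pow_one]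
        calc ((A + A).card : ℝ) ≤ p := by exact_mod_cast h1
          _ ≤ K * A.card := by
            rw [hAcR]
            linarith
      · have hHc : Nat.card H = 1 := by
          have h1 : Nat.card H ∣ p := by
            have := AddSubgroup.card_addSubgroup_dvd_card H
            rwa [Nat.card_eq_fintype_card (α := Fin 1 → ZMod p), Fintype.card_fun, ZMod.card,
              Fintype.card_fin, pow_one] at this
          rcases (Nat.dvd_prime hp).1 h1 with h2 | h2
          · exact h2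
          · rw [hAc, h2] at hH
            have := hp.two_le
            omega
        have hbot : H = ⊥ := AddSubgroup.eq_bot_of_card_eq _ hHc
        have hAT : A ⊆ T := by
          intro a ha
          obtain ⟨t, ht, hat⟩ := hcov a ha
          rw [hbot, AddSubgroup.mem_bot, sub_eq_zero] at hat
          rw [hat]
          exact ht
        have h3 : (A.card : ℝ) ≤ T.card := by exact_mod_cast card_le_card hAT
        rw [hAcR] at h3
        have h4 : (K - 1) / (2 * K ^ 2) ≤ 1 / 2 := by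
          rw [div_le_div_iff₀ (by positivity) (by norm_num)]
          nlinarith
        calc (K - 1) / (2 * K ^ 2) * (p : ℝ) ≤ 1 / 2 * p :=
              mul_le_mul_of_nonneg_right h4 (by positivity)
          _ ≤ p - 1 := by linarith
          _ ≤ T.card := h3
    · refine ⟨{0}, singleton_nonempty _, ?_, fun H T hH hcov => ?_⟩
      · rw [Finset.singleton_add_singleton, card_singleton, card_singleton, Nat.cast_one]
        linarith
      · obtain ⟨t, ht, -⟩ := hcov 0 (mem_singleton_self _)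
        have h1 : (1 : ℝ) ≤ T.card := by exact_mod_cast card_pos.2 ⟨t, ht⟩
        refine le_trans ?_ h1
        rw [div_mul_eq_mul_div, div_le_one (by positivity)]
        nlinarith

end Pool.Agent.Run7.h127.SP
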