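import Pool.Agent.Run7.h127.SP.Gap

/-!
# Freiman–Ruzsa with sharp dimension: proper progressions
-/

set_option autoImplicit false
set_option linter.unusedSectionVars false

namespace Pool.Agent.Run7.h127.SP

open H112 Finset Pool.Agent.Run7.h127.SN
open scoped Pointwise

universe u

/-- the loss of the passage to a progression -/
lemma loss {m : ℕ} {κ lam : ℝ} (hκ : (0.69 : ℝ) < κ) (hlam : lam = 1 + Real.log (1 + κ))
    (hm : (m : ℝ) ≤ 300 * κ) :
    (4 * (m : ℝ) + 1) ^ (3 * m) * ((4 * (m : ℝ) + 1) ^ m * (12 * (m : ℝ) ^ 3) ^ m) ≤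
      Real.exp (16800 * lam * κ) := by
  have h1 : (12 * (m : ℝ) ^ 3) ^ m ≤ (4 * (m : ℝ) + 1) ^ (3 * m) := by
    rw [pow_mul]
    refine pow_le_pow_left₀ (by positivity) ?_ m
    have h2 : (0 : ℝ) ≤ m := by positivity
    have h3 : (4 * (m : ℝ) + 1) ^ 3 = 12 * (m : ℝ) ^ 3 + (52 * (m : ℝ) ^ 3 + 48 * (m : ℝ) ^ 2 +
      12 * m + 1) := by ring
    rw [h3]
    have : 0 ≤ 52 * (m : ℝ) ^ 3 + 48 * (m : ℝ) ^ 2 + 12 * m + 1 := by positivity
    linarith
  have h2 : (4 * (m : ℝ) + 1) ^ (3 * m) * ((4 * (m : ℝ) + 1) ^ m * (12 * (m : ℝ) ^ 3) ^ m) ≤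
      (4 * (m : ℝ) + 1) ^ (7 * m) := by
    calc (4 * (m : ℝ) + 1) ^ (3 * m) * ((4 * (m : ℝ) + 1) ^ m * (12 * (m : ℝ) ^ 3) ^ m)
        ≤ (4 * (m : ℝ) + 1) ^ (3 * m) * ((4 * (m : ℝ) + 1) ^ m * (4 * (m : ℝ) + 1) ^ (3 * m)) := by
          refine mul_le_mul_of_nonneg_left ?_ (by positivity)
          exact mul_le_mul_of_nonneg_left h1 (by positivity)
      _ = (4 * (m : ℝ) + 1) ^ (7 * m) := by
          rw [← pow_add, ← pow_add]
          congr 1
          ring
  have h3 : Real.log (4 * m + 1) ≤ 8 * lam := by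
    rw [hlam]
    exact log_4m_le hκ hm
  have hlam1 : 0 ≤ lam := by
    rw [hlam]
    have : 0 ≤ Real.log (1 + κ) := Real.log_nonneg (by linarith)
    linarith
  have h4 := pow_le_exp (x := 4 * (m : ℝ) + 1) (n := 7 * m) (c := 2100 * κ) (by positivity) h3
    (by push_cast; linarith) (by positivity)
  have h5 : 2100 * κ * (8 * lam) = 16800 * lam * κ := by ring
  rw [h5] at h4
  exact h2.trans h4

variable {Γ : Type u} [AddCommGroup Γ] [DecidableEq Γ]

/-- **From a proper ball to a proper progression.** -/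
theorem finish {A : Finset Γ} {m : ℕ} {N : Seminorm ℝ (Fin m → ℝ)} (hN : ∀ x, N x = 0 → x = 0)
    {ψ : (Fin m → ℤ) →+ Γ} {H : AddSubgroup Γ} {F : Finset Γ}
    (hcov : ∀ a ∈ A, ∃ f ∈ F, ∃ c ∈ LL N 1, ∃ h ∈ H, a = f + ψ c + h)
    (hpr : ∀ c : Fin m → ℤ, c ≠ 0 → N (cR c) ≤ 2 → ψ c ∉ H) {a : ℕ}
    (ha : 1 ≤ a) {R : ℝ} (hR1 : 1 ≤ R) (hR : ((LL N 1).ncard : ℝ) ≤ R * a) :
    ∃ (k : ℕ) (v : Fin k → Γ) (L : Fin k → ℕ) (T : Finset Γ), k ≤ m ∧
      (∀ c c' : Fin k → ℤ, (∀ i, |c i| ≤ L i) → (∀ i, |c' i| ≤ L i) →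
        ∑ i, c i • v i - ∑ i, c' i • v i ∈ H → c = c') ∧
      ∏ i, (2 * L i + 1) ≤ a ∧
      (T.card : ℝ) ≤ F.card *
        (((4 * m + 1) ^ (3 * m) * R) * ((4 * m + 1) ^ m * (12 * m ^ 3) ^ m)) ∧
      ∀ x ∈ A, ∃ t ∈ T, ∃ c : Fin k → ℤ, (∀ i, |c i| ≤ L i) ∧
        ∃ h ∈ H, x = t + ∑ i, c i • v i + h := by
  classical
  obtain ⟨k, v, L, Y, hkm, hli, hbox, hprod, hY, hcY⟩ := to_gap hN ha hR1 hR
  have hψ : ∀ c : Fin k → ℤ, ∑ i, c i • ψ (v i) = ψ (∑ i, c i • v i) := by
    intro c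
    rw [map_sum]
    exact Finset.sum_congr rfl fun i _ => (map_zsmul ψ _ _).symm
  refine ⟨k, fun i => ψ (v i), L, F + Y.image ψ, hkm, ?_, hprod, ?_, ?_⟩
  · intro c c' hc hc' hcc
    by_contra hne
    rw [hψ, hψ, ← map_sub] at hcc
    have h1 : ∑ i, c i • v i - ∑ i, c' i • v i = ∑ i, (c - c') i • v i := by
      simp only [Pi.sub_apply, sub_smul, Finset.sum_sub_distrib]
    refine hpr _ (fun h0 => hne ?_) ?_ hcc
    · rw [h1] at h0
      exact sub_eq_zero.1 (hli _ h0)
    · rw [cR_sub]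
      have h2 : N (cR (∑ i, c i • v i)) ≤ 1 := hbox c hc
      have h3 : N (cR (∑ i, c' i • v i)) ≤ 1 := hbox c' hc'
      linarith [map_sub_le_add N (cR (∑ i, c i • v i)) (cR (∑ i, c' i • v i))]
  · calc ((F + Y.image ψ).card : ℝ) ≤ F.card * Y.card := by
          exact_mod_cast card_add_le.trans (Nat.mul_le_mul_left _ card_image_le)
      _ ≤ _ := mul_le_mul_of_nonneg_left hY (by positivity)
  · intro x hx
    obtain ⟨f, hf, c, hc, h, hh, rfl⟩ := hcov x hx
    obtain ⟨y, hy, e, he, hec⟩ := hcY c hc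
    refine ⟨f + ψ y, add_mem_add hf (mem_image_of_mem ψ hy), e, he, h, hh, ?_⟩
    rw [hψ, hec, map_add]
    abel

/-- **Proper coset progressions.** -/
theorem gap_gen {A : Finset Γ}
    (hA : A.Nonempty) {K : ℝ} (hK : ((A + A).card : ℝ) ≤ K * A.card)
    {ε : ℝ} (hε : 0 < ε) (hε1 : ε ≤ 1) :
    ∃ (d : ℕ) (v : Fin d → Γ) (L : Fin d → ℕ) (H : AddSubgroup Γ) (T : Finset Γ),
      ((d : ℝ) ≤ 1 ∨ (d : ℝ) * Real.log 2 ≤ (1 + ε) * Real.log K + ε * Real.log 2) ∧
      Finite H ∧
      (∀ c c' : Fin d → ℤ, (∀ i, |c i| ≤ L i) → (∀ i, |c' i| ≤ L i) →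
        ∑ i, c i • v i - ∑ i, c' i • v i ∈ H → c = c') ∧
      (∏ i, (2 * L i + 1)) * Nat.card H ≤ A.card ∧
      (T.card : ℝ) ≤ (2 * K) ^ (10 ^ 21 * (1 + Real.log (1 + Real.log (2 * K))) ^ 2 / ε ^ 4) ∧
      ∀ a ∈ A, ∃ t ∈ T, ∃ c : Fin d → ℤ, (∀ i, |c i| ≤ L i) ∧
        ∃ h ∈ H, a = t + ∑ i, c i • v i + h := by
  classical
  have hN : (0 : ℝ) < A.card := by exact_mod_cast card_pos.2 hA
  have hK1 : 1 ≤ K := by
    have h1 : (A.card : ℝ) ≤ (A + A).card := by exact_mod_cast card_le_card_add_left hA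
    have h2 : 1 * (A.card : ℝ) ≤ K * A.card := by linarith
    exact le_of_mul_le_mul_right h2 hN
  have hK0 : 0 < K := by linarith
  obtain ⟨lam, hlam⟩ : ∃ lam, lam = 1 + Real.log (1 + Real.log (2 * K)) := ⟨_, rfl⟩
  obtain ⟨κ, hκ⟩ : ∃ κ, κ = Real.log (2 * K) := ⟨_, rfl⟩
  have hlam' : lam = 1 + Real.log (1 + κ) := by rw [hlam, hκ]
  have hlog2 : 0 < Real.log 2 := Real.log_pos (by norm_num)
  have hlogK : 0 ≤ Real.log K := Real.log_nonneg hK1
  have hκ' : κ = Real.log 2 + Real.log K := by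
    rw [hκ, Real.log_mul (by norm_num) hK0.ne']
  have hκ69 : (0.69 : ℝ) < κ := by
    have := log_two_gt
    linarith
  have hκ0 : 0 < κ := by linarith
  have hlam1 : 1 ≤ lam := by
    rw [hlam']
    have : 0 ≤ Real.log (1 + κ) := Real.log_nonneg (by linarith)
    linarith
  rw [← hlam]
  obtain ⟨m, N, ψ, H, F, hNd, hH, hdim, hsize, hFA, hF, hcov, hpr⟩ := core_p hA hK hε hε1
  obtain ⟨E, hE⟩ : ∃ E, E = ex K ε := ⟨_, rfl⟩
  have hE' : E = 10 ^ 20 * (lam ^ 2 / ε ^ 4) := by
    rw [hE, ex, ← hlam]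
    ring
  rw [← hE] at hsize hF
  have hE0 : 0 ≤ E := by rw [hE']; positivity
  have h2K : 1 ≤ (2 * K) ^ E := Real.one_le_rpow (by linarith) hE0
  have hw : lam ≤ lam ^ 2 / ε ^ 4 := by
    rw [le_div_iff₀ (by positivity)]
    have h7 : ε ^ 4 ≤ 1 := pow_le_one₀ hε.le hε1
    calc lam * ε ^ 4 ≤ lam * 1 := mul_le_mul_of_nonneg_left h7 (by positivity)
      _ ≤ lam * lam := mul_le_mul_of_nonneg_left hlam1 (by positivity)
      _ = lam ^ 2 := by ring
  have hw1 : 1 ≤ lam ^ 2 / ε ^ 4 := hlam1.trans hw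
  have hE9 : 10 ^ 21 * lam ^ 2 / ε ^ 4 = 10 ^ 21 * (lam ^ 2 / ε ^ 4) := by ring
  have hHpos : 0 < Nat.card H := Nat.card_pos
  have hAc : 0 < A.card := card_pos.2 hA
  rcases Nat.lt_or_ge A.card (Nat.card H) with hbig | hsmall
  · -- a large subgroup
    obtain ⟨l, g, H₁, T', hfin1, hvol, hT', hprop, hcovH⟩ := big_subgroup2 H hH hAc hbig
    obtain ⟨LF, hLF⟩ : ∃ LF, LF = (LL_finite hNd 1).toFinset := ⟨_, rfl⟩
    have hLFc : LF.card = (LL N 1).ncard := by
      rw [hLF]
      exact (Set.ncard_eq_toFinset_card _ _).symm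
    obtain ⟨T, hT⟩ : ∃ T : Finset Γ, T = (F ×ˢ (LF ×ˢ T')).image
      (fun p => p.1 + ψ p.2.1 + p.2.2) := ⟨_, rfl⟩
    refine ⟨1, fun _ => g, fun _ => l, H₁, T, Or.inl (by norm_num), hfin1, ?_, ?_, ?_, ?_⟩
    · intro c c' hc hc' hcc
      rw [Fin.sum_univ_one, Fin.sum_univ_one] at hcc
      funext i
      rw [Subsingleton.elim i 0]
      exact hprop _ _ (hc 0) (hc' 0) hcc
    · rw [Fin.prod_univ_one]
      exact hvol
    · have hTc : T.card ≤ F.card * ((LL N 1).ncard * T'.card) := by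
        rw [hT]
        refine Finset.card_image_le.trans ?_
        rw [Finset.card_product, Finset.card_product, hLFc]
      have h5 : ((LL N 1).ncard : ℝ) * T'.card ≤ 6 * (2 * K) ^ E := by
        have h6 : ((LL N 1).ncard : ℝ) * T'.card * A.card ≤ 6 * (2 * K) ^ E * A.card := by
          calc ((LL N 1).ncard : ℝ) * T'.card * A.card =
                ((LL N 1).ncard : ℝ) * (T'.card * A.card) := by ring
            _ ≤ ((LL N 1).ncard : ℝ) * (6 * Nat.card H) :=
                mul_le_mul_of_nonneg_left hT' (by positivity)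
            _ = 6 * (((LL N 1).ncard * Nat.card H : ℕ) : ℝ) := by
                push_cast
                ring
            _ ≤ 6 * ((2 * K) ^ E * A.card) := mul_le_mul_of_nonneg_left hsize (by norm_num)
            _ = _ := by ring
        exact le_of_mul_le_mul_right h6 hN
      have h8 : (6 : ℝ) ≤ (2 * K) ^ (3 : ℝ) := by
        have h9 : (2 : ℝ) ^ (3 : ℝ) ≤ (2 * K) ^ (3 : ℝ) :=
          Real.rpow_le_rpow (by norm_num) (by linarith) (by norm_num)
        have h10 : (2 : ℝ) ^ (3 : ℝ) = 8 := by norm_num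
        linarith
      calc (T.card : ℝ) ≤ F.card * (((LL N 1).ncard : ℝ) * T'.card) := by exact_mod_cast hTc
        _ ≤ (2 * K) ^ E * ((2 * K) ^ (3 : ℝ) * (2 * K) ^ E) := by
          refine mul_le_mul hF (h5.trans ?_) (by positivity) (by positivity)
          exact mul_le_mul_of_nonneg_right h8 (by positivity)
        _ = (2 * K) ^ (E + (3 + E)) := by
          rw [Real.rpow_add (by positivity), Real.rpow_add (by positivity)]
        _ ≤ _ := by
          refine Real.rpow_le_rpow_of_exponent_le (by linarith) ?_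
          rw [hE', hE9]
          linarith
    · intro a ha
      obtain ⟨f, hf, c, hc, h, hh, e⟩ := hcov a ha
      obtain ⟨t, ht, x, hx, h', hh', e'⟩ := hcovH h hh
      refine ⟨f + ψ c + t, ?_, fun _ => x, fun _ => hx, h', hh', ?_⟩
      · rw [hT, Finset.mem_image]
        refine ⟨(f, c, t), ?_, rfl⟩
        simp only [Finset.mem_product, hLF, Set.Finite.mem_toFinset]
        exact ⟨hf, hc, ht⟩
      · rw [Fin.sum_univ_one, e, e']
        abel
  · -- a small subgroup
    obtain ⟨a, haH⟩ : ∃ a, a = A.card / Nat.card H := ⟨_, rfl⟩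
    have ha1 : 1 ≤ a := by
      rw [haH, Nat.le_div_iff_mul_le hHpos, one_mul]
      exact hsmall
    have ha2 : a * Nat.card H ≤ A.card := by
      rw [haH]
      exact Nat.div_mul_le_self _ _
    have ha3 : A.card ≤ 2 * a * Nat.card H := by
      have h1 : A.card < (a + 1) * Nat.card H := by
        have h2 := Nat.lt_div_mul_add hHpos (a := A.card)
        rw [← haH] at h2
        linarith [add_mul a 1 (Nat.card H)]
      nlinarith
    have hRa : ((LL N 1).ncard : ℝ) ≤ (2 * (2 * K) ^ E) * a := by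
      have h1 : ((LL N 1).ncard : ℝ) * Nat.card H ≤ ((2 * (2 * K) ^ E) * a) * Nat.card H := by
        calc ((LL N 1).ncard : ℝ) * Nat.card H = (((LL N 1).ncard * Nat.card H : ℕ) : ℝ) := by
              push_cast
              ring
          _ ≤ (2 * K) ^ E * A.card := hsize
          _ ≤ (2 * K) ^ E * ((2 * a * Nat.card H : ℕ) : ℝ) :=
            mul_le_mul_of_nonneg_left (by exact_mod_cast ha3) (by positivity)
          _ = _ := by
            push_cast
            ring
      exact le_of_mul_le_mul_right h1 (by exact_mod_cast hHpos)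
    have hd300 : (m : ℝ) ≤ 300 * κ := by
      have h1 : (m : ℝ) * Real.log 2 ≤ 3 * κ := by
        have h2 : (1 + ε) * Real.log K ≤ 2 * Real.log K :=
          mul_le_mul_of_nonneg_right (by linarith) hlogK
        have h3 : ε * Real.log 2 ≤ 1 * Real.log 2 :=
          mul_le_mul_of_nonneg_right (by linarith) hlog2.le
        linarith
      have h4 := log_two_gt
      have h5 : (m : ℝ) * 0.69 ≤ m * Real.log 2 := mul_le_mul_of_nonneg_left h4.le (by positivity)
      linarith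
    obtain ⟨k, v, L, T, hkm, hprop, hprod, hTc, hTcov⟩ := finish hNd hcov hpr ha1
      (R := 2 * (2 * K) ^ E) (by linarith) hRa
    refine ⟨k, v, L, H, T, Or.inr ?_, hH, hprop, ?_, ?_, hTcov⟩
    · have h1 : (k : ℝ) * Real.log 2 ≤ m * Real.log 2 :=
        mul_le_mul_of_nonneg_right (by exact_mod_cast hkm) hlog2.le
      linarith
    · exact (Nat.mul_le_mul_right _ hprod).trans ha2
    · have h4 := loss hκ69 hlam' hd300
      have h5 : Real.exp (16800 * lam * κ) = (2 * K) ^ (16800 * lam) := by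
        rw [Real.rpow_def_of_pos (by positivity), ← hκ]
        congr 1
        ring
      rw [h5] at h4
      have h8 : (2 : ℝ) ≤ (2 * K) ^ (1 : ℝ) := by
        rw [Real.rpow_one]
        linarith
      calc (T.card : ℝ) ≤ F.card * (((4 * m + 1) ^ (3 * m) * (2 * (2 * K) ^ E)) *
            ((4 * m + 1) ^ m * (12 * m ^ 3) ^ m)) := hTc
        _ = F.card * (((4 * m + 1) ^ (3 * m) * ((4 * m + 1) ^ m * (12 * m ^ 3) ^ m)) *
            (2 * (2 * K) ^ E)) := by ring
        _ ≤ (2 * K) ^ E * ((2 * K) ^ (16800 * lam) * ((2 * K) ^ (1 : ℝ) * (2 * K) ^ E)) := by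
          refine mul_le_mul hF ?_ (by positivity) (by positivity)
          refine mul_le_mul h4 ?_ (by positivity) (by positivity)
          exact mul_le_mul_of_nonneg_right h8 (by positivity)
        _ = (2 * K) ^ (E + (16800 * lam + (1 + E))) := by
          rw [Real.rpow_add (by positivity), Real.rpow_add (by positivity),
            Real.rpow_add (by positivity)]
        _ ≤ _ := by
          refine Real.rpow_le_rpow_of_exponent_le (by linarith) ?_
          rw [hE', hE9]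
          linarith

/-- **Torsion-free groups: proper progressions.** -/
theorem gap_tf [IsAddTorsionFree Γ] {A : Finset Γ}
    (hA : A.Nonempty) {K : ℝ} (hK : ((A + A).card : ℝ) ≤ K * A.card)
    {ε : ℝ} (hε : 0 < ε) (hε1 : ε ≤ 1) :
    ∃ (d : ℕ) (v : Fin d → Γ) (L : Fin d → ℕ) (T : Finset Γ),
      (d : ℝ) * Real.log 2 ≤ (1 + ε) * Real.log K ∧
      (∀ c c' : Fin d → ℤ, (∀ i, |c i| ≤ L i) → (∀ i, |c' i| ≤ L i) →
        ∑ i, c i • v i = ∑ i, c' i • v i → c = c') ∧
      ∏ i, (2 * L i + 1) ≤ A.card ∧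
      (T.card : ℝ) ≤ (2 * K) ^ (10 ^ 23 * (1 + Real.log (1 + Real.log (2 * K))) ^ 2 / ε ^ 4) ∧
      ∀ a ∈ A, ∃ t ∈ T, ∃ c : Fin d → ℤ, (∀ i, |c i| ≤ L i) ∧ a = t + ∑ i, c i • v i := by
  classical
  have hN : (0 : ℝ) < A.card := by exact_mod_cast card_pos.2 hA
  have hK1 : 1 ≤ K := by
    have h1 : (A.card : ℝ) ≤ (A + A).card := by exact_mod_cast card_le_card_add_left hA
    have h2 : 1 * (A.card : ℝ) ≤ K * A.card := by linarith
    exact le_of_mul_le_mul_right h2 hN
  have hK0 : 0 < K := by linarith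
  have hlog2 : 0 < Real.log 2 := Real.log_pos (by norm_num)
  have hlogK : 0 ≤ Real.log K := Real.log_nonneg hK1
  rcases Nat.lt_or_ge 1 A.card with hA2 | hA2
  · -- at least two elements: `K ≥ 3 / 2`
    have hK32 : 3 / 2 ≤ K := by
      have h1 : 2 * A.card ≤ (A + A).card + 1 := by
        have := cauchy_davenport_of_isAddTorsionFree hA hA
        omega
      have h2 : 2 * (A.card : ℝ) ≤ (A + A).card + 1 := by exact_mod_cast h1
      have h3 : (2 : ℝ) ≤ A.card := by exact_mod_cast hA2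
      have h4 : 3 / 2 * (A.card : ℝ) ≤ K * A.card := by linarith
      exact le_of_mul_le_mul_right h4 hN
    have hlK : Real.log 2 ≤ 2 * Real.log K := by
      have h2 : (2 : ℝ) ≤ K ^ 2 := by nlinarith
      have h3 := Real.log_le_log (by norm_num) h2
      rw [Real.log_pow] at h3
      exact_mod_cast h3
    obtain ⟨lam, hlam⟩ : ∃ lam, lam = 1 + Real.log (1 + Real.log (2 * K)) := ⟨_, rfl⟩
    obtain ⟨κ, hκ⟩ : ∃ κ, κ = Real.log (2 * K) := ⟨_, rfl⟩
    have hlam' : lam = 1 + Real.log (1 + κ) := by rw [hlam, hκ]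
    have hκ' : κ = Real.log 2 + Real.log K := by
      rw [hκ, Real.log_mul (by norm_num) hK0.ne']
    have hκ69 : (0.69 : ℝ) < κ := by
      have := log_two_gt
      linarith
    have hκ0 : 0 < κ := by linarith
    have hlam1 : 1 ≤ lam := by
      rw [hlam']
      have : 0 ≤ Real.log (1 + κ) := Real.log_nonneg (by linarith)
      linarith
    rw [← hlam]
    obtain ⟨m, N, ψ, H, F, hNd, hH, hdim, hsize, hFA, hF, hcov, hpr⟩ := core_p hA hK
      (ε := ε / 3) (by positivity) (by linarith)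
    obtain ⟨E, hE⟩ : ∃ E, E = ex K (ε / 3) := ⟨_, rfl⟩
    have hE' : E = (81 * 10 ^ 20) * (lam ^ 2 / ε ^ 4) := by
      rw [hE, ex, ← hlam]
      field_simp
      ring
    rw [← hE] at hsize hF
    have hE0 : 0 ≤ E := by rw [hE']; positivity
    have hHbot : ∀ h ∈ H, h = 0 := by
      intro h hh
      have h1 : Nat.card H • (⟨h, hh⟩ : H) = 0 := card_nsmul_eq_zero'
      have h2 : Nat.card H • h = 0 := by
        have h3 := congrArg H.subtype h1
        rw [map_nsmul, map_zero] at h3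
        exact h3
      exact (smul_eq_zero_iff_right (Nat.card_pos.ne' : Nat.card H ≠ 0)).1 h2
    have hHcard : Nat.card H = 1 := by
      rw [Nat.card_eq_one_iff_unique]
      refine ⟨⟨fun a b => Subtype.ext ?_⟩, ⟨0⟩⟩
      rw [hHbot a.1 a.2, hHbot b.1 b.2]
    rw [hHcard, mul_one] at hsize
    have h2K : 1 ≤ (2 * K) ^ E := Real.one_le_rpow (by linarith) hE0
    obtain ⟨k, v, L, T, hkm, hprop, hprod, hTc, hTcov⟩ := finish hNd hcov hpr (card_pos.2 hA)
      h2K hsize
    have hd300 : (m : ℝ) ≤ 300 * κ := by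
      have h1 : (m : ℝ) * Real.log 2 ≤ 3 * κ := by
        have h2 : (1 + ε / 3) * Real.log K ≤ 2 * Real.log K :=
          mul_le_mul_of_nonneg_right (by linarith) hlogK
        have h3 : ε / 3 * Real.log 2 ≤ 1 * Real.log 2 :=
          mul_le_mul_of_nonneg_right (by linarith) hlog2.le
        linarith
      have h4 := log_two_gt
      have h5 : (m : ℝ) * 0.69 ≤ m * Real.log 2 := mul_le_mul_of_nonneg_left h4.le (by positivity)
      linarith
    refine ⟨k, v, L, T, ?_, ?_, hprod, ?_, ?_⟩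
    · have h1 : (k : ℝ) * Real.log 2 ≤ m * Real.log 2 :=
        mul_le_mul_of_nonneg_right (by exact_mod_cast hkm) hlog2.le
      have h4 : ε / 3 * Real.log 2 ≤ ε / 3 * (2 * Real.log K) :=
        mul_le_mul_of_nonneg_left hlK (by positivity)
      have h5 : (1 + ε / 3) * Real.log K + ε / 3 * (2 * Real.log K) = (1 + ε) * Real.log K := by
        ring
      linarith
    · intro c c' hc hc' hcc
      refine hprop c c' hc hc' ?_
      rw [hcc, sub_self]
      exact H.zero_mem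
    · have h4 := loss hκ69 hlam' hd300
      have h5 : Real.exp (16800 * lam * κ) = (2 * K) ^ (16800 * lam) := by
        rw [Real.rpow_def_of_pos (by positivity), ← hκ]
        congr 1
        ring
      rw [h5] at h4
      calc (T.card : ℝ) ≤ F.card * (((4 * m + 1) ^ (3 * m) * (2 * K) ^ E) *
            ((4 * m + 1) ^ m * (12 * m ^ 3) ^ m)) := hTc
        _ = F.card * (((4 * m + 1) ^ (3 * m) * ((4 * m + 1) ^ m * (12 * m ^ 3) ^ m)) *
            (2 * K) ^ E) := by ring
        _ ≤ (2 * K) ^ E * ((2 * K) ^ (16800 * lam) * (2 * K) ^ E) := by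
          refine mul_le_mul hF ?_ (by positivity) (by positivity)
          exact mul_le_mul_of_nonneg_right h4 (by positivity)
        _ = (2 * K) ^ (E + (16800 * lam + E)) := by
          rw [Real.rpow_add (by positivity), Real.rpow_add (by positivity)]
        _ ≤ _ := by
          refine Real.rpow_le_rpow_of_exponent_le (by linarith) ?_
          have hw : lam ≤ lam ^ 2 / ε ^ 4 := by
            rw [le_div_iff₀ (by positivity)]
            have h7 : ε ^ 4 ≤ 1 := pow_le_one₀ hε.le hε1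
            calc lam * ε ^ 4 ≤ lam * 1 := mul_le_mul_of_nonneg_left h7 (by positivity)
              _ ≤ lam * lam := mul_le_mul_of_nonneg_left hlam1 (by positivity)
              _ = lam ^ 2 := by ring
          have h9 : 10 ^ 23 * lam ^ 2 / ε ^ 4 = 10 ^ 23 * (lam ^ 2 / ε ^ 4) := by ring
          rw [hE', h9]
          linarith
    · intro a ha
      obtain ⟨t, ht, c, hc, h, hh, rfl⟩ := hTcov a ha
      exact ⟨t, ht, c, hc, by rw [hHbot h hh, add_zero]⟩
  · -- one element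
    obtain ⟨a, rfl⟩ : ∃ a, A = {a} := card_eq_one.1 (le_antisymm hA2 (card_pos.2 hA))
    refine ⟨0, Fin.elim0, Fin.elim0, {a}, ?_, ?_, ?_, ?_, ?_⟩
    · rw [Nat.cast_zero, zero_mul]
      positivity
    · intro c c' _ _ _
      exact Subsingleton.elim _ _
    · simp
    · rw [card_singleton, Nat.cast_one]
      refine Real.one_le_rpow (by linarith) ?_
      have h1 : 0 ≤ Real.log (2 * K) := Real.log_nonneg (by linarith)
      have h2 : 0 ≤ Real.log (1 + Real.log (2 * K)) := Real.log_nonneg (by linarith)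
      positivity
    · intro b hb
      rw [mem_singleton] at hb
      exact ⟨a, mem_singleton_self a, 0, fun i => i.elim0, by rw [hb]; simp⟩

end Pool.Agent.Run7.h127.SP
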