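import Pool.Agent.Run7.h127.SP.Gap

/-!
# Dimension reduction: from a covering by convex coset progressions to the sharp dimension
-/

set_option autoImplicit false
set_option linter.unusedSectionVars false

namespace Pool.Agent.Run7.h127.SP

open H112 Finset Pool.Agent.Run7.h127.SN
open scoped Pointwise

universe u

variable {Γ : Type u} [AddCommGroup Γ] [DecidableEq Γ]

/-- **The class.** -/
theorem exists_cell_q {A : Finset Γ}
    (hA : A.Nonempty) {K : ℝ} (hK : ((A + A).card : ℝ) ≤ K * A.card) (hK1 : 1 ≤ K) (k : ℕ)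
    {D : ℕ} {B : Set (Fin D → ℝ)} {ψ₀ : (Fin D → ℤ) →+ Γ} {H₀ : AddSubgroup Γ} {T : Finset Γ}
    (hB : SymmBody B) (hH₀ : Finite H₀) {V Q : ℝ} (hQ0 : 0 ≤ Q)
    (hvol : ((({c : Fin D → ℤ | (fun i => (c i : ℝ)) ∈ B}.ncard * Nat.card H₀ : ℕ)) : ℝ) ≤
      V * A.card) (hT : (T.card : ℝ) ≤ Q)
    (hcov : ∀ a ∈ A, ∃ t ∈ T, ∃ c : Fin D → ℤ, (fun i => (c i : ℝ)) ∈ B ∧
      ∃ h ∈ H₀, a = t + ψ₀ c + h) :
    ∃ (d : ℕ) (N : Seminorm ℝ (Fin d → ℝ)) (ψ : (Fin d → ℤ) →+ Γ) (H : AddSubgroup Γ)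
      (z : Γ) (A₁ : Finset Γ) (g : Γ → (Fin d → ℤ)),
      (∀ x, N x = 0 → x = 0) ∧ Finite H ∧
      (((LL N 3).ncard * Nat.card H : ℕ) : ℝ) ≤
        (4 * D + 1) ^ (D * (k + 3 + Nat.log 2 (D + 1))) * (V * A.card) ∧
      A₁ ⊆ A ∧ A₁.Nonempty ∧
      (A.card : ℝ) ≤ Q * A₁.card ∧
      ((A₁ + A₁.image fun a => 2 ^ k • a).card : ℝ) ≤ K ^ (k + 2) * Q * A₁.card ∧
      IsAddFreimanHom (2 ^ k + 1) (A₁ : Set Γ) Set.univ g ∧
      (∀ a ∈ A₁, g a ∈ LL N 1 ∧ a - z - ψ (g a) ∈ H) ∧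
      ∀ c : Fin d → ℤ, c ≠ 0 → N (cR c) ≤ 2 * (2 ^ k + 1) → ψ c ∉ H := by
  classical
  obtain ⟨N₀, hN₀, hNB⟩ := exists_norm hB
  obtain ⟨t, ht⟩ : ∃ t : ℝ, t = 2 * (2 ^ k + 1) := ⟨_, rfl⟩
  have ht0 : 0 ≤ t := by rw [ht]; positivity
  obtain ⟨d, N, ψ, H, hd, hN, hH, hp, hc, hn⟩ := proper ht0 D N₀ hN₀ ψ₀ H₀ hH₀
  have hcovA : ∀ a ∈ A, ∃ z ∈ T, ∃ c ∈ LL N 1, ∃ h ∈ H, a = z + ψ c + h := by
    intro a ha
    obtain ⟨z, hz, c, hcB, h, hh, e⟩ := hcov a ha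
    obtain ⟨c', hc', h', hh', e'⟩ := hc 1 zero_le_one c ((hNB _).2 hcB) h hh
    refine ⟨z, hz, c', hc', h', hh', ?_⟩
    rw [e, add_assoc, e', ← add_assoc]
  choose! τ hτT hτ using hcovA
  obtain ⟨z, hz, hzX⟩ := exists_class hA (T := T) (τ := τ) hτT
  obtain ⟨A₁, hA₁⟩ : ∃ A₁, A₁ = A.filter fun x => τ x = z := ⟨_, rfl⟩
  rw [← hA₁] at hzX
  have hA₁X : A₁ ⊆ A := by rw [hA₁]; exact filter_subset _ _
  have hA₁0 : A₁.Nonempty := by
    rw [nonempty_iff_ne_empty]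
    intro h0
    rw [h0, card_empty, mul_zero] at hzX
    have := card_pos.2 hA
    omega
  have hzX' : (A.card : ℝ) ≤ Q * A₁.card := by
    calc (A.card : ℝ) ≤ T.card * A₁.card := by exact_mod_cast hzX
      _ ≤ Q * A₁.card := mul_le_mul_of_nonneg_right hT (by positivity)
  obtain ⟨g, hg1, hg2⟩ := lift (N := N) (ψ := ψ) (H := H) (n := 2 ^ k + 1) (S := (A₁ : Set Γ))
    (z := z) (by
      intro c hc0 hct
      refine hp c hc0 ?_
      rw [ht]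
      push_cast at hct
      exact hct) (by
      intro a ha
      have h1 : a ∈ A ∧ τ a = z := by
        rw [mem_coe, hA₁, mem_filter] at ha
        exact ha
      have h2 := hτ a h1.1
      rw [h1.2] at h2
      exact h2)
  refine ⟨d, N, ψ, H, z, A₁, g, hN, hH, ?_, hA₁X, hA₁0, hzX', ?_, hg1,
    fun a ha => hg2 a (mem_coe.2 ha), by rwa [ht] at hp⟩
  · have h1 := hn 3 (by norm_num)
    have h2 : (3 : ℝ) + D * t ≤ 2 ^ (k + 3 + Nat.log 2 (D + 1)) * 1 := by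
      have h3 : D + 1 < 2 ^ (Nat.log 2 (D + 1) + 1) := Nat.lt_pow_succ_log_self (by norm_num) _
      have h4 : 3 + D * (2 * (2 ^ k + 1)) ≤ 2 ^ (k + 3 + Nat.log 2 (D + 1)) := by
        have h5 : 2 ^ (k + 3 + Nat.log 2 (D + 1)) = 2 ^ k * 4 * 2 ^ (Nat.log 2 (D + 1) + 1) := by
          rw [show k + 3 + Nat.log 2 (D + 1) = k + 2 + (Nat.log 2 (D + 1) + 1) by ring, pow_add,
            pow_add]
          norm_num
        rw [h5]
        have h6 : 1 ≤ 2 ^ k := Nat.one_le_two_pow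
        have h7 : 2 ^ k * 4 * (D + 1) ≤ 2 ^ k * 4 * 2 ^ (Nat.log 2 (D + 1) + 1) :=
          Nat.mul_le_mul_left _ h3.le
        nlinarith
      rw [ht, mul_one]
      exact_mod_cast h4
    have h5 : (LL N₀ (3 + D * t)).ncard ≤
        (4 * D + 1) ^ (D * (k + 3 + Nat.log 2 (D + 1))) * (LL N₀ 1).ncard :=
      (Set.ncard_le_ncard (LL_mono h2) (LL_finite hN₀ _)).trans (LL_dbl hN₀ zero_le_one _)
    have h6 : (((LL N₀ 1).ncard * Nat.card H₀ : ℕ) : ℝ) ≤ V * A.card := by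
      have h7 : LL N₀ 1 = {c : Fin D → ℤ | (fun i => (c i : ℝ)) ∈ B} := by
        ext c
        exact hNB _
      rw [h7]
      exact hvol
    have h8 : (LL N 3).ncard * Nat.card H ≤
        (4 * D + 1) ^ (D * (k + 3 + Nat.log 2 (D + 1))) * ((LL N₀ 1).ncard * Nat.card H₀) :=
      calc (LL N 3).ncard * Nat.card H ≤ (LL N₀ (3 + D * t)).ncard * Nat.card H₀ := h1
        _ ≤ ((4 * D + 1) ^ (D * (k + 3 + Nat.log 2 (D + 1))) * (LL N₀ 1).ncard) * Nat.card H₀ :=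
          Nat.mul_le_mul_right _ h5
        _ = _ := by ring
    calc (((LL N 3).ncard * Nat.card H : ℕ) : ℝ) ≤
        (((4 * D + 1) ^ (D * (k + 3 + Nat.log 2 (D + 1))) * ((LL N₀ 1).ncard * Nat.card H₀) :
          ℕ) : ℝ) := by exact_mod_cast h8
      _ = (4 * D + 1) ^ (D * (k + 3 + Nat.log 2 (D + 1))) *
          (((LL N₀ 1).ncard * Nat.card H₀ : ℕ) : ℝ) := by push_cast; ring
      _ ≤ _ := mul_le_mul_of_nonneg_left h6 (by positivity)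
  · have h1 : ((A₁ + A₁.image fun a => 2 ^ k • a).card : ℝ) ≤
        (A + A.image fun a => 2 ^ k • a).card := by
      exact_mod_cast card_le_card (add_subset_add hA₁X (image_subset_image hA₁X))
    calc ((A₁ + A₁.image fun a => 2 ^ k • a).card : ℝ) ≤ K ^ (k + 2) * A.card :=
          h1.trans (dil_le hA hK k)
      _ ≤ K ^ (k + 2) * (Q * A₁.card) := mul_le_mul_of_nonneg_left hzX' (by positivity)
      _ = _ := by ring

/-- **Dimension reduction.** -/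
theorem core_q {A : Finset Γ}
    (hA : A.Nonempty) {K : ℝ} (hK : ((A + A).card : ℝ) ≤ K * A.card) {k : ℕ} (hk1 : 1 ≤ k)
    {D : ℕ} {B : Set (Fin D → ℝ)} {ψ₀ : (Fin D → ℤ) →+ Γ} {H₀ : AddSubgroup Γ} {T : Finset Γ}
    (hB : SymmBody B) (hH₀ : Finite H₀) {V Q : ℝ} (hQ1 : 1 ≤ Q)
    (hvol : ((({c : Fin D → ℤ | (fun i => (c i : ℝ)) ∈ B}.ncard * Nat.card H₀ : ℕ)) : ℝ) ≤
      V * A.card) (hT : (T.card : ℝ) ≤ Q)
    (hcov : ∀ a ∈ A, ∃ t ∈ T, ∃ c : Fin D → ℤ, (fun i => (c i : ℝ)) ∈ B ∧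
      ∃ h ∈ H₀, a = t + ψ₀ c + h) {e : ℝ} (he : 0 < e) (he1 : e ≤ 1) :
    ∃ (d : ℕ) (N : Seminorm ℝ (Fin d → ℝ)) (ψ : (Fin d → ℤ) →+ Γ) (H : AddSubgroup Γ)
      (F : Finset Γ), (∀ x, N x = 0 → x = 0) ∧ Finite H ∧
      (d : ℝ) * (k * Real.log 2) ≤ (1 + e) * Real.log (2 * (K ^ (k + 2) * Q)) ∧
      (((LL N 1).ncard * Nat.card H : ℕ) : ℝ) ≤
        (4 * D + 1) ^ (D * (k + 3 + Nat.log 2 (D + 1))) * (V * A.card) ∧
      F ⊆ A ∧ (F.card : ℝ) ≤ 2 * K * (Q * (2 * (K ^ (k + 2) * Q) *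
        (2 * (K ^ (k + 2) * Q)) ^ (SD.cst (2 ^ k) e))) ∧
      (∀ a ∈ A, ∃ f ∈ F, ∃ c ∈ LL N 1, ∃ h ∈ H, a = f + ψ c + h) ∧
      ∀ c : Fin d → ℤ, c ≠ 0 → N (cR c) ≤ 2 → ψ c ∉ H := by
  classical
  have hN : (0 : ℝ) < A.card := by exact_mod_cast card_pos.2 hA
  have hK1 : 1 ≤ K := by
    have h1 : (A.card : ℝ) ≤ (A + A).card := by exact_mod_cast card_le_card_add_left hA
    have h2 : 1 * (A.card : ℝ) ≤ K * A.card := by linarith
    exact le_of_mul_le_mul_right h2 hN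
  have hK0 : 0 < K := by linarith
  have hQ0 : 0 < Q := by linarith
  obtain ⟨m, N, ψ, H, z, A₁, g, hNd, hH, hcount, hA₁A, hA₁0, hA₁c, hA₁K, hg, hgA,
    hpr⟩ := exists_cell_q hA hK hK1 k hB hH₀ hQ0.le hvol hT hcov
  obtain ⟨t, L, hL0, hLg, hLK, hLt, hLfib⟩ := exists_fib (Nat.one_le_two_pow (n := k)) hA₁0 hg hA₁K
  obtain ⟨K₁, hK₁⟩ : ∃ K₁ : ℝ, K₁ = 2 * (K ^ (k + 2) * Q) := ⟨_, rfl⟩
  rw [← hK₁] at hLK ⊢
  have hLt' : (A₁.card : ℝ) ≤ 2 * K₁ * (t * L.card) := by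
    rw [hK₁]
    linarith
  have hK₁0 : 0 < K₁ := by rw [hK₁]; positivity
  have hq2 : 2 ≤ 2 ^ k := by
    calc 2 = 2 ^ 1 := by norm_num
      _ ≤ 2 ^ k := Nat.pow_le_pow_right (by norm_num) hk1
  obtain ⟨L', L'', hL'L'', hL''L, hL'0, hL'c, hrk, -⟩ := SD.single.{0, 0} (q := 2 ^ k) hq2
    (SD.inj_dil (fun a b hab => nsmul_right_injective (M := Fin m → ℤ) two_ne_zero hab) k) hL0 hLK
    (ε := e) he he1
  have hL'L : L' ⊆ L := hL'L''.trans hL''L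
  have hr := (hrk (Fin m → ℤ) id (by
    refine ⟨fun _ _ => Set.mem_univ _, ?_⟩
    intro s t _ _ _ _ hst
    rw [Multiset.map_id, Multiset.map_id]
    exact hst)).1
  obtain ⟨A', hA'⟩ : ∃ A', A' = A₁.filter fun a => g a ∈ L' := ⟨_, rfl⟩
  have hA'A₁ : A' ⊆ A₁ := by rw [hA']; exact filter_subset _ _
  have hA'L : ∀ a ∈ A', g a ∈ L' := by
    intro a ha
    rw [hA', mem_filter] at ha
    exact ha.2
  have hA't : t * L'.card ≤ A'.card := by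
    rw [hA']
    exact hLfib L' hL'L
  obtain ⟨Df, hDf⟩ : ∃ Df : Set (Fin m → ℤ), Df = id '' (L' : Set (Fin m → ℤ)) -
    id '' (L' : Set (Fin m → ℤ)) := ⟨_, rfl⟩
  rw [← hDf] at hr
  have hLLL : ∀ b ∈ L', N (cR b) ≤ 1 := by
    intro b hb
    obtain ⟨a, ha, rfl⟩ := mem_image.1 (hLg (hL'L hb))
    exact (hgA a ha).1
  have hDfLL : Df ⊆ LL N 2 := by
    rw [hDf]
    rintro _ ⟨_, ⟨a, ha, rfl⟩, _, ⟨b, hb, rfl⟩, rfl⟩
    have h1 := hLLL a (mem_coe.1 ha)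
    have h2 := hLLL b (mem_coe.1 hb)
    show N (cR (a - b)) ≤ 2
    rw [cR_sub]
    linarith [map_sub_le_add N (cR a) (cR b)]
  obtain ⟨N₁, j, hN₁, hj, hjD, hjc, hj3⟩ := sub_body2 hNd hDfLL
  obtain ⟨d, hd⟩ : ∃ d, d = Module.finrank ℤ (Submodule.span ℤ Df) := ⟨_, rfl⟩
  obtain ⟨C, hC⟩ : ∃ C : ℝ, C = K₁ ^ (SD.cst (2 ^ k) e) := ⟨_, rfl⟩
  rw [← hC] at hL'c ⊢
  have hC0 : 0 < C := by rw [hC]; positivity
  have hA'c' : K * (A.card : ℝ) ≤ (2 * K * (Q * (K₁ * C))) * A'.card := by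
    have h2 : (t : ℝ) * L'.card ≤ A'.card := by exact_mod_cast hA't
    calc K * (A.card : ℝ) ≤ K * (Q * A₁.card) := mul_le_mul_of_nonneg_left hA₁c hK0.le
      _ ≤ K * (Q * (2 * K₁ * (t * L.card))) := by
        refine mul_le_mul_of_nonneg_left (mul_le_mul_of_nonneg_left hLt' hQ0.le) hK0.le
      _ ≤ K * (Q * (2 * K₁ * (t * (C * L'.card)))) := by
        refine mul_le_mul_of_nonneg_left (mul_le_mul_of_nonneg_left
          (mul_le_mul_of_nonneg_left (mul_le_mul_of_nonneg_left hL'c (by positivity))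
            (by positivity)) hQ0.le) hK0.le
      _ = (2 * K * (Q * (K₁ * C))) * (t * L'.card) := by ring
      _ ≤ (2 * K * (Q * (K₁ * C))) * A'.card := mul_le_mul_of_nonneg_left h2 (by positivity)
  have hA'0 : A'.Nonempty := by
    rw [nonempty_iff_ne_empty]
    intro h0
    rw [h0, card_empty, Nat.cast_zero, mul_zero] at hA'c'
    have : 0 < K * (A.card : ℝ) := by positivity
    linarith
  have hruzsa : ((A + A').card : ℝ) ≤ (2 * K * (Q * (K₁ * C))) * A'.card := by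
    have h1 : ((A + A').card : ℝ) ≤ (A + A).card := by
      exact_mod_cast card_le_card (add_subset_add_left (hA'A₁.trans hA₁A))
    linarith
  obtain ⟨F, hFA, hF, hcovF⟩ := ruzsa_covering_add hA'0 hruzsa
  refine ⟨_, N₁, ψ.comp j, H, F, hN₁, hH, ?_, ?_, hFA, hF, ?_, ?_⟩
  · -- dimension
    rw [← hd] at hr ⊢
    have h1 : Real.log ((2 ^ k : ℕ) : ℝ) = k * Real.log 2 := by
      push_cast
      rw [Real.log_pow]
    rw [h1] at hr
    exact hr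
  · -- size
    refine le_trans ?_ hcount
    exact_mod_cast Nat.mul_le_mul_right _ hjc
  · intro a ha
    obtain ⟨f, hf, w, hw, rfl⟩ := mem_add.1 (hcovF ha)
    obtain ⟨x, hx, y, hy, rfl⟩ := mem_sub.1 hw
    obtain ⟨c, hc, hjc⟩ := hjD (g x - g y) (by
      rw [hDf]
      exact ⟨g x, ⟨g x, hA'L x hx, rfl⟩, g y, ⟨g y, hA'L y hy, rfl⟩, rfl⟩)
    refine ⟨f, hf, c, hc, (x - z - ψ (g x)) - (y - z - ψ (g y)),
      H.sub_mem (hgA x (hA'A₁ hx)).2 (hgA y (hA'A₁ hy)).2, ?_⟩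
    rw [AddMonoidHom.comp_apply, hjc, map_sub]
    abel
  · intro c hc hc2
    rw [AddMonoidHom.comp_apply]
    refine hpr (j c) (fun h0 => hc (hj (h0.trans (map_zero j).symm))) ?_
    have h1 := hj3 c
    have h2 : (2 : ℝ) ≤ 2 ^ k := by exact_mod_cast hq2
    linarith

end Pool.Agent.Run7.h127.SP
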