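import Pool.Agent.Run7.h127.SP.Poly
import Pool.Agent.Run7.h127.SP.Floor
import Pool.Agent.W860.PC.Final

/-!
# Sharp dimension and polynomially many translates
-/

set_option autoImplicit false
set_option linter.unusedSectionVars false

namespace Pool.Agent.Run7.h127.SP

open H112 Finset Pool.Agent.Run7.h127.SN
open scoped Pointwise

universe u

/-- the numbers -/
lemma nums3 {M ε : ℝ} (hM : 1 ≤ M) (hε : 0 < ε) (hε1 : ε ≤ 1) :
    ∃ k : ℕ, 1 ≤ k ∧ 30001 * M ≤ k * (ε / 8) ∧ 1 ≤ k * (ε / 8) ∧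
      (k + 1 : ℝ) ≤ 240010 * M / ε := by
  have h4 : 240008 * M / ε ≤ ⌈240008 * M / ε⌉₊ := Nat.le_ceil _
  have h5 : (⌈240008 * M / ε⌉₊ : ℝ) < 240008 * M / ε + 1 :=
    Nat.ceil_lt_add_one (by positivity)
  have h6 : 240008 * M ≤ ⌈240008 * M / ε⌉₊ * ε := by
    rwa [div_le_iff₀ hε] at h4
  have hle : 1 ≤ M / ε := by
    rw [le_div_iff₀ hε]
    linarith
  have e1 : 240008 * M / ε = 240008 * (M / ε) := by ring
  have e2 : 240010 * M / ε = 240010 * (M / ε) := by ring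
  refine ⟨⌈240008 * M / ε⌉₊, ?_, ?_, ?_, ?_⟩
  · have : (1 : ℝ) ≤ ⌈240008 * M / ε⌉₊ := by linarith
    exact_mod_cast this
  · linarith
  · linarith
  · linarith

lemma cover_num {M κ ε lK₁ c : ℝ} (hM : 1 ≤ M) (hκ0 : 0 < κ) (hε : 0 < ε) (hε1 : ε ≤ 1)
    (hl : lK₁ ≤ 2 * (240010 * M / ε) * κ) (hc : c ≤ (128 * 10 ^ 7 * (240010 * M / ε) / ε ^ 2) *
      (2 * (240010 * M / ε) * κ)) :
    κ + 30000 * M * κ + lK₁ + c ≤ κ * (10 ^ 21 * M ^ 2 / ε ^ 4) := by
  obtain ⟨w, hw⟩ : ∃ w, w = M ^ 2 * κ / ε ^ 4 := ⟨_, rfl⟩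
  have h2 : (128 * 10 ^ 7 * (240010 * M / ε) / ε ^ 2) * (2 * (240010 * M / ε) * κ) =
      (256 * 10 ^ 7 * 240010 ^ 2) * w := by
    rw [hw]
    field_simp
    ring
  have h3 : κ * (10 ^ 21 * M ^ 2 / ε ^ 4) = 10 ^ 21 * w := by
    rw [hw]
    ring
  have h9 : M * κ / ε ≤ w := by
    rw [hw]
    calc M * κ / ε ≤ M ^ 2 * κ / ε := by
          refine div_le_div_of_nonneg_right ?_ hε.le
          calc M * κ = M * κ * 1 := by ring
            _ ≤ M * κ * M := mul_le_mul_of_nonneg_left hM (by positivity)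
            _ = M ^ 2 * κ := by ring
      _ ≤ M ^ 2 * κ / ε ^ 4 := by
          refine div_le_div_of_nonneg_left (by positivity) (by positivity) ?_
          calc ε ^ 4 = ε ^ 3 * ε := by ring
            _ ≤ 1 * ε := mul_le_mul_of_nonneg_right (pow_le_one₀ hε.le hε1) hε.le
            _ = ε := one_mul ε
  have h4 : M * κ ≤ M * κ / ε := by
    rw [le_div_iff₀ hε]
    calc M * κ * ε ≤ M * κ * 1 := mul_le_mul_of_nonneg_left hε1 (by positivity)
      _ = M * κ := mul_one _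
  have h6 : κ ≤ M * κ := by
    calc κ = 1 * κ := (one_mul κ).symm
      _ ≤ M * κ := mul_le_mul_of_nonneg_right hM hκ0.le
  have h10 : 2 * (240010 * M / ε) * κ = 480020 * (M * κ / ε) := by ring
  rw [h10] at hl
  rw [h2] at hc
  rw [h3]
  have h7 : 30000 * M * κ = 30000 * (M * κ) := by ring
  rw [h7]
  have h8 : 0 < w := by linarith
  linarith

/-- the size -/
lemma size_num3 {η κ ε : ℝ} {D k : ℕ} (hκ : (0.69 : ℝ) < κ) (hη : 0 < η) (hη1 : η ≤ 1)
    (hε : 0 < ε) (hε1 : ε ≤ 1) (hD : (D : ℝ) ≤ 30000 / η * κ)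
    (hk : (k + 1 : ℝ) ≤ 240010 * (1 / η) / ε) :
    (4 * (D : ℝ) + 1) ^ (D * (k + 3 + Nat.log 2 (D + 1))) *
      Real.exp (30000 / η * κ ^ (1 + η)) ≤ Real.exp (3 * 10 ^ 11 / (η ^ 3 * ε) * κ ^ (1 + η)) := by
  have hκ0 : 0 < κ := by linarith
  obtain ⟨M, hM⟩ : ∃ M, M = 1 / η := ⟨_, rfl⟩
  rw [← hM] at hk
  have hM1 : 1 ≤ M := by
    rw [hM, le_div_iff₀ hη]
    linarith
  have hD' : (D : ℝ) ≤ 30000 * (M * κ) := by
    rw [hM]
    calc (D : ℝ) ≤ 30000 / η * κ := hD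
      _ = _ := by ring
  obtain ⟨u, hu⟩ : ∃ u : ℝ, u = κ ^ (η / 2) := ⟨_, rfl⟩
  have hu69 : 0.69 ≤ u := by
    rw [hu]
    by_cases hk1 : 1 ≤ κ
    · have := Real.one_le_rpow hk1 (z := η / 2) (by positivity)
      linarith
    · push Not at hk1
      calc (0.69 : ℝ) ≤ κ := hκ.le
        _ = κ ^ (1 : ℝ) := (Real.rpow_one κ).symm
        _ ≤ κ ^ (η / 2) := Real.rpow_le_rpow_of_exponent_ge hκ0 hk1.le (by linarith)
  have hu0 : 0 < u := by linarith
  have huu : κ ^ (1 + η) = κ * u ^ 2 := by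
    rw [hu, ← Real.rpow_natCast, ← Real.rpow_mul hκ0.le, Real.rpow_add hκ0, Real.rpow_one]
    congr 2
    push_cast
    ring
  have hlogκ : Real.log κ ≤ 2 * (M * u) := by
    have := Real.log_le_rpow_div hκ0.le (ε := η / 2) (by positivity)
    rw [← hu] at this
    rw [hM]
    calc Real.log κ ≤ u / (η / 2) := this
      _ = _ := by field_simp
  have hlogM : Real.log M ≤ M := by
    have := Real.log_le_sub_one_of_pos (by linarith : 0 < M)
    linarith
  have hlogc : Real.log 120002 ≤ 11.8 := by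
    have h1 : Real.log 120002 ≤ Real.log (2 ^ 17) :=
      Real.log_le_log (by norm_num) (by norm_num)
    rw [Real.log_pow] at h1
    have := Real.log_two_lt_d9
    push_cast at h1
    linarith
  have hMu : 0.69 * M ≤ M * u := by
    rw [mul_comm]
    exact mul_le_mul_of_nonneg_left hu69 (by linarith)
  have hMκ : κ ≤ M * κ := le_mul_of_one_le_left hκ0.le hM1
  have hℓ : Real.log (4 * D + 1) ≤ 21 * (M * u) := by
    have h1 : 4 * (D : ℝ) + 1 ≤ 120002 * (M * κ) := by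
      have : (1 : ℝ) ≤ 2 * κ := by linarith
      linarith
    have h2 : Real.log (4 * D + 1) ≤ Real.log (120002 * (M * κ)) :=
      Real.log_le_log (by positivity) h1
    rw [Real.log_mul (by norm_num) (by positivity), Real.log_mul (by positivity) hκ0.ne'] at h2
    linarith
  have hlog2D : (Nat.log 2 (D + 1) : ℝ) ≤ 31 * (M * u) := by
    have h5 : ((2 ^ Nat.log 2 (D + 1) : ℕ) : ℝ) ≤ ((D + 1 : ℕ) : ℝ) := by
      exact_mod_cast Nat.pow_log_le_self 2 (by omega)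
    push_cast at h5
    have h6 := Real.log_le_log (by positivity) h5
    rw [Real.log_pow] at h6
    have h7 : Real.log ((D : ℝ) + 1) ≤ Real.log (4 * D + 1) :=
      Real.log_le_log (by positivity) (by
        have : (0 : ℝ) ≤ D := by positivity
        linarith)
    have h8 := log_two_gt
    have h9 : (Nat.log 2 (D + 1) : ℝ) * 0.69 ≤ Nat.log 2 (D + 1) * Real.log 2 :=
      mul_le_mul_of_nonneg_left h8.le (by positivity)
    linarith
  have hMe : M ≤ M / ε := by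
    rw [le_div_iff₀ hε]
    calc M * ε ≤ M * 1 := mul_le_mul_of_nonneg_left hε1 (by linarith)
      _ = M := mul_one _
  have hMue : 0.69 * (M / ε) ≤ (M / ε) * u := by
    rw [mul_comm]
    exact mul_le_mul_of_nonneg_left hu69 (by positivity)
  have hMue2 : M * u ≤ (M / ε) * u := mul_le_mul_of_nonneg_right hMe hu0.le
  have hexp : ((D * (k + 3 + Nat.log 2 (D + 1)) : ℕ) : ℝ) ≤
      (30000 * (M * κ)) * (350000 * ((M / ε) * u)) := by
    push_cast
    refine mul_le_mul hD' ?_ (by positivity) (by positivity)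
    have e2 : 240010 * M / ε = 240010 * (M / ε) := by ring
    rw [e2] at hk
    linarith
  have h11 := pow_le_exp (x := 4 * (D : ℝ) + 1) (by positivity) hℓ hexp (by positivity)
  have h12 : Real.exp (30000 / η * κ ^ (1 + η)) = Real.exp (30000 * (M * (κ * u ^ 2))) := by
    rw [huu, hM]
    congr 1
    ring
  rw [h12]
  refine (mul_le_mul_of_nonneg_right h11 (Real.exp_pos _).le).trans ?_
  rw [← Real.exp_add]
  refine Real.exp_le_exp.2 ?_
  have h13 : 3 * 10 ^ 11 / (η ^ 3 * ε) * κ ^ (1 + η) = 3 * 10 ^ 11 * (M ^ 3 / ε * (κ * u ^ 2)) := by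
    rw [huu, hM]
    field_simp
  rw [h13]
  have h14 : 30000 * (M * κ) * (350000 * (M / ε * u)) * (21 * (M * u)) =
      220500000000 * (M ^ 3 / ε * (κ * u ^ 2)) := by
    field_simp
    ring
  rw [h14]
  have h15 : M * (κ * u ^ 2) ≤ M ^ 3 / ε * (κ * u ^ 2) := by
    refine mul_le_mul_of_nonneg_right (hMe.trans ?_) (by positivity)
    refine div_le_div_of_nonneg_right ?_ hε.le
    calc M = M * 1 := (mul_one M).symm
      _ ≤ M * M ^ 2 := mul_le_mul_of_nonneg_left (one_le_pow₀ hM1) (by linarith)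
      _ = M ^ 3 := by ring
  have h16 : 0 ≤ M ^ 3 / ε * (κ * u ^ 2) := by positivity
  linarith

variable {Γ : Type u} [AddCommGroup Γ] [DecidableEq Γ]

/-- **Sharp dimension and polynomially many translates.** -/
theorem poly_gen {A : Finset Γ}
    (hA : A.Nonempty) {K : ℝ} (hK : ((A + A).card : ℝ) ≤ K * A.card)
    {ε : ℝ} (hε : 0 < ε) (hε1 : ε ≤ 1) {η : ℝ} (hη : 0 < η) (hη1 : η ≤ 1) :
    ∃ (d : ℕ) (N : Seminorm ℝ (Fin d → ℝ)) (ψ : (Fin d → ℤ) →+ Γ) (H : AddSubgroup Γ)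
      (F : Finset Γ), (∀ x, N x = 0 → x = 0) ∧ Finite H ∧
      (d : ℝ) * Real.log 2 ≤ (1 + ε) * Real.log K + ε * Real.log 2 ∧
      (((LL N 1).ncard * Nat.card H : ℕ) : ℝ) ≤
        Real.exp (3 * 10 ^ 11 / (η ^ 3 * ε) * Real.log (2 * K) ^ (1 + η)) * A.card ∧
      F ⊆ A ∧ (F.card : ℝ) ≤ (2 * K) ^ (10 ^ 21 / (η ^ 2 * ε ^ 4)) ∧
      (∀ a ∈ A, ∃ f ∈ F, ∃ c ∈ LL N 1, ∃ h ∈ H, a = f + ψ c + h) ∧
      ∀ c : Fin d → ℤ, c ≠ 0 → N (cR c) ≤ 2 → ψ c ∉ H := by
  have hN : (0 : ℝ) < A.card := by exact_mod_cast card_pos.2 hA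
  have hK1 : 1 ≤ K := by
    have h1 : (A.card : ℝ) ≤ (A + A).card := by exact_mod_cast card_le_card_add_left hA
    have h2 : 1 * (A.card : ℝ) ≤ K * A.card := by linarith
    exact le_of_mul_le_mul_right h2 hN
  have hK0 : 0 < K := by linarith
  obtain ⟨M, hM⟩ : ∃ M, M = 1 / η := ⟨_, rfl⟩
  have hM1 : 1 ≤ M := by
    rw [hM, le_div_iff₀ hη]
    linarith
  obtain ⟨k, hk1, hk2, hk3, hk4⟩ := nums3 hM1 hε hε1
  have hkR : (1 : ℝ) ≤ k := by exact_mod_cast hk1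
  obtain ⟨κ, hκ⟩ : ∃ κ, κ = Real.log (2 * K) := ⟨_, rfl⟩
  have hlogK : 0 ≤ Real.log K := Real.log_nonneg hK1
  have hlog2 : 0 < Real.log 2 := Real.log_pos (by norm_num)
  have hκ' : κ = Real.log 2 + Real.log K := by
    rw [hκ, Real.log_mul (by norm_num) hK0.ne']
  have hκ69 : (0.69 : ℝ) < κ := by
    have := log_two_gt
    linarith
  have hκ0 : 0 < κ := by linarith
  obtain ⟨D, B, ψ₀, H₀, T, hD, hB, hH₀, hvol, hT, hcov⟩ := W860.PC.poly_cover hA hK hη hη1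
  obtain ⟨Q, hQ⟩ : ∃ Q : ℝ, Q = (2 * K) ^ (30000 * M) := ⟨_, rfl⟩
  have e1 : 30000 / η = 30000 * M := by rw [hM]; ring
  rw [e1, ← hQ] at hT
  have hQ1 : 1 ≤ Q := by
    rw [hQ]
    exact Real.one_le_rpow (by linarith) (by positivity)
  have hQ0 : 0 < Q := by linarith
  have hlogQ : Real.log Q = 30000 * M * κ := by
    rw [hQ, Real.log_rpow (by positivity), ← hκ]
  obtain ⟨d, N, ψ, H, F, hNd, hH, hdim, hsize, hFA, hF, hcovF, hpr⟩ := core_q hA hK hk1 hB hH₀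
    hQ1 hvol hT hcov (e := ε / 8) (by positivity) (by linarith)
  obtain ⟨K₁, hK₁⟩ : ∃ K₁ : ℝ, K₁ = 2 * (K ^ (k + 2) * Q) := ⟨_, rfl⟩
  rw [← hK₁] at hdim hF
  have hK₁0 : 0 < K₁ := by rw [hK₁]; positivity
  have hlogK₁ : Real.log K₁ = (k + 1) * Real.log K + (κ + 30000 * M * κ) := by
    rw [hK₁, Real.log_mul (by norm_num) (by positivity), Real.log_mul (by positivity) hQ0.ne',
      Real.log_pow, hlogQ, hκ']
    push_cast
    ring
  have hc13 : κ + 30000 * M * κ ≤ (k * (ε / 8)) * κ := by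
    have h1 : κ ≤ M * κ := by
      calc κ = 1 * κ := (one_mul κ).symm
        _ ≤ M * κ := mul_le_mul_of_nonneg_right hM1 hκ0.le
    have h2 : 30001 * M * κ ≤ (k * (ε / 8)) * κ := mul_le_mul_of_nonneg_right hk2 hκ0.le
    linarith
  have hlogK₁' : Real.log K₁ ≤ 2 * (240010 * M / ε) * κ := by
    rw [hlogK₁]
    have h2 : (k * (ε / 8)) * κ ≤ (k + 1) * κ := mul_le_mul_of_nonneg_right (by nlinarith) hκ0.le
    have h3 : (k + 1 : ℝ) * Real.log K ≤ (k + 1) * κ :=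
      mul_le_mul_of_nonneg_left (by linarith) (by linarith)
    have h4 : (k + 1 : ℝ) * κ ≤ (240010 * M / ε) * κ := mul_le_mul_of_nonneg_right hk4 hκ0.le
    linarith
  have hlogK₁0 : 0 ≤ Real.log K₁ := by
    rw [hlogK₁]
    positivity
  have hcst : SD.cst (2 ^ k) (ε / 8) = 128 * 10 ^ 7 * (k + 1) / ε ^ 2 := by
    unfold SD.cst
    rw [Nat.log_pow (by norm_num)]
    field_simp
    ring
  refine ⟨d, N, ψ, H, F, hNd, hH, ?_, ?_, hFA, ?_, hcovF, hpr⟩
  · rw [hlogK₁] at hdim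
    exact dim_num hkR hε hε1 hlogK hlog2 hκ' hk3 hc13 hdim
  · rw [hM] at hk4
    have h1 := size_num3 (D := D) (k := k) hκ69 hη hη1 hε hε1 (by rw [hκ]; exact hD) hk4
    rw [hκ] at h1
    calc (((LL N 1).ncard * Nat.card H : ℕ) : ℝ) ≤
        (4 * (D : ℝ) + 1) ^ (D * (k + 3 + Nat.log 2 (D + 1))) *
          (Real.exp (30000 / η * Real.log (2 * K) ^ (1 + η)) * A.card) := hsize
      _ = ((4 * (D : ℝ) + 1) ^ (D * (k + 3 + Nat.log 2 (D + 1))) *
          Real.exp (30000 / η * Real.log (2 * K) ^ (1 + η))) * A.card := by ring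
      _ ≤ _ := mul_le_mul_of_nonneg_right h1 hN.le
  · refine hF.trans ?_
    have hK₁e : K₁ ^ (SD.cst (2 ^ k) (ε / 8)) =
        Real.exp (SD.cst (2 ^ k) (ε / 8) * Real.log K₁) := by
      rw [Real.rpow_def_of_pos hK₁0, mul_comm]
    have e2 : 2 * K * (Q * (K₁ * K₁ ^ (SD.cst (2 ^ k) (ε / 8)))) =
        Real.exp (κ + 30000 * M * κ + Real.log K₁ +
          SD.cst (2 ^ k) (ε / 8) * Real.log K₁) := by
      rw [Real.exp_add, Real.exp_add, Real.exp_add, Real.exp_log hK₁0, ← hlogQ,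
        Real.exp_log hQ0, ← hK₁e, hκ, Real.exp_log (by positivity)]
      ring
    rw [e2, Real.rpow_def_of_pos (by positivity), ← hκ]
    refine Real.exp_le_exp.2 ?_
    have e3 : 10 ^ 21 / (η ^ 2 * ε ^ 4) = 10 ^ 21 * M ^ 2 / ε ^ 4 := by
      rw [hM]
      field_simp
    rw [e3]
    refine cover_num hM1 hκ0 hε hε1 hlogK₁' ?_
    refine mul_le_mul ?_ hlogK₁' hlogK₁0 (by positivity)
    rw [hcst]
    refine div_le_div_of_nonneg_right ?_ (by positivity)
    exact mul_le_mul_of_nonneg_left hk4 (by norm_num)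

end Pool.Agent.Run7.h127.SP
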