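import Pool.Agent.Run7.h127.SP.Floor

/-!
# Marton's conjecture in groups of exponent `m`: the exponent of `m`, upper bound
-/

set_option autoImplicit false
set_option linter.unusedSectionVars false

namespace Pool.Agent.Run7.h127.SP

open Finset
open scoped Pointwise

universe u

/-- the `s` largest of `n` numbers -/
lemma exists_top {n : ℕ} (x : Fin n → ℕ) (s : ℕ) (hs : s ≤ n) :
    ∃ S : Finset (Fin n), S.card = s ∧ ∀ i ∈ S, ∀ j ∉ S, x j ≤ x i := by
  induction s with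
  | zero => exact ⟨∅, rfl, by simp⟩
  | succ s ih =>
    obtain ⟨S, hS, hx⟩ := ih (by omega)
    have hne : (Sᶜ).Nonempty := by
      rw [← Finset.card_pos, card_compl, Fintype.card_fin]
      omega
    obtain ⟨i₀, hi₀, hmax⟩ := Finset.exists_max_image _ x hne
    rw [mem_compl] at hi₀
    refine ⟨insert i₀ S, by rw [card_insert_of_notMem hi₀, hS], ?_⟩
    intro i hi j hj
    rw [mem_insert, not_or] at hj
    rcases mem_insert.1 hi with rfl | hi
    · exact hmax j (mem_compl.2 hj.2)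
    · exact hx i hi j hj.2

/-- the product of the smallest numbers -/
lemma prod_small {n : ℕ} (x : Fin n → ℕ) (S : Finset (Fin n))
    (hx : ∀ i ∈ S, ∀ j ∉ S, x j ≤ x i) :
    (∏ j ∈ Sᶜ, x j) ^ n ≤ (∏ i, x i) ^ (Sᶜ).card := by
  have h1 : (∏ j ∈ Sᶜ, x j) ^ S.card ≤ (∏ i ∈ S, x i) ^ (Sᶜ).card := by
    rw [← Finset.prod_const, ← Finset.prod_pow]
    refine Finset.prod_le_prod' fun i hi => ?_
    rw [← Finset.prod_const]
    exact Finset.prod_le_prod' fun j hj => hx i hi j (mem_compl.1 hj)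
  have h2 : n = S.card + (Sᶜ).card := by
    rw [card_add_card_compl, Fintype.card_fin]
  calc (∏ j ∈ Sᶜ, x j) ^ n = (∏ j ∈ Sᶜ, x j) ^ S.card * (∏ j ∈ Sᶜ, x j) ^ (Sᶜ).card := by
        rw [← pow_add, ← h2]
    _ ≤ (∏ i ∈ S, x i) ^ (Sᶜ).card * (∏ j ∈ Sᶜ, x j) ^ (Sᶜ).card :=
        Nat.mul_le_mul_right _ h1
    _ = (∏ i, x i) ^ (Sᶜ).card := by
        rw [← mul_pow, Finset.prod_mul_prod_compl]

/-- the optimisation over the number of long sides -/
lemma top_choice {d D m : ℕ} (hm : 2 ≤ m) (hdD : d ≤ D) (x : Fin d → ℕ)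
    (hx1 : ∀ i, 1 ≤ x i) (hxm : ∀ i, x i ≤ m) :
    ∃ S : Finset (Fin d), m ^ S.card ≤ ∏ i, x i ∧
      (∏ j ∈ Sᶜ, x j) ^ D ≤ m ^ ((D + 1) ^ 2 / 4) := by
  obtain ⟨X, hX⟩ : ∃ X, X = ∏ i, x i := ⟨_, rfl⟩
  have hX1 : 1 ≤ X := by
    rw [hX]
    exact Nat.succ_le_of_lt (Finset.prod_pos fun i _ => Nat.lt_of_lt_of_le Nat.zero_lt_one (hx1 i))
  have hXm : X ≤ m ^ d := by
    rw [hX]
    calc ∏ i, x i ≤ ∏ _i : Fin d, m := Finset.prod_le_prod' fun i _ => hxm i
      _ = m ^ d := by rw [Finset.prod_const, Finset.card_univ, Fintype.card_fin]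
  have hlow : m ^ Nat.log m X ≤ X := Nat.pow_log_le_self m (by omega)
  have hup : X < m ^ (Nat.log m X + 1) := Nat.lt_pow_succ_log_self (by omega) X
  have hsd : Nat.log m X ≤ d := (Nat.pow_le_pow_iff_right (by omega)).1 (hlow.trans hXm)
  obtain ⟨S, hS, htop⟩ := exists_top x (Nat.log m X) hsd
  have h1 := prod_small x S htop
  refine ⟨S, by rw [hS, ← hX]; exact hlow, ?_⟩
  obtain ⟨P, hP⟩ : ∃ P, P = ∏ j ∈ Sᶜ, x j := ⟨_, rfl⟩
  have hPX : P ≤ X := by
    rw [hP, hX]
    exact Finset.prod_le_prod_of_subset_of_one_le' (subset_univ _) fun i _ _ => hx1 i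
  rw [← hP, ← hX] at h1
  rw [← hP]
  have hSc : (Sᶜ).card = d - Nat.log m X := by
    rw [card_compl, Fintype.card_fin, hS]
  rw [hSc] at h1
  obtain ⟨s, hs⟩ : ∃ s, s = Nat.log m X := ⟨_, rfl⟩
  rw [← hs] at h1 hup hsd
  calc P ^ D = P ^ d * P ^ (D - d) := by rw [← pow_add]; congr 1; omega
    _ ≤ X ^ (d - s) * X ^ (D - d) := Nat.mul_le_mul h1 (Nat.pow_le_pow_left hPX _)
    _ = X ^ (D - s) := by rw [← pow_add]; congr 1; omega
    _ ≤ (m ^ (s + 1)) ^ (D - s) := Nat.pow_le_pow_left hup.le _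
    _ = m ^ ((s + 1) * (D - s)) := by rw [pow_mul]
    _ ≤ m ^ ((D + 1) ^ 2 / 4) := by
      refine Nat.pow_le_pow_right (by omega) ?_
      rw [Nat.le_div_iff_mul_le (by norm_num)]
      obtain ⟨b, hb⟩ : ∃ b, b = D - s := ⟨_, rfl⟩
      have h3 : D + 1 = (s + 1) + b := by omega
      rw [← hb, h3]
      zify
      nlinarith [sq_nonneg (((s : ℤ) + 1) - b)]

variable {Γ : Type u} [AddCommGroup Γ] [DecidableEq Γ]

/-- adjoining elements of order at most `m` -/
lemma adjoin {m : ℕ} (hm : 0 < m) (htor : ∀ x : Γ, m • x = 0) {d : ℕ} (v : Fin d → Γ)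
    (H : AddSubgroup Γ) (hfin : Finite H) (S : Finset (Fin d)) :
    ∃ H' : AddSubgroup Γ, H ≤ H' ∧ (∀ i ∈ S, v i ∈ H') ∧ Finite H' ∧
      Nat.card H' ≤ Nat.card H * m ^ S.card := by
  classical
  induction S using Finset.induction_on with
  | empty => exact ⟨H, le_rfl, by simp, hfin, by simp⟩
  | insert i S hi ih =>
    obtain ⟨H', h1, h2, h3, h4⟩ := ih
    obtain ⟨Z, hZ⟩ : ∃ Z, Z = AddSubgroup.zmultiples (v i) := ⟨_, rfl⟩
    have hord : addOrderOf (v i) ≤ m := addOrderOf_le_of_nsmul_eq_zero hm (htor _)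
    have hord0 : 0 < addOrderOf (v i) :=
      (isOfFinAddOrder_iff_nsmul_eq_zero.2 ⟨m, hm, htor _⟩).addOrderOf_pos
    have hZc : Nat.card Z = addOrderOf (v i) := by rw [hZ]; exact Nat.card_zmultiples _
    have hZf : Finite Z := Nat.finite_of_card_ne_zero (by rw [hZc]; exact hord0.ne')
    obtain ⟨f, hf⟩ : ∃ f : H' × Z → (H' ⊔ Z : AddSubgroup Γ),
        f = fun p => ⟨p.1.1 + p.2.1, add_mem (AddSubgroup.mem_sup_left p.1.2)
          (AddSubgroup.mem_sup_right p.2.2)⟩ := ⟨_, rfl⟩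
    have hsurj : Function.Surjective f := by
      rintro ⟨x, hx⟩
      obtain ⟨y, hy, z, hz, hyz⟩ := AddSubgroup.mem_sup.1 hx
      refine ⟨(⟨y, hy⟩, ⟨z, hz⟩), ?_⟩
      rw [hf]
      exact Subtype.ext hyz
    have hfin' : Finite (H' ⊔ Z : AddSubgroup Γ) := Finite.of_surjective f hsurj
    refine ⟨H' ⊔ Z, h1.trans le_sup_left, ?_, hfin', ?_⟩
    · intro j hj
      rcases mem_insert.1 hj with rfl | hj
      · refine AddSubgroup.mem_sup_right ?_
        rw [hZ]
        exact AddSubgroup.mem_zmultiples _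
      · exact AddSubgroup.mem_sup_left (h2 j hj)
    · calc Nat.card (H' ⊔ Z : AddSubgroup Γ) ≤ Nat.card (H' × Z) :=
            Nat.card_le_card_of_surjective f hsurj
        _ = Nat.card H' * Nat.card Z := Nat.card_prod _ _
        _ ≤ (Nat.card H * m ^ S.card) * m := Nat.mul_le_mul h4 (hZc ▸ hord)
        _ = Nat.card H * m ^ (insert i S).card := by
          rw [card_insert_of_notMem hi, pow_succ]
          ring

/-- **From a proper coset progression to a subgroup, groups of exponent `m`.** -/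
theorem to_subgroup {A : Finset Γ} {m : ℕ} (hm : 2 ≤ m) (htor : ∀ x : Γ, m • x = 0)
    {d D : ℕ} (hD : 1 ≤ D) (hdD : d ≤ D) {v : Fin d → Γ} {L : Fin d → ℕ} {H : AddSubgroup Γ}
    {T : Finset Γ} (hfin : Finite H)
    (hprop : ∀ c c' : Fin d → ℤ, (∀ i, |c i| ≤ L i) → (∀ i, |c' i| ≤ L i) →
        ∑ i, c i • v i - ∑ i, c' i • v i ∈ H → c = c')
    (hsize : (∏ i, (2 * L i + 1)) * Nat.card H ≤ A.card)
    (hcov : ∀ a ∈ A, ∃ t ∈ T, ∃ c : Fin d → ℤ, (∀ i, |c i| ≤ L i) ∧
        ∃ h ∈ H, a = t + ∑ i, c i • v i + h) :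
    ∃ (H' : AddSubgroup Γ) (T' : Finset Γ), Finite H' ∧ Nat.card H' ≤ A.card ∧
      (T'.card : ℝ) ≤ (m : ℝ) ^ ((((D + 1) ^ 2 / 4 : ℕ) : ℝ) / D) * T.card ∧
      ∀ a ∈ A, ∃ t ∈ T', a - t ∈ H' := by
  classical
  have hxm : ∀ i, 2 * L i + 1 ≤ m := by
    intro i
    by_contra hcon
    rw [not_le] at hcon
    have h1 := hprop (Pi.single i (L i : ℤ)) (Pi.single i ((L i : ℤ) - m)) ?_ ?_ ?_
    · have h2 := congrFun h1 i
      rw [Pi.single_eq_same, Pi.single_eq_same] at h2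
      omega
    · intro j
      rcases eq_or_ne j i with rfl | hj
      · rw [Pi.single_eq_same, abs_of_nonneg (by positivity)]
      · rw [Pi.single_eq_of_ne hj, abs_zero]
        positivity
    · intro j
      rcases eq_or_ne j i with rfl | hj
      · rw [Pi.single_eq_same, abs_le]
        constructor <;> omega
      · rw [Pi.single_eq_of_ne hj, abs_zero]
        positivity
    · have h3 : ∀ z : ℤ, ∑ j, (Pi.single i z : Fin d → ℤ) j • v j = z • v i := by
        intro z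
        rw [Finset.sum_eq_single i]
        · rw [Pi.single_eq_same]
        · intro j _ hj
          rw [Pi.single_eq_of_ne hj, zero_smul]
        · intro h
          exact absurd (mem_univ i) h
      rw [h3, h3, ← sub_smul]
      have h4 : ((L i : ℤ) - ((L i : ℤ) - m)) = (m : ℤ) := by ring
      rw [h4, natCast_zsmul, htor]
      exact H.zero_mem
  obtain ⟨S, hS, hP⟩ := top_choice hm hdD (fun i => 2 * L i + 1) (fun i => by omega) hxm
  obtain ⟨H', hHH', hv, hfin', hcard'⟩ := adjoin (by omega) htor v H hfin S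
  obtain ⟨B, hB⟩ : ∃ B : Finset (Fin d → ℤ), B = Fintype.piFinset fun i =>
      if i ∈ S then {0} else Finset.Icc (-(L i : ℤ)) (L i) := ⟨_, rfl⟩
  have hBc : B.card = ∏ j ∈ Sᶜ, (2 * L j + 1) := by
    rw [hB, Fintype.card_piFinset, ← Finset.prod_mul_prod_compl S]
    have h1 : ∏ i ∈ S, (if i ∈ S then ({0} : Finset ℤ) else Finset.Icc (-(L i : ℤ)) (L i)).card
        = 1 := by
      refine Finset.prod_eq_one fun i hi => ?_
      rw [if_pos hi, card_singleton]
    rw [h1, one_mul]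
    refine Finset.prod_congr rfl fun i hi => ?_
    rw [if_neg (mem_compl.1 hi), Int.card_Icc]
    omega
  refine ⟨H', T + B.image (fun c : Fin d → ℤ => ∑ i, c i • v i), hfin', ?_, ?_, ?_⟩
  · calc Nat.card H' ≤ Nat.card H * m ^ S.card := hcard'
      _ ≤ Nat.card H * ∏ i, (2 * L i + 1) := Nat.mul_le_mul_left _ hS
      _ = (∏ i, (2 * L i + 1)) * Nat.card H := Nat.mul_comm _ _
      _ ≤ A.card := hsize
  · have h1 : ((T + B.image (fun c : Fin d → ℤ => ∑ i, c i • v i)).card : ℝ) ≤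
        T.card * B.card := by
      exact_mod_cast card_add_le.trans (Nat.mul_le_mul_left _ card_image_le)
    have h2 : (B.card : ℝ) ≤ (m : ℝ) ^ ((((D + 1) ^ 2 / 4 : ℕ) : ℝ) / D) := by
      have h3 : (B.card : ℝ) ^ (D : ℝ) ≤ (m : ℝ) ^ (((D + 1) ^ 2 / 4 : ℕ) : ℝ) := by
        rw [Real.rpow_natCast, Real.rpow_natCast, hBc]
        exact_mod_cast hP
      have hD0 : (0 : ℝ) < D := by exact_mod_cast hD
      have h4 := Real.rpow_le_rpow (by positivity) h3 (z := 1 / (D : ℝ)) (by positivity)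
      rw [← Real.rpow_mul (by positivity), ← Real.rpow_mul (by positivity),
        mul_one_div_cancel hD0.ne', Real.rpow_one, mul_one_div] at h4
      exact h4
    calc ((T + B.image (fun c : Fin d → ℤ => ∑ i, c i • v i)).card : ℝ) ≤ T.card * B.card := h1
      _ ≤ T.card * (m : ℝ) ^ ((((D + 1) ^ 2 / 4 : ℕ) : ℝ) / D) :=
        mul_le_mul_of_nonneg_left h2 (by positivity)
      _ = _ := mul_comm _ _
  · intro a ha
    obtain ⟨t, ht, c, hc, h, hh, rfl⟩ := hcov a ha
    obtain ⟨c', hc'⟩ : ∃ c' : Fin d → ℤ, c' = fun i => if i ∈ S then 0 else c i := ⟨_, rfl⟩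
    refine ⟨t + ∑ i, c' i • v i, add_mem_add ht (mem_image.2 ⟨c', ?_, rfl⟩), ?_⟩
    · rw [hB, Fintype.mem_piFinset]
      intro i
      rw [hc']
      by_cases hi : i ∈ S
      · simp [hi]
      · have := abs_le.1 (hc i)
        simp only [hi, if_false, mem_Icc]
        exact this
    · have h1 : t + ∑ i, c i • v i + h - (t + ∑ i, c' i • v i) =
          ∑ i, (c i - c' i) • v i + h := by
        simp only [sub_smul, Finset.sum_sub_distrib]
        abel
      rw [h1]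
      refine add_mem (sum_mem fun i _ => ?_) (hHH' hh)
      by_cases hi : i ∈ S
      · exact zsmul_mem (hv i hi) _
      · rw [hc']
        simp only [hi, if_false, sub_self, zero_smul]
        exact zero_mem _

end Pool.Agent.Run7.h127.SP
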