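import Pool.Agent.Run7.h127.SP.Tor

/-!
# Groups of exponent `m`: dimension against the number of translates, upper bound
-/

set_option autoImplicit false
set_option linter.unusedSectionVars false

namespace Pool.Agent.Run7.h127.SP

open Finset
open scoped Pointwise

universe u

/-- a chain of sets of largest elements -/
lemma exists_chain {n : ℕ} (x : Fin n → ℕ) :
    ∃ S : ℕ → Finset (Fin n), (∀ k, k ≤ n → (S k).card = k) ∧
      (∀ k, ∀ i ∈ S k, ∀ j ∉ S k, x j ≤ x i) ∧ ∀ k l, k ≤ l → S k ⊆ S l := by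
  classical
  obtain ⟨σ, hσ⟩ : ∃ σ : Equiv.Perm (Fin n), ∀ i j, i ≤ j → x (σ j) ≤ x (σ i) := by
    refine ⟨Tuple.sort (fun i => OrderDual.toDual (x i)), fun i j hij => ?_⟩
    exact Tuple.monotone_sort (fun i => OrderDual.toDual (x i)) hij
  refine ⟨fun k => univ.filter fun i => ((σ.symm i : Fin n) : ℕ) < k, ?_, ?_, ?_⟩
  · intro k hk
    have h1 : ((univ.filter fun i => ((σ.symm i : Fin n) : ℕ) < k).image
        fun i => ((σ.symm i : Fin n) : ℕ)) = range k := by
      ext a
      rw [mem_image, mem_range]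
      constructor
      · rintro ⟨i, hi, rfl⟩
        exact (mem_filter.1 hi).2
      · intro ha
        refine ⟨σ ⟨a, by omega⟩, mem_filter.2 ⟨mem_univ _, ?_⟩, ?_⟩ <;> simp [ha]
    have h2 := congrArg Finset.card h1
    rw [card_range, card_image_of_injective] at h2
    · exact h2
    · intro i j hij
      exact σ.symm.injective (Fin.ext hij)
  · intro k i hi j hj
    rw [mem_filter] at hi hj
    have h1 : ((σ.symm i : Fin n) : ℕ) < k := hi.2
    have h2 : ¬ ((σ.symm j : Fin n) : ℕ) < k := fun h => hj ⟨mem_univ _, h⟩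
    have h3 := hσ (σ.symm i) (σ.symm j) (Fin.le_def.2 (by omega))
    rwa [Equiv.apply_symm_apply, Equiv.apply_symm_apply] at h3
  · intro k l hkl i hi
    rw [mem_filter] at hi ⊢
    exact ⟨mem_univ _, by omega⟩

/-- the elementary inequality behind the tradeoff -/
lemma weigh {a b u w : ℕ} {x y M : ℝ} (hx : 0 ≤ x) (hxy : x ≤ y)
    (h : x ^ a * y ^ b ≤ M) (hab : u = a + b) (hw : w = u) : x ^ w ≤ M := by
  subst hw hab
  rw [pow_add]
  exact (mul_le_mul_of_nonneg_left (pow_le_pow_left₀ hx hxy b) (by positivity)).trans h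

/-- the choice of the number `t` of completed directions -/
lemma trade_choice {d r m : ℕ} (hm : 2 ≤ m) (hr : 1 ≤ r) (hrd : r < d) (x : Fin d → ℕ)
    (hx1 : ∀ i, 1 ≤ x i) :
    ∃ (S R : Finset (Fin d)) (s : ℕ), s < d - r ∧ Disjoint S R ∧ R.card = r ∧
      m ^ S.card ≤ ∏ i, x i ∧
      (max ((∏ i ∈ (S ∪ R)ᶜ, x i : ℕ) : ℝ) ((m : ℝ) ^ S.card / (∏ i ∈ S, x i : ℕ))) ^ (d - r + 1) ≤
        (m : ℝ) ^ ((s + 1) * (d - r - s)) := by
  classical
  obtain ⟨S, hSc, htop, hmono⟩ := exists_chain x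
  obtain ⟨n, hn⟩ : ∃ n, n = d - r := ⟨_, rfl⟩
  rw [← hn]
  obtain ⟨P, hP⟩ : ∃ P : ℕ → ℕ, P = fun k => ∏ i ∈ S k, x i := ⟨_, rfl⟩
  obtain ⟨F, hF⟩ : ∃ F : ℕ → ℕ, F = fun k => ∏ i ∈ (S (k + r))ᶜ, x i := ⟨_, rfl⟩
  obtain ⟨X, hX⟩ : ∃ X, X = ∏ i, x i := ⟨_, rfl⟩
  have hP1 : ∀ k, 1 ≤ P k := fun k => by
    rw [hP]
    exact Nat.succ_le_of_lt (Finset.prod_pos fun i _ => Nat.lt_of_lt_of_le Nat.zero_lt_one (hx1 i))
  have hF1 : ∀ k, 1 ≤ F k := fun k => by
    rw [hF]
    exact Nat.succ_le_of_lt (Finset.prod_pos fun i _ => Nat.lt_of_lt_of_le Nat.zero_lt_one (hx1 i))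
  have hPF : ∀ k, P k * F k ≤ X := by
    intro k
    rw [hP, hF, hX]
    simp only
    have hdis : Disjoint (S k) (S (k + r))ᶜ := by
      rw [Finset.disjoint_right]
      intro i hi hik
      exact (mem_compl.1 hi) (hmono k (k + r) (by omega) hik)
    rw [← Finset.prod_union hdis]
    exact Finset.prod_le_prod_of_subset_of_one_le' (subset_univ _) fun i _ _ => hx1 i
  -- packaging an option
  have hpack : ∀ t, t ≤ n → Disjoint (S t) (S (t + r) \ S t) ∧ (S (t + r) \ S t).card = r ∧
      (S t).card = t ∧ (S t ∪ (S (t + r) \ S t))ᶜ = (S (t + r))ᶜ := by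
    intro t ht
    have hsub := hmono t (t + r) (by omega)
    refine ⟨disjoint_sdiff, ?_, hSc t (by omega), ?_⟩
    · rw [card_sdiff_of_subset hsub, hSc t (by omega), hSc (t + r) (by omega)]
      omega
    · rw [Finset.union_sdiff_of_subset hsub]
  have hmR : (1 : ℝ) ≤ m := by
    have : 1 ≤ m := by omega
    exact_mod_cast this
  have hPpos : ∀ k, (0 : ℝ) < P k := fun k => by exact_mod_cast hP1 k
  obtain ⟨s, hs⟩ : ∃ s, s = Nat.findGreatest (fun s => m ^ s ≤ P s * F s) n := ⟨_, rfl⟩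
  have hsn : s ≤ n := by rw [hs]; exact Nat.findGreatest_le n
  have hs1 : m ^ s ≤ P s * F s := by
    rw [hs]
    refine Nat.findGreatest_spec (P := fun s => m ^ s ≤ P s * F s) (m := 0) (Nat.zero_le _) ?_
    rw [pow_zero]
    exact Nat.mul_pos (hP1 0) (hF1 0)
  have hgs : (m : ℝ) ^ s / P s ≤ F s := by
    rw [div_le_iff₀ (hPpos s)]
    have : m ^ s ≤ F s * P s := by rw [mul_comm]; exact hs1
    exact_mod_cast this
  rcases Nat.eq_or_lt_of_le hsn with hsn' | hsn'
  · -- `s = n`
    obtain ⟨p1, p2, p3, p4⟩ := hpack s hsn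
    refine ⟨S s, S (s + r) \ S s, 0, by omega, p1, p2, ?_, ?_⟩
    · rw [p3, ← hX]
      exact hs1.trans (hPF s)
    · have hFs : F s = 1 := by
        rw [hF]
        simp only
        have h1 : (S (s + r))ᶜ = ∅ := by
          rw [← Finset.card_eq_zero, card_compl, Fintype.card_fin, hSc _ (by omega)]
          omega
        rw [h1, Finset.prod_empty]
      have hmax : max ((∏ i ∈ (S s ∪ (S (s + r) \ S s))ᶜ, x i : ℕ) : ℝ)
          ((m : ℝ) ^ (S s).card / (∏ i ∈ S s, x i : ℕ)) ≤ 1 := by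
        rw [p3, p4]
        have e1 : (∏ i ∈ (S (s + r))ᶜ, x i) = F s := by rw [hF]
        have e2 : (∏ i ∈ S s, x i) = P s := by rw [hP]
        rw [e1, e2, hFs, Nat.cast_one]
        rw [hFs, Nat.cast_one] at hgs
        exact max_le le_rfl hgs
      exact (pow_le_one₀ (le_max_of_le_left (by positivity)) hmax).trans (one_le_pow₀ hmR)
  · have hs2 : P (s + 1) * F (s + 1) < m ^ (s + 1) := by
      have := Nat.findGreatest_is_greatest (P := fun s => m ^ s ≤ P s * F s) (n := n) (k := s + 1)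
        (by omega) (by omega)
      exact not_le.1 this
    have hcardF : ((S (s + r))ᶜ).card = n - s := by
      rw [card_compl, Fintype.card_fin, hSc _ (by omega)]
      omega
    rcases Nat.lt_or_ge X (m ^ (s + 1)) with hXs | hXs
    · -- not enough room for `s + 1` directions
      obtain ⟨p1, p2, p3, p4⟩ := hpack s hsn
      refine ⟨S s, S (s + r) \ S s, s, hsn', p1, p2, ?_, ?_⟩
      · rw [p3, ← hX]
        exact hs1.trans (hPF s)
      · rw [p3, p4]
        have e1 : (∏ i ∈ (S (s + r))ᶜ, x i) = F s := by rw [hF]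
        have e2 : (∏ i ∈ S s, x i) = P s := by rw [hP]
        rw [e1, e2, max_eq_left hgs]
        have h1 := prod_small x (S (s + r)) (htop _)
        rw [e1, ← hX, hcardF] at h1
        have h2 : F s ^ (n + 1) ≤ m ^ ((s + 1) * (n - s)) := by
          calc F s ^ (n + 1) ≤ F s ^ d := Nat.pow_le_pow_right (hF1 s) (by omega)
            _ ≤ X ^ (n - s) := h1
            _ ≤ (m ^ (s + 1)) ^ (n - s) := Nat.pow_le_pow_left hXs.le _
            _ = m ^ ((s + 1) * (n - s)) := by rw [pow_mul]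
        exact_mod_cast h2
    · -- two options
      have hne : (S (s + 1)).Nonempty := by
        rw [← Finset.card_pos, hSc _ (by omega)]
        omega
      obtain ⟨i₀, hi₀, hmin⟩ := Finset.exists_min_image (S (s + 1)) x hne
      obtain ⟨b, hb⟩ : ∃ b, b = x i₀ := ⟨_, rfl⟩
      have hb1 : 1 ≤ b := by rw [hb]; exact hx1 i₀
      have hFb : F s ≤ b ^ (n - s) := by
        rw [hF]
        simp only
        rw [← hcardF, ← Finset.prod_const]
        refine Finset.prod_le_prod' fun j hj => ?_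
        rw [hb]
        refine htop (s + 1) i₀ hi₀ j ?_
        intro hj'
        exact (mem_compl.1 hj) (hmono (s + 1) (s + r) (by omega) hj')
      have hPb : b ^ (s + 1) ≤ P (s + 1) := by
        rw [hP]
        simp only
        have h1 : b ^ (s + 1) = ∏ _i ∈ S (s + 1), b := by
          rw [Finset.prod_const, hSc _ (by omega)]
        rw [h1]
        exact Finset.prod_le_prod' fun i hi => by rw [hb]; exact hmin i hi
      obtain ⟨G, hG⟩ : ∃ G : ℝ, G = (m : ℝ) ^ (s + 1) / P (s + 1) := ⟨_, rfl⟩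
      have hG0 : 0 ≤ G := by rw [hG]; positivity
      have hb0 : (0 : ℝ) < b := by exact_mod_cast hb1
      have hFbR : (F s : ℝ) ≤ (b : ℝ) ^ (n - s) := by exact_mod_cast hFb
      have hGb : G ≤ ((m : ℝ) / b) ^ (s + 1) := by
        rw [hG, div_pow]
        refine div_le_div_of_nonneg_left (by positivity) (by positivity) ?_
        exact_mod_cast hPb
      have hkey : (F s : ℝ) ^ (s + 1) * G ^ (n - s) ≤ (m : ℝ) ^ ((s + 1) * (n - s)) := by
        calc (F s : ℝ) ^ (s + 1) * G ^ (n - s)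
            ≤ ((b : ℝ) ^ (n - s)) ^ (s + 1) * (((m : ℝ) / b) ^ (s + 1)) ^ (n - s) :=
              mul_le_mul (pow_le_pow_left₀ (by positivity) hFbR _)
                (pow_le_pow_left₀ hG0 hGb _) (by positivity) (by positivity)
          _ = (m : ℝ) ^ ((s + 1) * (n - s)) := by
            rw [← pow_mul, ← pow_mul, mul_comm (n - s) (s + 1), ← mul_pow,
              mul_div_cancel₀ _ hb0.ne']
      rcases le_total (F s : ℝ) G with hFG | hFG
      · obtain ⟨p1, p2, p3, p4⟩ := hpack s hsn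
        refine ⟨S s, S (s + r) \ S s, s, hsn', p1, p2, ?_, ?_⟩
        · rw [p3, ← hX]
          exact hs1.trans (hPF s)
        · rw [p3, p4]
          have e1 : (∏ i ∈ (S (s + r))ᶜ, x i) = F s := by rw [hF]
          have e2 : (∏ i ∈ S s, x i) = P s := by rw [hP]
          rw [e1, e2, max_eq_left hgs]
          exact weigh (by positivity) hFG hkey rfl (by omega)
      · obtain ⟨p1, p2, p3, p4⟩ := hpack (s + 1) hsn'
        refine ⟨S (s + 1), S (s + 1 + r) \ S (s + 1), s, hsn', p1, p2, ?_, ?_⟩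
        · rw [p3, ← hX]
          exact hXs
        · rw [p3, p4]
          have e1 : (∏ i ∈ (S (s + 1 + r))ᶜ, x i) = F (s + 1) := by rw [hF]
          have e2 : (∏ i ∈ S (s + 1), x i) = P (s + 1) := by rw [hP]
          have h3 : (F (s + 1) : ℝ) ≤ G := by
            rw [hG, le_div_iff₀ (hPpos _)]
            have : F (s + 1) * P (s + 1) ≤ m ^ (s + 1) := by rw [mul_comm]; exact hs2.le
            exact_mod_cast this
          rw [e1, e2, ← hG, max_eq_right h3]
          rw [mul_comm] at hkey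
          exact weigh hG0 hFG hkey rfl (by omega)

/-- covering an interval by translates of a shorter one -/
lemma cover_interval {L l : ℕ} (h : l ≤ L) : ∃ Y : Finset ℤ,
    ((Y.card : ℕ) : ℝ) ≤ 2 * (2 * L + 1) / (2 * l + 1) ∧
      ∀ c : ℤ, |c| ≤ L → ∃ y ∈ Y, |c - y| ≤ l := by
  refine ⟨(range (2 * L / (2 * l + 1) + 1)).image fun k : ℕ => -(L : ℤ) + l + k * (2 * l + 1),
    ?_, ?_⟩
  · rw [le_div_iff₀ (by positivity)]
    have h1 : ((range (2 * L / (2 * l + 1) + 1)).image fun k : ℕ =>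
        -(L : ℤ) + l + k * (2 * l + 1)).card ≤ 2 * L / (2 * l + 1) + 1 :=
      card_image_le.trans (by rw [card_range])
    have h2 : (2 * L / (2 * l + 1) + 1) * (2 * l + 1) ≤ 2 * (2 * L + 1) := by
      have h3 := Nat.div_mul_le_self (2 * L) (2 * l + 1)
      rw [add_mul, one_mul]
      omega
    have h4 := (Nat.mul_le_mul_right (2 * l + 1) h1).trans h2
    exact_mod_cast h4
  · intro c hc
    obtain ⟨q, hq⟩ : ∃ q : ℕ, q = (c + L).toNat := ⟨_, rfl⟩
    have hc' := abs_le.1 hc
    have hqc : (q : ℤ) = c + L := by rw [hq]; exact Int.toNat_of_nonneg (by linarith)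
    have hq2 : q ≤ 2 * L := by
      have : (q : ℤ) ≤ 2 * L := by rw [hqc]; linarith
      exact_mod_cast this
    refine ⟨-(L : ℤ) + l + (q / (2 * l + 1) : ℕ) * (2 * l + 1), mem_image.2
      ⟨q / (2 * l + 1), mem_range.2 (Nat.lt_succ_of_le (Nat.div_le_div_right hq2)), rfl⟩, ?_⟩
    have h1 := Nat.div_add_mod q (2 * l + 1)
    have h2 := Nat.mod_lt q (show 0 < 2 * l + 1 by omega)
    obtain ⟨k, hk⟩ : ∃ k, k = q / (2 * l + 1) := ⟨_, rfl⟩
    obtain ⟨w, hw⟩ : ∃ w, w = q % (2 * l + 1) := ⟨_, rfl⟩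
    rw [← hk, ← hw] at h1
    rw [← hw] at h2
    rw [← hk]
    have h3 : (2 * (l : ℤ) + 1) * k + w = c + L := by rw [← hqc]; exact_mod_cast h1
    have h4 : (w : ℤ) < 2 * l + 1 := by exact_mod_cast h2
    have h5 : (0 : ℤ) ≤ w := by positivity
    rw [abs_le]
    constructor <;> nlinarith

/-- **Shrinking a box to a prescribed volume.** -/
lemma shrink_box {d : ℕ} (L : Fin d → ℕ) (R : Finset (Fin d)) : ∀ Z : ℝ, 1 ≤ Z →
    ∃ (L' : Fin d → ℕ) (Y : Finset (Fin d → ℤ)), (∀ i ∉ R, L' i = 0) ∧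
      ((∏ i ∈ R, (2 * L' i + 1) : ℕ) : ℝ) ≤ Z ∧
      (Y.card : ℝ) ≤ 6 * max 1 (((∏ i ∈ R, (2 * L i + 1) : ℕ) : ℝ) / Z) ∧
      ∀ c : Fin d → ℤ, (∀ i, |c i| ≤ L i) → (∀ i ∉ R, c i = 0) →
        ∃ y ∈ Y, ∃ e : Fin d → ℤ, (∀ i, |e i| ≤ L' i) ∧ c = y + e := by
  classical
  induction R using Finset.induction_on with
  | empty =>
    intro Z hZ
    refine ⟨fun _ => 0, {0}, fun _ _ => rfl, by simpa using hZ, ?_, ?_⟩
    · rw [card_singleton, Nat.cast_one]
      have : (1 : ℝ) ≤ max 1 (((∏ i ∈ (∅ : Finset (Fin d)), (2 * L i + 1) : ℕ) : ℝ) / Z) :=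
        le_max_left _ _
      linarith
    · intro c _ hc
      refine ⟨0, mem_singleton_self _, 0, fun i => by simp, ?_⟩
      funext i
      rw [hc i (by simp)]
      simp
  | insert i R hi ih =>
    intro Z hZ
    have hne : ∀ j ∈ R, j ≠ i := fun j hj h => hi (by rw [← h]; exact hj)
    have hZ0 : 0 < Z := by linarith
    obtain ⟨W, hW⟩ : ∃ W : ℕ, W = ∏ j ∈ R, (2 * L j + 1) := ⟨_, rfl⟩
    have hprod : ∏ j ∈ insert i R, (2 * L j + 1) = (2 * L i + 1) * W := by
      rw [Finset.prod_insert hi, hW]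
    rw [hprod]
    have hx0 : (0 : ℝ) < 2 * (L i : ℝ) + 1 := by positivity
    rcases le_or_gt (2 * (L i : ℝ) + 1) Z with hcase | hcase
    · obtain ⟨L', Y, g1, g2, g3, g4⟩ := ih (Z / (2 * L i + 1)) (by rwa [le_div_iff₀ hx0, one_mul])
      refine ⟨Function.update L' i (L i), Y, ?_, ?_, ?_, ?_⟩
      · intro j hj
        rw [mem_insert, not_or] at hj
        rw [Function.update_of_ne hj.1]
        exact g1 j hj.2
      · rw [Finset.prod_insert hi, Function.update_self]
        have h1 : ∏ j ∈ R, (2 * Function.update L' i (L i) j + 1) = ∏ j ∈ R, (2 * L' j + 1) :=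
          Finset.prod_congr rfl fun j hj => by
            rw [Function.update_of_ne (hne j hj)]
        rw [h1]
        rw [le_div_iff₀ hx0] at g2
        push_cast at g2 ⊢
        linarith
      · refine g3.trans (le_of_eq ?_)
        rw [← hW]
        congr 2
        push_cast
        field_simp
      · intro c hc hc0
        obtain ⟨y, hy, e, he, hce⟩ := g4 (Function.update c i 0) (fun j => by
            rcases eq_or_ne j i with rfl | hj
            · rw [Function.update_self, abs_zero]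
              positivity
            · rw [Function.update_of_ne hj]
              exact hc j) (fun j hj => by
            rcases eq_or_ne j i with rfl | hj'
            · rw [Function.update_self]
            · rw [Function.update_of_ne hj']
              exact hc0 j (by rw [mem_insert, not_or]; exact ⟨hj', hj⟩))
        have hei : e i = 0 := by
          have := he i
          rw [g1 i hi, Nat.cast_zero] at this
          exact abs_nonpos_iff.1 this
        refine ⟨y, hy, e + Pi.single i (c i), fun j => ?_, ?_⟩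
        · rcases eq_or_ne j i with rfl | hj
          · rw [Pi.add_apply, hei, zero_add, Pi.single_eq_same, Function.update_self]
            exact hc j
          · rw [Pi.add_apply, Pi.single_eq_of_ne hj, add_zero, Function.update_of_ne hj]
            exact he j
        · rw [← add_assoc, ← hce]
          funext j
          rcases eq_or_ne j i with rfl | hj
          · rw [Pi.add_apply, Function.update_self, Pi.single_eq_same, zero_add]
          · rw [Pi.add_apply, Function.update_of_ne hj, Pi.single_eq_of_ne hj, add_zero]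
    · -- shrink this side, all others to points
      obtain ⟨l, hl⟩ : ∃ l : ℕ, l = ⌊(Z - 1) / 2⌋₊ := ⟨_, rfl⟩
      have hl1 : (l : ℝ) ≤ (Z - 1) / 2 := by rw [hl]; exact Nat.floor_le (by linarith)
      have hl2 : (Z - 1) / 2 < l + 1 := by rw [hl]; exact Nat.lt_floor_add_one _
      have hlL : l ≤ L i := by
        have : (l : ℝ) ≤ L i := by linarith
        exact_mod_cast this
      have hl3 : Z ≤ 3 * (2 * l + 1) := by
        have h0 : (0 : ℝ) ≤ l := by positivity
        linarith
      obtain ⟨Y₀, hY₀, hcov₀⟩ := cover_interval hlL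
      obtain ⟨Y, hY⟩ : ∃ Y : Finset (Fin d → ℤ), Y = Fintype.piFinset fun j =>
        if j = i then Y₀ else if j ∈ R then Finset.Icc (-(L j : ℤ)) (L j) else {0} := ⟨_, rfl⟩
      have hYc : Y.card = Y₀.card * W := by
        rw [hY, Fintype.card_piFinset, ← Finset.mul_prod_erase univ _ (mem_univ i), if_pos rfl]
        congr 1
        rw [hW]
        symm
        refine Finset.prod_subset_one_on_sdiff ?_ ?_ ?_
        · intro j hj
          exact mem_erase.2 ⟨hne j hj, mem_univ _⟩
        · intro j hj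
          rw [mem_sdiff, mem_erase] at hj
          rw [if_neg hj.1.1, if_neg hj.2, card_singleton]
        · intro j hj
          rw [if_neg (hne j hj), if_pos hj, Int.card_Icc]
          omega
      refine ⟨Function.update (fun _ => 0) i l, Y, ?_, ?_, ?_, ?_⟩
      · intro j hj
        rw [mem_insert, not_or] at hj
        rw [Function.update_of_ne hj.1]
      · rw [Finset.prod_insert hi, Function.update_self]
        have h1 : ∏ j ∈ R, (2 * Function.update (fun _ : Fin d => 0) i l j + 1) = 1 :=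
          Finset.prod_eq_one fun j hj => by
            rw [Function.update_of_ne (hne j hj), mul_zero, zero_add]
        rw [h1]
        push_cast
        linarith
      · refine le_trans ?_ (mul_le_mul_of_nonneg_left (le_max_right _ _) (by norm_num))
        rw [hYc]
        push_cast
        have hWp : (0 : ℝ) ≤ W := by positivity
        have h1 : (Y₀.card : ℝ) ≤ 6 * (2 * L i + 1) / Z := by
          refine hY₀.trans ?_
          rw [div_le_div_iff₀ (by positivity) hZ0]
          have h2 : (2 * L i + 1) * Z ≤ (2 * L i + 1) * (3 * (2 * l + 1)) :=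
            mul_le_mul_of_nonneg_left hl3 hx0.le
          linarith
        calc (Y₀.card : ℝ) * W ≤ 6 * (2 * L i + 1) / Z * W := mul_le_mul_of_nonneg_right h1 hWp
          _ = _ := by ring
      · intro c hc hc0
        obtain ⟨y, hy, hyl⟩ := hcov₀ (c i) (hc i)
        refine ⟨Function.update c i y, ?_, Pi.single i (c i - y), fun j => ?_, ?_⟩
        · rw [hY, Fintype.mem_piFinset]
          intro j
          rcases eq_or_ne j i with rfl | hj
          · rw [if_pos rfl, Function.update_self]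
            exact hy
          · rw [if_neg hj, Function.update_of_ne hj]
            by_cases hjR : j ∈ R
            · rw [if_pos hjR, mem_Icc]
              exact abs_le.1 (hc j)
            · rw [if_neg hjR, hc0 j (by rw [mem_insert, not_or]; exact ⟨hj, hjR⟩)]
              exact mem_singleton_self _
        · rcases eq_or_ne j i with rfl | hj
          · rw [Pi.single_eq_same, Function.update_self]
            exact hyl
          · rw [Pi.single_eq_of_ne hj, abs_zero, Function.update_of_ne hj]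
            simp
        · funext j
          rcases eq_or_ne j i with rfl | hj
          · rw [Pi.add_apply, Function.update_self, Pi.single_eq_same]
            ring
          · rw [Pi.add_apply, Function.update_of_ne hj, Pi.single_eq_of_ne hj, add_zero]

/-- the exponents -/
lemma trade_exp {m s n' n : ℕ} (hm : 1 ≤ m) (hs : s < n') (hn : n' ≤ n) {C : ℝ} (hC : 0 ≤ C)
    (h : C ^ (n' + 1) ≤ (m : ℝ) ^ ((s + 1) * (n' - s))) :
    C ≤ (m : ℝ) ^ ((((n + 1) ^ 2 / 4 : ℕ) : ℝ) / ((n + 1 : ℕ) : ℝ)) := by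
  have hmR : (1 : ℝ) ≤ m := by exact_mod_cast hm
  have h1 : C ^ ((n' + 1 : ℕ) : ℝ) ≤ (m : ℝ) ^ (((s + 1) * (n' - s) : ℕ) : ℝ) := by
    rw [Real.rpow_natCast, Real.rpow_natCast]
    exact h
  have hn0 : (0 : ℝ) < ((n' + 1 : ℕ) : ℝ) := by positivity
  have h2 := Real.rpow_le_rpow (by positivity) h1 (z := 1 / ((n' + 1 : ℕ) : ℝ)) (by positivity)
  rw [← Real.rpow_mul hC, ← Real.rpow_mul (by positivity), mul_one_div_cancel hn0.ne',
    Real.rpow_one, mul_one_div] at h2
  refine h2.trans (Real.rpow_le_rpow_of_exponent_le hmR ?_)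
  rw [div_le_div_iff₀ hn0 (by positivity)]
  have h3 : (s + 1) * (n' - s) * (n + 1) ≤ (s + 1) * (n - s) * (n' + 1) := by
    rw [mul_assoc, mul_assoc]
    refine Nat.mul_le_mul_left _ ?_
    obtain ⟨a, ha⟩ : ∃ a, n' = s + a := ⟨n' - s, by omega⟩
    obtain ⟨b, hb⟩ : ∃ b, n = s + b := ⟨n - s, by omega⟩
    have hab : a ≤ b := by omega
    have e1 : n' - s = a := by omega
    have e2 : n - s = b := by omega
    rw [e1, e2, ha, hb]
    have h4 : a * (s + 1) ≤ b * (s + 1) := Nat.mul_le_mul_right _ hab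
    linarith [add_mul a (s + 1) (a * b), mul_comm a b, mul_add a (s + 1) b, mul_add b (s + 1) a]
  have h5 : (s + 1) * (n - s) ≤ (n + 1) ^ 2 / 4 := by
    rw [Nat.le_div_iff_mul_le (by norm_num)]
    obtain ⟨b, hb⟩ : ∃ b, b = n - s := ⟨_, rfl⟩
    have h6 : n + 1 = (s + 1) + b := by omega
    rw [← hb, h6]
    zify
    nlinarith [sq_nonneg (((s : ℤ) + 1) - b)]
  exact_mod_cast h3.trans (Nat.mul_le_mul_right _ h5)

variable {Γ : Type u} [AddCommGroup Γ] [DecidableEq Γ]

/-- **Reducing the rank of a coset progression in a group of exponent `m`.** -/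
theorem to_trade {A : Finset Γ} {m r : ℕ} (hm : 2 ≤ m) (htor : ∀ x : Γ, m • x = 0) (hr : 1 ≤ r)
    {d D : ℕ} (hdD : d ≤ D) {v : Fin d → Γ} {L : Fin d → ℕ} {H : AddSubgroup Γ}
    {T : Finset Γ} (hfin : Finite H)
    (hsize : (∏ i, (2 * L i + 1)) * Nat.card H ≤ A.card)
    (hcov : ∀ a ∈ A, ∃ t ∈ T, ∃ c : Fin d → ℤ, (∀ i, |c i| ≤ L i) ∧
        ∃ h ∈ H, a = t + ∑ i, c i • v i + h) :
    ∃ (k : ℕ) (w : Fin k → Γ) (M : Fin k → ℕ) (H' : AddSubgroup Γ) (T' : Finset Γ), k ≤ r ∧
      Finite H' ∧ (∏ i, (2 * M i + 1)) * Nat.card H' ≤ A.card ∧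
      (T'.card : ℝ) ≤ 6 * (m : ℝ) ^ ((((D - r + 1) ^ 2 / 4 : ℕ) : ℝ) / ((D - r + 1 : ℕ) : ℝ)) *
        T.card ∧
      ∀ a ∈ A, ∃ t ∈ T', ∃ c : Fin k → ℤ, (∀ i, |c i| ≤ M i) ∧
        ∃ h ∈ H', a = t + ∑ i, c i • w i + h := by
  classical
  have hmR : (1 : ℝ) ≤ m := by
    have : 1 ≤ m := by omega
    exact_mod_cast this
  rcases Nat.lt_or_ge r d with hrd | hrd
  swap
  · refine ⟨d, v, L, H, T, hrd, hfin, hsize, ?_, hcov⟩
    have h1 : (1 : ℝ) ≤ (m : ℝ) ^ ((((D - r + 1) ^ 2 / 4 : ℕ) : ℝ) / ((D - r + 1 : ℕ) : ℝ)) :=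
      Real.one_le_rpow hmR (by positivity)
    have h2 : (0 : ℝ) ≤ T.card := by positivity
    nlinarith
  · obtain ⟨x, hx⟩ : ∃ x : Fin d → ℕ, x = fun i => 2 * L i + 1 := ⟨_, rfl⟩
    obtain ⟨S, R, s, hsd, hdis, hRc, hSX, hC⟩ := trade_choice hm hr hrd x
      (fun i => by rw [hx]; simp)
    obtain ⟨C, hCdef⟩ : ∃ C : ℝ, C = max ((∏ i ∈ (S ∪ R)ᶜ, x i : ℕ) : ℝ)
      ((m : ℝ) ^ S.card / (∏ i ∈ S, x i : ℕ)) := ⟨_, rfl⟩
    rw [← hCdef] at hC
    have hC0 : 0 ≤ C := by rw [hCdef]; exact le_max_of_le_left (by positivity)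
    have hCfin := trade_exp (by omega) hsd (Nat.sub_le_sub_right hdD r) hC0 hC
    obtain ⟨H', hHH', hv, hfin', hcard'⟩ := adjoin (by omega) htor v H hfin S
    obtain ⟨X, hX⟩ : ∃ X : ℕ, X = ∏ i, x i := ⟨_, rfl⟩
    obtain ⟨F, hF⟩ : ∃ F : ℕ, F = ∏ i ∈ (S ∪ R)ᶜ, x i := ⟨_, rfl⟩
    obtain ⟨XS, hXS⟩ : ∃ X : ℕ, X = ∏ i ∈ S, x i := ⟨_, rfl⟩
    obtain ⟨XR, hXR⟩ : ∃ X : ℕ, X = ∏ i ∈ R, x i := ⟨_, rfl⟩
    have hx1 : ∀ i, 0 < x i := fun i => by rw [hx]; simp
    have hXSp : 0 < XS := by rw [hXS]; exact Finset.prod_pos fun i _ => hx1 i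
    have hXRp : 0 < XR := by rw [hXR]; exact Finset.prod_pos fun i _ => hx1 i
    have hFp : 0 < F := by rw [hF]; exact Finset.prod_pos fun i _ => hx1 i
    have hXe : X = XS * XR * F := by
      rw [hX, hXS, hXR, hF, ← Finset.prod_union hdis, Finset.prod_mul_prod_compl]
    have hm0 : (0 : ℝ) < (m : ℝ) ^ S.card := by positivity
    obtain ⟨Z, hZ⟩ : ∃ Z : ℝ, Z = X / (m : ℝ) ^ S.card := ⟨_, rfl⟩
    have hZ1 : 1 ≤ Z := by
      rw [hZ, le_div_iff₀ hm0, one_mul, hX]
      exact_mod_cast hSX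
    have hZX : Z * (m : ℝ) ^ S.card = X := by rw [hZ]; field_simp
    obtain ⟨L', Y, g1, g2, g3, g4⟩ := shrink_box L R Z hZ1
    have hXR' : ∏ i ∈ R, (2 * L i + 1) = XR := by rw [hXR, hx]
    rw [hXR'] at g3
    -- the enumerated directions
    obtain ⟨B, hB⟩ : ∃ B : Finset (Fin d → ℤ), B = Fintype.piFinset fun i =>
        if i ∈ S ∪ R then {0} else Finset.Icc (-(L i : ℤ)) (L i) := ⟨_, rfl⟩
    have hBc : B.card = F := by
      rw [hB, Fintype.card_piFinset, ← Finset.prod_mul_prod_compl (S ∪ R)]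
      have h1 : ∏ i ∈ S ∪ R, (if i ∈ S ∪ R then ({0} : Finset ℤ)
          else Finset.Icc (-(L i : ℤ)) (L i)).card = 1 := by
        refine Finset.prod_eq_one fun i hi => ?_
        rw [if_pos hi, card_singleton]
      rw [h1, one_mul, hF, hx]
      refine Finset.prod_congr rfl fun i hi => ?_
      rw [if_neg (mem_compl.1 hi), Int.card_Icc]
      show _ = 2 * L i + 1
      omega
    obtain ⟨φ, hφ⟩ : ∃ φ : (Fin d → ℤ) → Γ, φ = fun c => ∑ i, c i • v i := ⟨_, rfl⟩
    have hφadd : ∀ c c', φ (c + c') = φ c + φ c' := by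
      intro c c'
      rw [hφ]
      simp only [Pi.add_apply, add_smul, Finset.sum_add_distrib]
    obtain ⟨eR, -⟩ : ∃ eR : Fin r ≃ R, True := ⟨(Finset.equivFinOfCardEq hRc).symm, trivial⟩
    refine ⟨r, fun k => v (eR k), fun k => L' (eR k), H', T + B.image φ + Y.image φ, le_rfl, hfin',
      ?_, ?_, ?_⟩
    · have h1 : ∏ k : Fin r, (2 * L' (eR k) + 1) = ∏ i ∈ R, (2 * L' i + 1) :=
        (Equiv.prod_comp eR (fun i : R => 2 * L' i + 1)).trans
          (Finset.prod_coe_sort R fun i => 2 * L' i + 1)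
      rw [h1]
      have h2 : (((∏ i ∈ R, (2 * L' i + 1)) * Nat.card H' : ℕ) : ℝ) ≤ A.card := by
        calc (((∏ i ∈ R, (2 * L' i + 1)) * Nat.card H' : ℕ) : ℝ)
            = ((∏ i ∈ R, (2 * L' i + 1) : ℕ) : ℝ) * (Nat.card H' : ℕ) := by rw [Nat.cast_mul]
          _ ≤ Z * ((Nat.card H * m ^ S.card : ℕ) : ℝ) :=
            mul_le_mul g2 (by exact_mod_cast hcard') (by positivity) (by linarith)
          _ = (Z * (m : ℝ) ^ S.card) * Nat.card H := by push_cast; ring
          _ = ((X * Nat.card H : ℕ) : ℝ) := by rw [hZX]; push_cast; ring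
          _ ≤ A.card := by
            rw [hX, hx]
            exact_mod_cast hsize
      exact_mod_cast h2
    · have h1 : ((T + B.image φ + Y.image φ).card : ℝ) ≤ T.card * F * Y.card := by
        have h2 : (T + B.image φ + Y.image φ).card ≤ T.card * F * Y.card := by
          refine card_add_le.trans (Nat.mul_le_mul ?_ card_image_le)
          rw [← hBc]
          exact card_add_le.trans (Nat.mul_le_mul_left _ card_image_le)
        exact_mod_cast h2
      have hXp : (0 : ℝ) < X := by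
        rw [hXe]
        exact_mod_cast Nat.mul_pos (Nat.mul_pos hXSp hXRp) hFp
      have h3 : (F : ℝ) * max 1 ((XR : ℝ) / Z) = C := by
        rw [hCdef, ← hF, ← hXS, mul_max_of_nonneg _ _ (by positivity), mul_one]
        congr 1
        rw [hZ, hXe]
        have e1 : (XS : ℝ) ≠ 0 := by exact_mod_cast hXSp.ne'
        have e2 : (XR : ℝ) ≠ 0 := by exact_mod_cast hXRp.ne'
        have e3 : (F : ℝ) ≠ 0 := by exact_mod_cast hFp.ne'
        push_cast
        field_simp
      calc ((T + B.image φ + Y.image φ).card : ℝ) ≤ T.card * F * Y.card := h1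
        _ ≤ T.card * F * (6 * max 1 ((XR : ℝ) / Z)) :=
          mul_le_mul_of_nonneg_left g3 (by positivity)
        _ = 6 * (F * max 1 ((XR : ℝ) / Z)) * T.card := by ring
        _ = 6 * C * T.card := by rw [h3]
        _ ≤ _ := by
          refine mul_le_mul_of_nonneg_right ?_ (by positivity)
          exact mul_le_mul_of_nonneg_left hCfin (by norm_num)
    · intro a ha
      obtain ⟨t, ht, c, hc, h, hh, rfl⟩ := hcov a ha
      obtain ⟨c₁, hc₁⟩ : ∃ c₁ : Fin d → ℤ, c₁ = fun i => if i ∈ S then c i else 0 := ⟨_, rfl⟩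
      obtain ⟨c₂, hc₂⟩ : ∃ c₂ : Fin d → ℤ, c₂ = fun i => if i ∈ R then c i else 0 := ⟨_, rfl⟩
      obtain ⟨c₃, hc₃⟩ : ∃ c₃ : Fin d → ℤ, c₃ = fun i => if i ∈ S ∪ R then 0 else c i := ⟨_, rfl⟩
      have hcsum : c = c₃ + (c₂ + c₁) := by
        funext i
        rw [Pi.add_apply, Pi.add_apply, hc₁, hc₂, hc₃]
        by_cases hiS : i ∈ S
        · have hiR : i ∉ R := fun h => (Finset.disjoint_left.1 hdis) hiS h
          simp [hiS, hiR]
        · by_cases hiR : i ∈ R
          · simp [hiS, hiR]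
          · simp [hiS, hiR]
      obtain ⟨y, hy, e, he, hye⟩ := g4 c₂ (fun i => by
          rw [hc₂]
          by_cases hiR : i ∈ R
          · simp only [hiR, if_true]
            exact hc i
          · simp [hiR]) (fun i hi => by rw [hc₂]; simp [hi])
      refine ⟨t + φ c₃ + φ y, add_mem_add (add_mem_add ht (mem_image_of_mem φ ?_))
        (mem_image_of_mem φ hy), fun k => e (eR k), fun k => he _, φ c₁ + h, ?_, ?_⟩
      · rw [hB, Fintype.mem_piFinset]
        intro i
        rw [hc₃]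
        by_cases hi : i ∈ S ∪ R
        · simp only [hi, if_true, mem_singleton]
        · have := abs_le.1 (hc i)
          simp only [hi, if_false, mem_Icc]
          exact this
      · refine add_mem ?_ (hHH' hh)
        rw [hφ]
        refine sum_mem fun i _ => ?_
        by_cases hi : i ∈ S
        · exact zsmul_mem (hv i hi) _
        · rw [hc₁]
          simp only [hi, if_false, zero_smul]
          exact zero_mem _
      · have h1 : ∑ k : Fin r, e (eR k) • v (eR k) = φ e := by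
          have h2 : ∑ k : Fin r, e (eR k) • v (eR k) = ∑ i ∈ R, e i • v i :=
            (Equiv.sum_comp eR (fun i : R => e i • v i)).trans
              (Finset.sum_coe_sort R fun i => e i • v i)
          rw [h2, hφ]
          refine Finset.sum_subset (subset_univ _) fun i _ hi => ?_
          have h3 := he i
          rw [g1 i hi, Nat.cast_zero] at h3
          rw [abs_nonpos_iff.1 h3, zero_smul]
        have h4 : ∑ i, c i • v i = φ c := by rw [hφ]
        rw [h1, h4, hcsum, hφadd, hφadd, hye, hφadd]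
        abel

end Pool.Agent.Run7.h127.SP
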