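import Pool.Agent.Run7.h127.SP.Low
import Pool.Agent.Run7.h127.SP.Tor

/-!
# Groups of exponent `m`: dimension against the number of translates, lower bounds
-/

set_option autoImplicit false

namespace Pool.Agent.Run7.h127.SP

open Finset
open scoped Pointwise

/-- the subgroup spanned by `H` and the image of `ψ` -/
lemma span_image {G : Type} [AddCommGroup G] {m r : ℕ} (hm : 0 < m) (htor : ∀ x : G, m • x = 0)
    (H : AddSubgroup G) (hfin : Finite H) (ψ : (Fin r → ℤ) →+ G) :
    ∃ H' : AddSubgroup G, H ≤ H' ∧ (∀ b, ψ b ∈ H') ∧ Finite H' ∧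
      Nat.card H' ≤ Nat.card H * m ^ r := by
  classical
  obtain ⟨H', h1, h2, h3, h4⟩ := adjoin hm htor (fun i : Fin r => ψ (Pi.single i 1)) H hfin univ
  refine ⟨H', h1, ?_, h3, by simpa using h4⟩
  intro b
  have h5 : b = ∑ i, b i • (Pi.single i 1 : Fin r → ℤ) := by
    funext j
    rw [Finset.sum_apply, Finset.sum_eq_single j]
    · simp
    · intro i _ hij
      simp [Pi.single_eq_of_ne hij.symm]
    · intro h
      exact absurd (mem_univ j) h
  rw [h5, map_sum]
  refine sum_mem fun i _ => ?_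
  rw [map_zsmul]
  exact zsmul_mem (h2 i (mem_univ i)) _

/-- counting a covered set -/
lemma count_cover {G : Type} [AddCommGroup G] [DecidableEq G] {A : Finset G} {T : Finset G}
    {ι : Type} [DecidableEq ι] (B : Finset ι) (f : ι → G) (H : AddSubgroup G) (q : ℕ)
    (hq : ∀ y : G, ∀ F : Finset G, F ⊆ A → (∀ a ∈ F, a - y ∈ H) → F.card ≤ q)
    (hcov : ∀ a ∈ A, ∃ t ∈ T, ∃ b ∈ B, a - (t + f b) ∈ H) :
    A.card ≤ T.card * B.card * q := by
  classical
  have h2 : A ⊆ (T ×ˢ B).biUnion fun t => A.filter fun a => a - (t.1 + f t.2) ∈ H := by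
    intro a ha
    obtain ⟨t, ht, b, hb, hat⟩ := hcov a ha
    exact mem_biUnion.2 ⟨(t, b), mem_product.2 ⟨ht, hb⟩, mem_filter.2 ⟨ha, hat⟩⟩
  refine (card_le_card h2).trans (card_biUnion_le.trans ?_)
  rw [← card_product, ← smul_eq_mul, ← Finset.sum_const]
  exact Finset.sum_le_sum fun t _ => hq _ _ (filter_subset _ _) fun a ha => (mem_filter.1 ha).2

/-- **Boxes in `𝔽_p ^ d` and coset progressions of dimension `r`.** -/
theorem low_trade {p d r : ℕ} (hp : p.Prime) (hrd : r < d) :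
    ∃ A : Finset (Fin d → ZMod p), A.Nonempty ∧ (A + A).card ≤ 2 ^ d * A.card ∧
      ∀ (H : AddSubgroup (Fin d → ZMod p)) (ψ : (Fin r → ℤ) →+ (Fin d → ZMod p))
        (B : Finset (Fin r → ℤ)) (T : Finset (Fin d → ZMod p)),
        B.card * Nat.card H ≤ A.card → (∀ a ∈ A, ∃ t ∈ T, ∃ b ∈ B, a - (t + ψ b) ∈ H) →
          (p : ℝ) ^ ((((d - r + 1) ^ 2 / 4 : ℕ) : ℝ) / ((d - r + 1 : ℕ) : ℝ)) ≤
            2 ^ ((d - r) / 2 + 1) * T.card := by
  classical
  have : Fact p.Prime := ⟨hp⟩
  have hp2 := hp.two_le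
  obtain ⟨n, hn⟩ : ∃ n, n = d - r := ⟨_, rfl⟩
  rw [← hn]
  obtain ⟨q, hq⟩ : ∃ q, q = (n + 1) / 2 := ⟨_, rfl⟩
  obtain ⟨x, hx1, hxp, hx2, hx3⟩ := side (p := p) (d := n + 1) (r := q) hp2 (by omega) (by omega)
    (by omega)
  obtain ⟨I, hI⟩ : ∃ I : Finset (ZMod p), I = (range x).image (Nat.cast : ℕ → ZMod p) := ⟨_, rfl⟩
  obtain ⟨hIc, A, hAne, hAA, hAc, hmemA⟩ := box hx1 hxp d I hI
  refine ⟨A, hAne, hAA, ?_⟩
  intro H ψ B T hH hcov
  have htor : ∀ y : Fin d → ZMod p, p • y = 0 := by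
    intro y
    funext i
    rw [Pi.smul_apply, nsmul_eq_mul, ZMod.natCast_self, zero_mul, Pi.zero_apply]
  obtain ⟨j, hj, hbound⟩ := sub_box I hIc.le d H
  obtain ⟨H', g1, g2, g3, g4⟩ := span_image hp.pos htor H inferInstance ψ
  obtain ⟨j', hj', hbound'⟩ := sub_box I hIc.le d H'
  have hjj' : j' ≤ j + r := by
    rw [hj, hj', ← pow_add] at g4
    exact (Nat.pow_le_pow_iff_right hp2).1 g4
  -- the two counts
  have c1 : A.card ≤ T.card * 1 * x ^ (j + r) := by
    have := count_cover (A := A) (T := T) ({0} : Finset (Fin r → ℤ)) (fun b => ψ b) H'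
      (x ^ (j + r)) (fun y F hF h => (hbound' y F (fun a ha => hmemA a (hF ha)) h).trans
        (Nat.pow_le_pow_right hx1 hjj')) (fun a ha => by
          obtain ⟨t, ht, b, hb, hat⟩ := hcov a ha
          refine ⟨t, ht, 0, mem_singleton_self _, ?_⟩
          have h1 : a - (t + ψ 0) = (a - (t + ψ b)) + ψ b := by
            rw [map_zero]
            abel
          rw [h1]
          exact add_mem (g1 hat) (g2 b))
    rwa [card_singleton] at this
  have c2 : A.card ≤ T.card * B.card * x ^ j :=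
    count_cover (A := A) (T := T) B (fun b => ψ b) H (x ^ j)
      (fun y F hF h => hbound y F (fun a ha => hmemA a (hF ha)) h) hcov
  obtain ⟨e, he⟩ : ∃ e, e = n / 2 + 1 := ⟨_, rfl⟩
  rw [← he]
  have h3 : q * e = (n + 1) ^ 2 / 4 := by rw [hq, he]; exact half_mul n
  have h4 : p ^ ((n + 1) ^ 2 / 4) ≤ (2 ^ e * T.card) ^ (n + 1) := by
    rw [← h3]
    rcases Nat.lt_or_ge j q with hjq | hjq
    · have h5 : x ^ e ≤ T.card := by
        have h6 : x ^ e * x ^ (q - 1 + r) ≤ T.card * x ^ (q - 1 + r) := by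
          calc x ^ e * x ^ (q - 1 + r) = x ^ d := by rw [← pow_add]; congr 1; omega
            _ = A.card := hAc.symm
            _ ≤ T.card * 1 * x ^ (j + r) := c1
            _ ≤ T.card * x ^ (q - 1 + r) := by
              rw [mul_one]
              exact Nat.mul_le_mul_left _ (Nat.pow_le_pow_right hx1 (by omega))
        exact Nat.le_of_mul_le_mul_right h6 (by positivity)
      calc p ^ (q * e) = (p ^ q) ^ e := pow_mul _ _ _
        _ ≤ ((2 * x) ^ (n + 1)) ^ e := Nat.pow_le_pow_left hx3 e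
        _ = (2 ^ e * x ^ e) ^ (n + 1) := by
          rw [← mul_pow, ← pow_mul, ← pow_mul, mul_comm (n + 1) e]
        _ ≤ (2 ^ e * T.card) ^ (n + 1) := Nat.pow_le_pow_left (Nat.mul_le_mul_left _ h5) _
    · have hAp : 0 < A.card := card_pos.2 hAne
      have h5 : p ^ j ≤ T.card * x ^ j := by
        have h6 : p ^ j * A.card ≤ (T.card * x ^ j) * A.card := by
          calc p ^ j * A.card ≤ p ^ j * (T.card * B.card * x ^ j) := Nat.mul_le_mul_left _ c2
            _ = (T.card * x ^ j) * (B.card * p ^ j) := by ring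
            _ ≤ (T.card * x ^ j) * A.card := Nat.mul_le_mul_left _ (by rw [← hj]; exact hH)
        exact Nat.le_of_mul_le_mul_right h6 hAp
      have h7 : p ^ q ≤ T.card * x ^ q := by
        have h8 : p ^ q * x ^ (j - q) ≤ (T.card * x ^ q) * x ^ (j - q) := by
          calc p ^ q * x ^ (j - q) ≤ p ^ q * p ^ (j - q) :=
                Nat.mul_le_mul_left _ (Nat.pow_le_pow_left hxp _)
            _ = p ^ j := by rw [← pow_add]; congr 1; omega
            _ ≤ T.card * x ^ j := h5
            _ = (T.card * x ^ q) * x ^ (j - q) := by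
              rw [mul_assoc, ← pow_add]
              congr 2
              omega
        exact Nat.le_of_mul_le_mul_right h8 (by positivity)
      have h9 : p ^ (q * e) * p ^ (q * q) ≤ (2 ^ e * T.card) ^ (n + 1) * p ^ (q * q) := by
        calc p ^ (q * e) * p ^ (q * q) = (p ^ q) ^ (n + 1) := by
              rw [← pow_add, ← pow_mul, ← mul_add]
              congr 2
              omega
          _ ≤ (T.card * x ^ q) ^ (n + 1) := Nat.pow_le_pow_left h7 _
          _ = T.card ^ (n + 1) * (x ^ (n + 1)) ^ q := by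
            rw [mul_pow, ← pow_mul, ← pow_mul, mul_comm q (n + 1)]
          _ ≤ (2 ^ e * T.card) ^ (n + 1) * (p ^ q) ^ q := by
            refine Nat.mul_le_mul (Nat.pow_le_pow_left ?_ _) (Nat.pow_le_pow_left hx2.le _)
            exact Nat.le_mul_of_pos_left _ (by positivity)
          _ = _ := by rw [← pow_mul]
      exact Nat.le_of_mul_le_mul_right h9 (by positivity)
  have hd0 : (0 : ℝ) < ((n + 1 : ℕ) : ℝ) := by positivity
  have h5 : (p : ℝ) ^ (((n + 1) ^ 2 / 4 : ℕ) : ℝ) ≤
      ((2 : ℝ) ^ e * T.card) ^ (((n + 1 : ℕ) : ℝ)) := by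
    rw [Real.rpow_natCast, Real.rpow_natCast]
    exact_mod_cast h4
  have h6 := Real.rpow_le_rpow (by positivity) h5 (z := 1 / (((n + 1 : ℕ) : ℝ))) (by positivity)
  rw [← Real.rpow_mul (by positivity), ← Real.rpow_mul (by positivity),
    mul_one_div_cancel hd0.ne', Real.rpow_one, mul_one_div] at h6
  exact h6

/-- **Every modulus, every dimension.** -/
theorem low_all_trade {m : ℕ} (hm : 0 < m) (d r : ℕ) :
    ∃ A : Finset (Fin d → ZMod m), A.Nonempty ∧ (A + A).card ≤ 2 ^ d * A.card ∧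
      ∀ (H : AddSubgroup (Fin d → ZMod m)) (ψ : (Fin r → ℤ) →+ (Fin d → ZMod m))
        (B : Finset (Fin r → ℤ)) (T : Finset (Fin d → ZMod m)),
        B.card * Nat.card H ≤ A.card → (∀ a ∈ A, ∃ t ∈ T, ∃ b ∈ B, a - (t + ψ b) ∈ H) →
          Nat.sqrt m ^ (2 * d) ≤ T.card ^ 4 * m ^ r := by
  classical
  have : NeZero m := ⟨hm.ne'⟩
  obtain ⟨x, hx⟩ : ∃ x, x = Nat.sqrt m := ⟨_, rfl⟩
  have hx1 : 1 ≤ x := by rw [hx]; exact Nat.sqrt_pos.2 hm
  have hxx : x * x ≤ m := by rw [hx]; exact Nat.sqrt_le m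
  have hxm : x ≤ m := by rw [hx]; exact Nat.sqrt_le_self m
  obtain ⟨I, hI⟩ : ∃ I : Finset (ZMod m), I = (range x).image (Nat.cast : ℕ → ZMod m) := ⟨_, rfl⟩
  obtain ⟨-, A, hAne, hAA, hAc, hmem⟩ := box hx1 hxm d I hI
  refine ⟨A, hAne, hAA, fun H ψ B T hH hcov => ?_⟩
  rw [← hx]
  have htor : ∀ y : Fin d → ZMod m, m • y = 0 := by
    intro y
    funext i
    rw [Pi.smul_apply, nsmul_eq_mul, ZMod.natCast_self, zero_mul, Pi.zero_apply]
  obtain ⟨H', g1, g2, g3, g4⟩ := span_image hm htor H inferInstance ψ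
  obtain ⟨h, hh⟩ : ∃ h, h = Nat.card H := ⟨_, rfl⟩
  have hh0 : 0 < h := by rw [hh]; exact Nat.card_pos
  have hbd : ∀ (G : AddSubgroup (Fin d → ZMod m)) (y : Fin d → ZMod m)
      (F : Finset (Fin d → ZMod m)), F ⊆ A → (∀ a ∈ F, a - y ∈ G) →
      F.card ≤ Nat.sqrt (Nat.card G) := by
    intro G y F hF hy
    rw [Nat.le_sqrt]
    exact sq_box hxx G y F (fun a ha i => hI ▸ hmem a (hF ha) i) hy
  have c1 : A.card ≤ T.card * 1 * Nat.sqrt (Nat.card H') := by
    have := count_cover (A := A) (T := T) ({0} : Finset (Fin r → ℤ)) (fun b => ψ b) H'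
      (Nat.sqrt (Nat.card H')) (hbd H') (fun a ha => by
          obtain ⟨t, ht, b, hb, hat⟩ := hcov a ha
          refine ⟨t, ht, 0, mem_singleton_self _, ?_⟩
          have h1 : a - (t + ψ 0) = (a - (t + ψ b)) + ψ b := by
            rw [map_zero]
            abel
          rw [h1]
          exact add_mem (g1 hat) (g2 b))
    rwa [card_singleton] at this
  have c2 : A.card ≤ T.card * B.card * Nat.sqrt h := by
    rw [hh]
    exact count_cover (A := A) (T := T) B (fun b => ψ b) H _ (hbd H) hcov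
  have hAp : 0 < A.card := card_pos.2 hAne
  have e1 : A.card * A.card ≤ T.card ^ 2 * (h * m ^ r) := by
    calc A.card * A.card ≤ (T.card * 1 * Nat.sqrt (Nat.card H')) *
          (T.card * 1 * Nat.sqrt (Nat.card H')) := Nat.mul_le_mul c1 c1
      _ = T.card ^ 2 * (Nat.sqrt (Nat.card H') * Nat.sqrt (Nat.card H')) := by ring
      _ ≤ T.card ^ 2 * (h * m ^ r) := by
        rw [hh]
        exact Nat.mul_le_mul_left _ ((Nat.sqrt_le _).trans g4)
  have e2 : h ≤ T.card ^ 2 := by
    have e3 : h * (A.card * A.card) ≤ T.card ^ 2 * (A.card * A.card) := by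
      calc h * (A.card * A.card) ≤ h * ((T.card * B.card * Nat.sqrt h) *
            (T.card * B.card * Nat.sqrt h)) := Nat.mul_le_mul_left _ (Nat.mul_le_mul c2 c2)
        _ = T.card ^ 2 * (B.card * B.card * h * (Nat.sqrt h * Nat.sqrt h)) := by ring
        _ ≤ T.card ^ 2 * (B.card * B.card * h * h) :=
          Nat.mul_le_mul_left _ (Nat.mul_le_mul_left _ (Nat.sqrt_le _))
        _ = T.card ^ 2 * ((B.card * h) * (B.card * h)) := by ring
        _ ≤ T.card ^ 2 * (A.card * A.card) := by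
          rw [hh]
          exact Nat.mul_le_mul_left _ (Nat.mul_le_mul hH hH)
    exact Nat.le_of_mul_le_mul_right e3 (Nat.mul_pos hAp hAp)
  calc x ^ (2 * d) = A.card * A.card := by rw [hAc, ← pow_add]; congr 1; omega
    _ ≤ T.card ^ 2 * (h * m ^ r) := e1
    _ ≤ T.card ^ 2 * (T.card ^ 2 * m ^ r) :=
      Nat.mul_le_mul_left _ (Nat.mul_le_mul_right _ e2)
    _ = T.card ^ 4 * m ^ r := by ring

/-- the power of the torsion -/
noncomputable def te (d r : ℕ) : ℝ :=
  if r = 0 then (((d + 1) ^ 2 / 4 : ℕ) : ℝ) / (d : ℝ)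
  else (((d - r + 1) ^ 2 / 4 : ℕ) : ℝ) / ((d - r + 1 : ℕ) : ℝ)

/-- **The lower bound for every doubling constant and every dimension.** -/
theorem low_K_trade {p : ℕ} {K : ℝ} (hp : p.Prime) (hK : 1 < K) {d : ℕ}
    (hd : d = max 1 ⌊Real.logb 2 K⌋₊) (r : ℕ) :
    ∃ A : Finset (Fin d → ZMod p), A.Nonempty ∧ ((A + A).card : ℝ) ≤ K * A.card ∧
      ∀ (H : AddSubgroup (Fin d → ZMod p)) (ψ : (Fin r → ℤ) →+ (Fin d → ZMod p))
        (B : Finset (Fin r → ℤ)) (T : Finset (Fin d → ZMod p)),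
        B.card * Nat.card H ≤ A.card → (∀ a ∈ A, ∃ t ∈ T, ∃ b ∈ B, a - (t + ψ b) ∈ H) →
          (K - 1) / (2 * K ^ 2) * (p : ℝ) ^ (te d r) ≤ T.card := by
  classical
  have hK0 : 0 < K := by linarith
  rcases Nat.eq_zero_or_pos r with hr | hr
  · subst hr
    obtain ⟨A, hAne, hAA, hA⟩ := low_K hp hK hd
    refine ⟨A, hAne, hAA, fun H ψ B T hH hcov => ?_⟩
    rw [te, if_pos rfl]
    refine hA H T ?_ ?_
    · have hB : 1 ≤ B.card := by
        obtain ⟨a, ha⟩ := hAne
        obtain ⟨t, _, b, hb, _⟩ := hcov a ha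
        exact card_pos.2 ⟨b, hb⟩
      calc Nat.card H = 1 * Nat.card H := (one_mul _).symm
        _ ≤ B.card * Nat.card H := Nat.mul_le_mul_right _ hB
        _ ≤ A.card := hH
    · intro a ha
      obtain ⟨t, ht, b, _, hat⟩ := hcov a ha
      refine ⟨t, ht, ?_⟩
      have hb : b = 0 := Subsingleton.elim _ _
      rwa [hb, map_zero, add_zero] at hat
  · rcases Nat.lt_or_ge r d with hrd | hrd
    · obtain ⟨A, hAne, hAA, hA⟩ := low_trade hp hrd
      have hdK : (2 : ℝ) ^ d ≤ K := by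
        have h2 : 1 ≤ ⌊Real.logb 2 K⌋₊ := by
          by_contra hcon
          have : max 1 ⌊Real.logb 2 K⌋₊ = 1 := max_eq_left (by omega)
          omega
        rw [max_eq_right h2] at hd
        have h3 : (d : ℝ) ≤ Real.logb 2 K := by
          rw [hd]
          refine Nat.floor_le ?_
          exact Real.logb_nonneg (by norm_num) hK.le
        rw [Real.le_logb_iff_rpow_le (by norm_num) hK0, Real.rpow_natCast] at h3
        exact h3
      refine ⟨A, hAne, ?_, fun H ψ B T hH hcov => ?_⟩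
      · calc ((A + A).card : ℝ) ≤ ((2 ^ d * A.card : ℕ) : ℝ) := by exact_mod_cast hAA
          _ = (2 : ℝ) ^ d * A.card := by push_cast; ring
          _ ≤ K * A.card := mul_le_mul_of_nonneg_right hdK (by positivity)
      · rw [te, if_neg (by omega)]
        have h1 := hA H ψ B T hH hcov
        have h2 : (2 : ℝ) ^ ((d - r) / 2 + 1) ≤ 2 * K := by
          have h3 : (2 : ℝ) ^ ((d - r) / 2) ≤ 2 ^ d := pow_le_pow_right₀ (by norm_num) (by omega)
          rw [pow_succ]
          linarith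
        have h4 : (K - 1) / (2 * K ^ 2) ≤ 1 / (2 * K) := by
          rw [div_le_div_iff₀ (by positivity) (by positivity)]
          nlinarith
        calc (K - 1) / (2 * K ^ 2) * (p : ℝ) ^
              ((((d - r + 1) ^ 2 / 4 : ℕ) : ℝ) / ((d - r + 1 : ℕ) : ℝ))
            ≤ 1 / (2 * K) * (2 ^ ((d - r) / 2 + 1) * T.card) :=
              mul_le_mul h4 h1 (by positivity) (by positivity)
          _ ≤ 1 / (2 * K) * (2 * K * T.card) := by
              refine mul_le_mul_of_nonneg_left ?_ (by positivity)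
              exact mul_le_mul_of_nonneg_right h2 (by positivity)
          _ = T.card := by
              field_simp
    · refine ⟨{0}, singleton_nonempty _, ?_, fun H ψ B T hH hcov => ?_⟩
      · rw [Finset.singleton_add_singleton, card_singleton, card_singleton, Nat.cast_one]
        linarith
      · obtain ⟨t, ht, -⟩ := hcov 0 (mem_singleton_self _)
        have h1 : (1 : ℝ) ≤ T.card := by exact_mod_cast card_pos.2 ⟨t, ht⟩
        refine le_trans ?_ h1
        have h2 : d - r = 0 := by omega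
        have h3 : te d r = 0 := by
          rw [te, if_neg (by omega), h2]
          norm_num
        rw [h3, Real.rpow_zero, mul_one, div_le_one (by positivity)]
        nlinarith

end Pool.Agent.Run7.h127.SP
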