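import Pool.Agent.Run7.h127.SP.Trade
import Pool.Agent.Run7.h127.SP.TradeLow

/-!
# Groups of exponent `m`: dimension against the number of translates, upper bounds
-/

set_option autoImplicit false
set_option linter.unusedSectionVars false

namespace Pool.Agent.Run7.h127.SP

open Finset
open scoped Pointwise

universe u

variable {Γ : Type u} [AddCommGroup Γ] [DecidableEq Γ]

/-- **Every dimension.** -/
theorem to_trade_all {A : Finset Γ} {m : ℕ} (r : ℕ) (hm : 2 ≤ m) (htor : ∀ x : Γ, m • x = 0)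
    {d D : ℕ} (hD : 1 ≤ D) (hdD : d ≤ D) {v : Fin d → Γ} {L : Fin d → ℕ} {H : AddSubgroup Γ}
    {T : Finset Γ} (hfin : Finite H)
    (hprop : ∀ c c' : Fin d → ℤ, (∀ i, |c i| ≤ L i) → (∀ i, |c' i| ≤ L i) →
        ∑ i, c i • v i - ∑ i, c' i • v i ∈ H → c = c')
    (hsize : (∏ i, (2 * L i + 1)) * Nat.card H ≤ A.card)
    (hcov : ∀ a ∈ A, ∃ t ∈ T, ∃ c : Fin d → ℤ, (∀ i, |c i| ≤ L i) ∧
        ∃ h ∈ H, a = t + ∑ i, c i • v i + h) {V : ℝ} (hV : (T.card : ℝ) ≤ V) :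
    ∃ (k : ℕ) (w : Fin k → Γ) (M : Fin k → ℕ) (H' : AddSubgroup Γ) (T' : Finset Γ), k ≤ r ∧
      Finite H' ∧ (∏ i, (2 * M i + 1)) * Nat.card H' ≤ A.card ∧
      (T'.card : ℝ) ≤ 6 * (m : ℝ) ^ te D r * V ∧
      ∀ a ∈ A, ∃ t ∈ T', ∃ c : Fin k → ℤ, (∀ i, |c i| ≤ M i) ∧
        ∃ h ∈ H', a = t + ∑ i, c i • w i + h := by
  have hm0 : (0 : ℝ) ≤ (m : ℝ) := by positivity
  rcases Nat.eq_zero_or_pos r with hr | hr
  · subst hr
    obtain ⟨H', T', g1, g2, g3, g4⟩ := to_subgroup hm htor hD hdD hfin hprop hsize hcov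
    refine ⟨0, Fin.elim0, Fin.elim0, H', T', le_rfl, g1, by simpa using g2, ?_, ?_⟩
    · rw [te, if_pos rfl]
      have h1 : 0 ≤ (m : ℝ) ^ ((((D + 1) ^ 2 / 4 : ℕ) : ℝ) / D) := Real.rpow_nonneg hm0 _
      have h2 := g3.trans (mul_le_mul_of_nonneg_left hV h1)
      have h3 : 0 ≤ (m : ℝ) ^ ((((D + 1) ^ 2 / 4 : ℕ) : ℝ) / D) * V :=
        mul_nonneg h1 ((Nat.cast_nonneg _).trans hV)
      linarith
    · intro a ha
      obtain ⟨t, ht, hat⟩ := g4 a ha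
      exact ⟨t, ht, 0, fun i => i.elim0, a - t, hat, by simp⟩
  · obtain ⟨k, w, M, H', T', g1, g2, g3, g4, g5⟩ := to_trade hm htor hr hdD hfin hsize hcov
    refine ⟨k, w, M, H', T', g1, g2, g3, ?_, g5⟩
    rw [te, if_neg (by omega)]
    exact g4.trans (mul_le_mul_of_nonneg_left hV
      (mul_nonneg (by norm_num) (Real.rpow_nonneg hm0 _)))

/-- **The tradeoff, upper bounds.** -/
theorem upper_trade {A : Finset Γ} {m : ℕ} (r : ℕ) (hm : 2 ≤ m) (htor : ∀ x : Γ, m • x = 0)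
    (hA : A.Nonempty) {K : ℝ} (hK : ((A + A).card : ℝ) ≤ K * A.card) :
    (∀ ε : ℝ, 0 < ε → ε ≤ 1 → ∀ d : ℕ, d = max 1 ⌊(1 + ε) * Real.logb 2 K + ε⌋₊ →
      ∃ (k : ℕ) (v : Fin k → Γ) (L : Fin k → ℕ) (H : AddSubgroup Γ) (T : Finset Γ), k ≤ r ∧
        Finite H ∧ (∏ i, (2 * L i + 1)) * Nat.card H ≤ A.card ∧
        (T.card : ℝ) ≤ 6 * (m : ℝ) ^ te d r *
          (2 * K) ^ (10 ^ 21 * (1 + Real.log (1 + Real.log (2 * K))) ^ 2 / ε ^ 4) ∧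
        ∀ a ∈ A, ∃ t ∈ T, ∃ c : Fin k → ℤ, (∀ i, |c i| ≤ L i) ∧
          ∃ h ∈ H, a = t + ∑ i, c i • v i + h) ∧
    (∀ δ : ℝ, 0 < δ → δ ≤ 1 → ∀ d : ℕ, d = max 1 ⌊Real.logb 2 K + δ⌋₊ →
      ∃ (k : ℕ) (v : Fin k → Γ) (L : Fin k → ℕ) (H : AddSubgroup Γ) (T : Finset Γ), k ≤ r ∧
        Finite H ∧ (∏ i, (2 * L i + 1)) * Nat.card H ≤ A.card ∧
        (T.card : ℝ) ≤ 6 * (m : ℝ) ^ te d r *
          Real.exp (10 ^ 22 * Real.log (2 * K) ^ 5 *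
            (1 + Real.log (1 + Real.log (2 * K))) ^ 2 / δ ^ 4) ∧
        ∀ a ∈ A, ∃ t ∈ T, ∃ c : Fin k → ℤ, (∀ i, |c i| ≤ L i) ∧
          ∃ h ∈ H, a = t + ∑ i, c i • v i + h) := by
  refine ⟨fun ε hε hε1 D hD => ?_, fun δ hδ hδ1 D hD => ?_⟩
  · obtain ⟨d, v, L, H, T, h1, h2, h3, h4, h5, h6⟩ := gap_gen hA hK hε hε1
    have hlog : 0 < Real.log 2 := Real.log_pos (by norm_num)
    have hdD : d ≤ D := by
      rw [hD]
      rcases h1 with h1 | h1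
      · exact (show d ≤ 1 by exact_mod_cast h1).trans (le_max_left _ _)
      · refine le_trans (Nat.le_floor ?_) (le_max_right _ _)
        rw [Real.logb, ← mul_div_assoc, div_add' _ _ _ hlog.ne', le_div_iff₀ hlog]
        exact h1
    exact to_trade_all r hm htor (by rw [hD]; exact le_max_left _ _) hdD h2 h3 h4 h6 h5
  · obtain ⟨d, v, L, H, T, h1, h2, h3, h4, h5, h6⟩ := floor_gen hA hK hδ hδ1
    exact to_trade_all r hm htor (by rw [hD]; exact le_max_left _ _) (hD ▸ h1) h2 h3 h4 h6 h5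

end Pool.Agent.Run7.h127.SP
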