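import Pool.Agent.Run7.h127.SP.PolyMain
import Pool.Agent.Run7.h127.SD.Ext

/-!
# Sharp dimension, polynomially many pieces, all Freiman homomorphisms
-/

set_option autoImplicit false
set_option linter.unusedSectionVars false

namespace Pool.Agent.Run7.h127.SP

open H112 Finset Pool.Agent.Run7.h127.SN
open scoped Pointwise

universe u w

variable {Γ : Type u} [AddCommGroup Γ] [DecidableEq Γ]

/-- **Sharp dimension, polynomially many pieces.** -/
theorem poly_univ {A : Finset Γ}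
    (hA : A.Nonempty) {K : ℝ} (hK : ((A + A).card : ℝ) ≤ K * A.card)
    {ε : ℝ} (hε : 0 < ε) (hε1 : ε ≤ 1) {η : ℝ} (hη : 0 < η) (hη1 : η ≤ 1) :
    ∃ (d : ℕ) (N : Seminorm ℝ (Fin d → ℝ)) (ψ : (Fin d → ℤ) →+ Γ) (H : AddSubgroup Γ)
      (F : Finset Γ) (P : Γ → Finset Γ), (∀ x, N x = 0 → x = 0) ∧ Finite H ∧
      (d : ℝ) * Real.log 2 ≤ (1 + ε) * Real.log K + ε * Real.log 2 ∧
      (((LL N 1).ncard * Nat.card H : ℕ) : ℝ) ≤
        Real.exp (3 * 10 ^ 11 / (η ^ 3 * ε) * Real.log (2 * K) ^ (1 + η)) * A.card ∧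
      F ⊆ A ∧ (F.card : ℝ) ≤ (2 * K) ^ (10 ^ 21 / (η ^ 2 * ε ^ 4)) ∧
      (∀ a ∈ A, ∃ f ∈ F, a ∈ P f) ∧
      ∀ f ∈ F, P f ⊆ A ∧ (∀ a ∈ P f, ∃ c ∈ LL N 1, ∃ h ∈ H, a = f + ψ c + h) ∧
        ∀ (W : Type w) [AddCommGroup W] [IsAddTorsionFree W] (g : Γ → W),
          IsAddFreimanHom 2 (A : Set Γ) Set.univ g → SD.rk g (P f : Set Γ) ≤ d := by
  classical
  obtain ⟨W₀, _, _, g₀, hg₀, huniv⟩ := SD.exists_univ.{u, w} A
  obtain ⟨e, he⟩ : ∃ e : Γ → Γ × W₀, e = fun a => (a, g₀ a) := ⟨_, rfl⟩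
  have hfst : ∀ a, (e a).1 = a := fun a => by rw [he]
  have hsnd : ∀ a, (e a).2 = g₀ a := fun a => by rw [he]
  have hinj : Function.Injective e := fun a b hab => by
    rw [← hfst a, ← hfst b, hab]
  obtain ⟨S, hS⟩ : ∃ S, S = A.image e := ⟨_, rfl⟩
  have hSc : S.card = A.card := by rw [hS, card_image_of_injective _ hinj]
  have hSne : S.Nonempty := by rw [hS]; exact hA.image e
  have hSS : (S + S).card ≤ (A + A).card := by
    refine card_le_card_of_injOn Prod.fst ?_ ?_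
    · intro z hz
      obtain ⟨x, hx, y, hy, rfl⟩ := mem_add.1 (mem_coe.1 hz)
      rw [hS] at hx hy
      obtain ⟨a, ha, rfl⟩ := mem_image.1 hx
      obtain ⟨b, hb, rfl⟩ := mem_image.1 hy
      rw [Prod.fst_add, hfst, hfst]
      exact mem_coe.2 (add_mem_add ha hb)
    · intro z hz z' hz' hzz
      obtain ⟨x, hx, y, hy, rfl⟩ := mem_add.1 (mem_coe.1 hz)
      obtain ⟨x', hx', y', hy', rfl⟩ := mem_add.1 (mem_coe.1 hz')
      rw [hS] at hx hy hx' hy'
      obtain ⟨a, ha, rfl⟩ := mem_image.1 hx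
      obtain ⟨b, hb, rfl⟩ := mem_image.1 hy
      obtain ⟨a', ha', rfl⟩ := mem_image.1 hx'
      obtain ⟨b', hb', rfl⟩ := mem_image.1 hy'
      refine Prod.ext hzz ?_
      rw [Prod.fst_add, Prod.fst_add, hfst, hfst, hfst, hfst] at hzz
      rw [Prod.snd_add, Prod.snd_add, hsnd, hsnd, hsnd, hsnd]
      exact hg₀.add_eq_add (mem_coe.2 ha) (mem_coe.2 hb) (mem_coe.2 ha') (mem_coe.2 hb') hzz
  have hSK : ((S + S).card : ℝ) ≤ K * S.card := by
    rw [hSc]
    exact le_trans (by exact_mod_cast hSS) hK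
  obtain ⟨d, N, ψ, H, F, hN, hH, hdim, hsize, hFS, hF, hcov, -⟩ :=
    poly_gen.{max u w} hSne hSK hε hε1 hη hη1
  rw [hSc] at hsize
  have hHsnd : ∀ h ∈ H, h.2 = 0 := by
    intro h hh
    have h1 : Nat.card H • (⟨h, hh⟩ : H) = 0 := card_nsmul_eq_zero'
    have h2 : Nat.card H • h = 0 := by
      have h3 := congrArg H.subtype h1
      rw [map_nsmul, map_zero] at h3
      exact h3
    have h4 : Nat.card H • h.2 = 0 := by
      rw [← Prod.smul_snd, h2, Prod.snd_zero]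
    exact (smul_eq_zero_iff_right (Nat.card_pos.ne' : Nat.card H ≠ 0)).1 h4
  obtain ⟨H', hH'⟩ : ∃ H' : AddSubgroup Γ, H' = H.map (AddMonoidHom.fst Γ W₀) := ⟨_, rfl⟩
  have hsurj : Function.Surjective (fun h : H => (⟨h.1.1, by
      rw [hH']
      exact ⟨h.1, h.2, rfl⟩⟩ : H')) := by
    rintro ⟨x, hx⟩
    have hx' := hx
    rw [hH'] at hx'
    obtain ⟨h, hh, rfl⟩ := hx'
    exact ⟨⟨h, hh⟩, rfl⟩
  have hfin' : Finite H' := Finite.of_surjective _ hsurj
  have hcard' : Nat.card H' ≤ Nat.card H := Nat.card_le_card_of_surjective _ hsurj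
  obtain ⟨P, hP⟩ : ∃ P : Γ → Finset Γ, P = fun f => A.filter fun a =>
    ∃ c ∈ LL N 1, ∃ h ∈ H, e a = e f + ψ c + h := ⟨_, rfl⟩
  have hPm : ∀ f a, a ∈ P f ↔ a ∈ A ∧ ∃ c ∈ LL N 1, ∃ h ∈ H, e a = e f + ψ c + h := by
    intro f a
    rw [hP, mem_filter]
  refine ⟨d, N, (AddMonoidHom.fst Γ W₀).comp ψ, H', F.image Prod.fst, P, hN, hfin', hdim, ?_, ?_,
    ?_, ?_, ?_⟩
  · refine le_trans ?_ hsize
    exact_mod_cast Nat.mul_le_mul_left _ hcard'
  · intro f hf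
    obtain ⟨z, hz, rfl⟩ := mem_image.1 hf
    have h1 := hFS hz
    rw [hS] at h1
    obtain ⟨a, ha, rfl⟩ := mem_image.1 h1
    rw [hfst]
    exact ha
  · refine le_trans ?_ hF
    exact_mod_cast card_image_le
  · intro a ha
    obtain ⟨z, hz, c, hc, h, hh, e1⟩ := hcov (e a) (by
      rw [hS]
      exact mem_image_of_mem e ha)
    have h1 := hFS hz
    rw [hS] at h1
    obtain ⟨f, hf, rfl⟩ := mem_image.1 h1
    refine ⟨f, mem_image.2 ⟨e f, hz, hfst f⟩, ?_⟩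
    rw [hPm]
    exact ⟨ha, c, hc, h, hh, e1⟩
  · intro f _
    refine ⟨?_, ?_, ?_⟩
    · intro a ha
      exact ((hPm f a).1 ha).1
    · intro a ha
      obtain ⟨_, c, hc, h, hh, e1⟩ := (hPm f a).1 ha
      refine ⟨c, hc, h.1, ?_, ?_⟩
      · rw [hH']
        exact ⟨h, hh, rfl⟩
      · have h2 := congrArg Prod.fst e1
        rw [Prod.fst_add, Prod.fst_add, hfst, hfst] at h2
        exact h2
    · intro W _ _ g hg
      refine (huniv W g hg (P f) fun a ha => ((hPm f a).1 ha).1).trans ?_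
      unfold SD.rk
      obtain ⟨θ, hθ⟩ : ∃ θ : (Fin d → ℤ) →ₗ[ℤ] W₀,
        θ = ((AddMonoidHom.snd Γ W₀).comp ψ).toIntLinearMap := ⟨_, rfl⟩
      have hθs : ∀ c, θ c = (ψ c).2 := by
        intro c
        rw [hθ]
        rfl
      have h6 : Submodule.span ℤ (g₀ '' (P f : Set Γ) - g₀ '' (P f : Set Γ)) ≤
          LinearMap.range θ := by
        rw [Submodule.span_le]
        rintro _ ⟨_, ⟨a, ha, rfl⟩, _, ⟨b, hb, rfl⟩, rfl⟩
        obtain ⟨_, c, _, h, hh, e1⟩ := (hPm f a).1 (mem_coe.1 ha)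
        obtain ⟨_, c', _, h', hh', e2⟩ := (hPm f b).1 (mem_coe.1 hb)
        refine ⟨c - c', ?_⟩
        rw [hθs, map_sub, Prod.snd_sub]
        have h7 := congrArg Prod.snd e1
        have h8 := congrArg Prod.snd e2
        rw [Prod.snd_add, Prod.snd_add, hsnd, hsnd, hHsnd h hh, add_zero] at h7
        rw [Prod.snd_add, Prod.snd_add, hsnd, hsnd, hHsnd h' hh', add_zero] at h8
        show (ψ c).2 - (ψ c').2 = g₀ a - g₀ b
        rw [h7, h8]
        abel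
      refine (Submodule.finrank_mono h6).trans ?_
      refine (LinearMap.finrank_range_le _).trans ?_
      rw [Module.finrank_fin_fun]

end Pool.Agent.Run7.h127.SP
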